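import Mathlib

/-!
# EXT / BaireT: a real point outside countably many analytic hypersurfaces

PROOF.  In the ball `‖β - β0‖ < ρ` of `Fin m → ℝ` (a Baire space) the sets `{β | c i (I β) = 0}` are relatively closed with empty interior: a complex
differentiable function which vanishes at `I β` for all real `β` near `β1` vanishes near `I β1` (totally real: the complex line `t ↦ I (x + t y)`), hence
on the ball (complex lines through a point near `I β1`), hence near `I β0`. The sets `{β | f (I β) = 0}`, `f ≠ 0` over `k` (countably many): same.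
-/

set_option autoImplicit false

namespace Pool.Agent.EXT

open MvPolynomial Topology Filter

private theorem bt_norm {m : ℕ} (β γ : Fin m → ℝ) :
    ‖(fun j => Complex.I * (β j : ℂ)) - (fun j => Complex.I * (γ j : ℂ))‖ = ‖β - γ‖ := by
  rw [Pi.norm_def, Pi.norm_def]
  congr 2
  funext j
  apply NNReal.eq
  rw [coe_nnnorm, coe_nnnorm, Pi.sub_apply, Pi.sub_apply, ← mul_sub, norm_mul, Complex.norm_I,
    one_mul, ← Complex.ofReal_sub, Complex.norm_real]

/-- an analytic function which vanishes at `I β` for real `β` near `β1` vanishes near `I β1` -/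
private theorem bt_real {m : ℕ} (β1 : Fin m → ℝ) (ε : ℝ) (hε : 0 < ε) (c : (Fin m → ℂ) → ℂ)
    (hc : ∀ α, ‖α - (fun j => Complex.I * (β1 j : ℂ))‖ < ε → DifferentiableAt ℂ c α)
    (hz : ∀ β : Fin m → ℝ, ‖β - β1‖ < ε → c (fun j => Complex.I * (β j : ℂ)) = 0) :
    ∀ᶠ α in 𝓝 (fun j => Complex.I * (β1 j : ℂ) : Fin m → ℂ), c α = 0 := by
  rw [Metric.eventually_nhds_iff]
  refine ⟨ε / 2, by positivity, fun α hα => ?_⟩
  rw [dist_eq_norm] at hα
  obtain ⟨x, hx⟩ : ∃ x : Fin m → ℝ, x = fun j => (α j).im := ⟨_, rfl⟩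
  obtain ⟨y, hy⟩ : ∃ y : Fin m → ℝ, y = fun j => -(α j).re := ⟨_, rfl⟩
  have hαj : ∀ j, ‖α j - Complex.I * (β1 j : ℂ)‖ < ε / 2 := fun j =>
    lt_of_le_of_lt (norm_le_pi_norm (α - fun j => Complex.I * (β1 j : ℂ)) j) hα
  have hxj : ∀ j, |x j - β1 j| < ε / 2 := by
    intro j
    refine lt_of_le_of_lt ?_ (hαj j)
    have h1 := Complex.abs_im_le_norm (α j - Complex.I * (β1 j : ℂ))
    rw [hx]
    simpa using h1
  have hyj : ∀ j, |y j| < ε / 2 := by
    intro j
    refine lt_of_le_of_lt ?_ (hαj j)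
    have h1 := Complex.abs_re_le_norm (α j - Complex.I * (β1 j : ℂ))
    rw [hy, abs_neg]
    simpa using h1
  obtain ⟨L, hL⟩ : ∃ L : ℂ → (Fin m → ℂ), L = fun t j => Complex.I * ((x j : ℂ) + t * (y j : ℂ)) :=
    ⟨_, rfl⟩
  have hLa : ∀ t, AnalyticAt ℂ L t := by
    intro t
    rw [hL, analyticAt_pi_iff]
    intro j
    fun_prop
  have hLI : L Complex.I = α := by
    rw [hL, hx, hy]
    funext j
    apply Complex.ext
    · simp
    · simp
  have hLr : ∀ t : ℝ, L (t : ℂ) = fun j => Complex.I * (((x j + t * y j : ℝ)) : ℂ) := by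
    intro t
    rw [hL]
    funext j
    push_cast
    ring
  have hconv : Convex ℝ {t : ℂ | ‖L t - (fun j => Complex.I * (β1 j : ℂ))‖ < ε} := by
    intro s hs t ht a b ha hb hab
    rw [Set.mem_ofPred_eq] at hs ht ⊢
    have h1 : L (a • s + b • t) - (fun j => Complex.I * (β1 j : ℂ)) =
        (a : ℂ) • (L s - fun j => Complex.I * (β1 j : ℂ)) +
          (b : ℂ) • (L t - fun j => Complex.I * (β1 j : ℂ)) := by
      have hab' : (a : ℂ) + (b : ℂ) = 1 := by exact_mod_cast hab
      rw [hL]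
      funext j
      simp only [Pi.sub_apply, Pi.add_apply, Pi.smul_apply, smul_eq_mul, Complex.real_smul]
      linear_combination (Complex.I * (x j : ℂ) - Complex.I * (β1 j : ℂ)) * (-hab')
    rw [h1]
    refine lt_of_le_of_lt (norm_add_le _ _) ?_
    rw [norm_smul, norm_smul, Complex.norm_real, Complex.norm_real, Real.norm_of_nonneg ha,
      Real.norm_of_nonneg hb]
    rcases ha.lt_or_eq with ha' | ha'
    · have h2 : a * ‖L s - fun j => Complex.I * (β1 j : ℂ)‖ < a * ε :=
        mul_lt_mul_of_pos_left hs ha'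
      have h3 : b * ‖L t - fun j => Complex.I * (β1 j : ℂ)‖ ≤ b * ε :=
        mul_le_mul_of_nonneg_left ht.le hb
      nlinarith
    · have hb' : b = 1 := by linarith
      rw [← ha', hb']
      simpa using ht
  have hreal : ∀ t : ℝ, |t| ≤ 1 → ‖(fun j => x j + t * y j) - β1‖ < ε := by
    intro t ht
    rw [pi_norm_lt_iff hε]
    intro j
    rw [Pi.sub_apply, Real.norm_eq_abs]
    have h1 : |t * y j| ≤ |y j| := by
      rw [abs_mul]
      exact mul_le_of_le_one_left (abs_nonneg _) ht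
    have h2 : x j + t * y j - β1 j = (x j - β1 j) + t * y j := by ring
    rw [h2]
    refine lt_of_le_of_lt (abs_add_le _ _) ?_
    have := hxj j
    have := hyj j
    linarith
  have h0 : (0 : ℂ) ∈ {t : ℂ | ‖L t - (fun j => Complex.I * (β1 j : ℂ))‖ < ε} := by
    rw [Set.mem_ofPred_eq]
    have h1 := hLr 0
    rw [Complex.ofReal_zero] at h1
    rw [h1, bt_norm]
    exact hreal 0 (by simp)
  have hI : Complex.I ∈ {t : ℂ | ‖L t - (fun j => Complex.I * (β1 j : ℂ))‖ < ε} := by
    rw [Set.mem_ofPred_eq, hLI]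
    linarith
  have hLo : IsOpen {t : ℂ | ‖L t - (fun j => Complex.I * (β1 j : ℂ))‖ < ε} := by
    have h1 : Continuous L := continuous_iff_continuousAt.2 fun t => (hLa t).continuousAt
    exact isOpen_lt (h1.sub continuous_const).norm continuous_const
  have han : AnalyticOnNhd ℂ (fun t => c (L t))
      {t : ℂ | ‖L t - (fun j => Complex.I * (β1 j : ℂ))‖ < ε} := by
    refine DifferentiableOn.analyticOnNhd (fun t ht => ?_) hLo
    exact ((hc (L t) ht).comp t (hLa t).differentiableAt).differentiableWithinAt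
  have hfr : ∃ᶠ t in 𝓝[≠] (0 : ℂ), c (L t) = 0 := by
    have ht : Tendsto (fun t : ℝ => (t : ℂ)) (𝓝[≠] 0) (𝓝[≠] 0) := by
      refine tendsto_nhdsWithin_of_tendsto_nhds_of_eventually_within _ ?_ ?_
      · have h1 := Complex.continuous_ofReal.tendsto (0 : ℝ)
        rw [Complex.ofReal_zero] at h1
        exact h1.mono_left nhdsWithin_le_nhds
      · filter_upwards [self_mem_nhdsWithin] with t ht
        simpa using ht
    refine ht.frequently (Eventually.frequently ?_)
    have h1 : ∀ᶠ t : ℝ in 𝓝[≠] 0, |t| < 1 := by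
      have h2 : ∀ᶠ t : ℝ in 𝓝 0, |t| < 1 := by
        have h3 := (continuous_abs (G := ℝ)).tendsto 0
        rw [abs_zero] at h3
        exact h3.eventually (gt_mem_nhds one_pos)
      exact h2.filter_mono nhdsWithin_le_nhds
    filter_upwards [h1] with t ht1
    rw [hLr]
    exact hz _ (hreal t ht1.le)
  have h1 := han.eqOn_zero_of_preconnected_of_frequently_eq_zero hconv.isPreconnected h0 hfr hI
  rw [← hLI]
  exact h1

/-- the identity theorem on a ball, by restriction to complex lines -/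
private theorem bt_ident {m : ℕ} (z w : Fin m → ℂ) (ρ : ℝ) (c : (Fin m → ℂ) → ℂ)
    (hc : ∀ α, ‖α - z‖ < ρ → DifferentiableAt ℂ c α) (hw : ‖w - z‖ < ρ)
    (h0 : ∀ᶠ α in 𝓝 w, c α = 0) (α : Fin m → ℂ) (hα : ‖α - z‖ < ρ) : c α = 0 := by
  obtain ⟨L, hL⟩ : ∃ L : ℂ → (Fin m → ℂ), L = fun t => w + t • (α - w) := ⟨_, rfl⟩
  have hLd : ∀ t, DifferentiableAt ℂ L t := by
    intro t
    rw [hL]
    fun_prop
  have hL0 : L 0 = w := by rw [hL]; simp
  have hL1 : L 1 = α := by rw [hL]; simp
  have hconv : Convex ℝ {t : ℂ | ‖L t - z‖ < ρ} := by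
    intro s hs t ht a b ha hb hab
    rw [Set.mem_ofPred_eq] at hs ht ⊢
    have h1 : L (a • s + b • t) - z = (a : ℂ) • (L s - z) + (b : ℂ) • (L t - z) := by
      have hab' : (a : ℂ) + (b : ℂ) = 1 := by exact_mod_cast hab
      rw [hL]
      funext j
      simp only [Pi.sub_apply, Pi.add_apply, Pi.smul_apply, smul_eq_mul, Complex.real_smul]
      linear_combination (w j - z j) * (-hab')
    rw [h1]
    refine lt_of_le_of_lt (norm_add_le _ _) ?_
    rw [norm_smul, norm_smul, Complex.norm_real, Complex.norm_real, Real.norm_of_nonneg ha,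
      Real.norm_of_nonneg hb]
    rcases ha.lt_or_eq with ha' | ha'
    · have h2 : a * ‖L s - z‖ < a * ρ := mul_lt_mul_of_pos_left hs ha'
      have h3 : b * ‖L t - z‖ ≤ b * ρ := mul_le_mul_of_nonneg_left ht.le hb
      have h4 : a * ρ + b * ρ = ρ := by rw [← add_mul, hab, one_mul]
      linarith
    · have hb' : b = 1 := by linarith
      rw [← ha', hb']
      simpa using ht
  have hcont : Continuous L := continuous_iff_continuousAt.2 fun t => (hLd t).continuousAt
  have hLo : IsOpen {t : ℂ | ‖L t - z‖ < ρ} :=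
    isOpen_lt (hcont.sub continuous_const).norm continuous_const
  have han : AnalyticOnNhd ℂ (fun t => c (L t)) {t : ℂ | ‖L t - z‖ < ρ} := by
    refine DifferentiableOn.analyticOnNhd (fun t ht => ?_) hLo
    exact ((hc (L t) ht).comp t (hLd t)).differentiableWithinAt
  have hev : ∀ᶠ t in 𝓝 (0 : ℂ), c (L t) = 0 := by
    have h1 : Tendsto L (𝓝 0) (𝓝 w) := by
      have := hcont.tendsto 0
      rwa [hL0] at this
    exact h1.eventually h0
  have h1 := han.eqOn_zero_of_preconnected_of_eventuallyEq_zero hconv.isPreconnected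
    (z₀ := (0 : ℂ)) (by rw [Set.mem_ofPred_eq, hL0]; exact hw) hev
    (x := (1 : ℂ)) (by rw [Set.mem_ofPred_eq, hL1]; exact hα)
  rw [← hL1]
  exact h1

/-- density -/
private theorem bt_dense {m : ℕ} (β0 : Fin m → ℝ) (ρ : ℝ) (hρ : 0 < ρ) (c : (Fin m → ℂ) → ℂ)
    (hc : ∀ α, ‖α - (fun j => Complex.I * (β0 j : ℂ))‖ < ρ → DifferentiableAt ℂ c α)
    (hne : ¬ ∀ᶠ α in 𝓝 (fun j => Complex.I * (β0 j : ℂ) : Fin m → ℂ), c α = 0) :
    Dense ({β : Fin m → ℝ | ‖β - β0‖ < ρ ∧ c (fun j => Complex.I * (β j : ℂ)) ≠ 0} ∪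
      {β | ρ < ‖β - β0‖}) := by
  rw [Metric.dense_iff]
  intro β1 r hr
  rcases lt_or_ge ρ ‖β1 - β0‖ with h | h
  · exact ⟨β1, Metric.mem_ball_self hr, Or.inr h⟩
  · have h1 : β1 ∈ closure (Metric.ball β0 ρ) := by
      rw [closure_ball β0 hρ.ne', Metric.mem_closedBall, dist_eq_norm]
      exact h
    obtain ⟨β2, h2, h3⟩ := Metric.mem_closure_iff.1 h1 r hr
    rw [Metric.mem_ball, dist_eq_norm] at h2
    obtain ⟨ε, hεd⟩ : ∃ ε : ℝ, ε = min (r - dist β1 β2) (ρ - ‖β2 - β0‖) := ⟨_, rfl⟩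
    have hε : 0 < ε := by
      rw [hεd]
      exact lt_min (by linarith) (by linarith)
    have hε1 : ε ≤ r - dist β1 β2 := by rw [hεd]; exact min_le_left _ _
    have hε2 : ε ≤ ρ - ‖β2 - β0‖ := by rw [hεd]; exact min_le_right _ _
    by_contra hcon
    apply hne
    have hzero : ∀ β : Fin m → ℝ, ‖β - β2‖ < ε → c (fun j => Complex.I * (β j : ℂ)) = 0 := by
      intro β hβ
      by_contra hcβ
      apply hcon
      refine ⟨β, ?_, Or.inl ⟨?_, hcβ⟩⟩
      · rw [Metric.mem_ball]
        have h4 := dist_triangle β β2 β1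
        rw [dist_eq_norm β β2, dist_comm β2 β1] at h4
        linarith
      · have h4 : β - β0 = (β - β2) + (β2 - β0) := by abel
        rw [h4]
        refine lt_of_le_of_lt (norm_add_le _ _) ?_
        linarith
    have hc2 : ∀ α, ‖α - (fun j => Complex.I * (β2 j : ℂ))‖ < ε → DifferentiableAt ℂ c α := by
      intro α hα
      apply hc
      have h4 : α - (fun j => Complex.I * (β0 j : ℂ)) = (α - fun j => Complex.I * (β2 j : ℂ)) +
          ((fun j => Complex.I * (β2 j : ℂ)) - fun j => Complex.I * (β0 j : ℂ)) := by abel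
      rw [h4]
      refine lt_of_le_of_lt (norm_add_le _ _) ?_
      rw [bt_norm]
      linarith
    have h5 := bt_real β2 ε hε c hc2 hzero
    filter_upwards [Metric.ball_mem_nhds _ hρ] with α hα
    rw [Metric.mem_ball, dist_eq_norm] at hα
    refine bt_ident _ (fun j => Complex.I * (β2 j : ℂ)) ρ c hc ?_ h5 α hα
    rw [bt_norm]
    exact h2

theorem baireT (k : Subfield ℂ) (hk : (k : Set ℂ).Countable) {m : ℕ} (β0 : Fin m → ℝ) (ρ : ℝ)
    (hρ : 0 < ρ) {J : Type} [Countable J] (c : J → (Fin m → ℂ) → ℂ)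
    (hc : ∀ i α, ‖α - (fun j => Complex.I * (β0 j : ℂ))‖ < ρ → DifferentiableAt ℂ (c i) α)
    (hne : ∀ i, ¬ ∀ᶠ α in 𝓝 (fun j => Complex.I * (β0 j : ℂ) : Fin m → ℂ), c i α = 0) :
    ∃ β : Fin m → ℝ, ‖(fun j => Complex.I * (β j : ℂ)) - (fun j => Complex.I * (β0 j : ℂ))‖ < ρ ∧
      AlgebraicIndependent k (fun j => Complex.I * (β j : ℂ)) ∧
      ∀ i, c i (fun j => Complex.I * (β j : ℂ)) ≠ 0 := by
  classical
  have hcount : Countable (MvPolynomial (Fin m) k) := by
    have h1 : Cardinal.mk k ≤ Cardinal.aleph0 := Cardinal.mk_le_aleph0_iff.2 hk.to_subtype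
    refine Cardinal.mk_le_aleph0_iff.1 ((MvPolynomial.cardinalMk_le_max).trans ?_)
    exact max_le (max_le h1 (Cardinal.mk_le_aleph0_iff.2 inferInstance)) le_rfl
  have hpa : ∀ (f : MvPolynomial (Fin m) k) (α : Fin m → ℂ),
      AnalyticAt ℂ (fun α : Fin m → ℂ => aeval α f) α := by
    intro f α
    exact AnalyticAt.aeval_mvPolynomial
      (fun i => (ContinuousLinearMap.proj (R := ℂ) (φ := fun _ : Fin m => ℂ) i).analyticAt α) f
  -- one family
  obtain ⟨d, hd1, hd2⟩ : ∃ d : J ⊕ {f : MvPolynomial (Fin m) k // f ≠ 0} → (Fin m → ℂ) → ℂ,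
      (∀ i, d (Sum.inl i) = c i) ∧ ∀ f, d (Sum.inr f) = fun α => aeval α f.1 :=
    ⟨Sum.elim c fun f α => aeval α f.1, fun _ => rfl, fun _ => rfl⟩
  have hda : ∀ i α, ‖α - (fun j => Complex.I * (β0 j : ℂ))‖ < ρ → DifferentiableAt ℂ (d i) α := by
    intro i α hα
    rcases i with i | f
    · rw [hd1]
      exact hc i α hα
    · rw [hd2]
      exact (hpa f.1 α).differentiableAt
  have hdne : ∀ i, ¬ ∀ᶠ α in 𝓝 (fun j => Complex.I * (β0 j : ℂ) : Fin m → ℂ), d i α = 0 := by
    intro i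
    rcases i with i | f
    · rw [hd1]
      exact hne i
    · rw [hd2]
      intro h
      apply f.2
      have han : AnalyticOnNhd ℂ (fun α : Fin m → ℂ => aeval α f.1) Set.univ := fun α _ =>
        hpa f.1 α
      have h1 := han.eqOn_zero_of_preconnected_of_eventuallyEq_zero isPreconnected_univ
        (Set.mem_univ _) h
      have h2 : map (algebraMap k ℂ) f.1 = 0 := by
        refine MvPolynomial.funext fun α => ?_
        rw [eval_map, map_zero, ← aeval_def]
        exact h1 (Set.mem_univ α)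
      exact map_injective _ (algebraMap k ℂ).injective (by rw [h2, map_zero])
  have hcI : Continuous fun β : Fin m → ℝ => (fun j => Complex.I * (β j : ℂ) : Fin m → ℂ) :=
    continuous_pi fun j =>
      continuous_const.mul (Complex.continuous_ofReal.comp (continuous_apply j))
  have hcn : Continuous fun β : Fin m → ℝ => ‖β - β0‖ := by fun_prop
  have hopen : ∀ i, IsOpen ({β : Fin m → ℝ | ‖β - β0‖ < ρ ∧
      d i (fun j => Complex.I * (β j : ℂ)) ≠ 0} ∪ {β | ρ < ‖β - β0‖}) := by
    intro i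
    refine IsOpen.union ?_ (isOpen_lt continuous_const hcn)
    have h1 : IsOpen {β : Fin m → ℝ | ‖β - β0‖ < ρ} := isOpen_lt hcn continuous_const
    have h2 : ContinuousOn (fun β : Fin m → ℝ => d i (fun j => Complex.I * (β j : ℂ)))
        {β : Fin m → ℝ | ‖β - β0‖ < ρ} := by
      intro β hβ
      refine ContinuousAt.continuousWithinAt ?_
      refine ContinuousAt.comp (f := fun β : Fin m → ℝ => fun j => Complex.I * (β j : ℂ))
        (g := d i) ?_ hcI.continuousAt
      refine (hda i _ ?_).continuousAt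
      rw [bt_norm]
      exact hβ
    exact h2.isOpen_inter_preimage h1 isOpen_compl_singleton
  have hdense := dense_iInter_of_isOpen hopen fun i => bt_dense β0 ρ hρ (d i) (hda i) (hdne i)
  obtain ⟨β, hβ1, hβ2⟩ := hdense.inter_open_nonempty (Metric.ball β0 ρ) Metric.isOpen_ball
    ⟨β0, Metric.mem_ball_self hρ⟩
  rw [Metric.mem_ball, dist_eq_norm] at hβ1
  rw [Set.mem_iInter] at hβ2
  have hβ : ∀ i, d i (fun j => Complex.I * (β j : ℂ)) ≠ 0 := by
    intro i
    rcases hβ2 i with h | h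
    · exact h.2
    · exact absurd hβ1 (not_lt.2 (le_of_lt h))
  refine ⟨β, ?_, ?_, ?_⟩
  · rw [bt_norm]
    exact hβ1
  · rw [algebraicIndependent_iff]
    intro f hf
    by_contra hf0
    have h1 := hβ (Sum.inr ⟨f, hf0⟩)
    rw [hd2] at h1
    exact h1 hf
  · intro i
    have h1 := hβ (Sum.inl i)
    rwa [hd1] at h1

end Pool.Agent.EXT
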