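import Mathlib

/-!
# EXT / OrdT: the generic order in `s`

PROOF (only complex differentiability, `C^1` off `s = 0`).  `A_n α = ∮_{|ζ| = ρ / 2} H (α, ζ) ζ^(-n-1) dζ`: differentiable on the ball, up to
`2 π i` the `n`-th Taylor coefficient of `H (α, ·)`. If all `A_n` were `0` on the ball, `H` would be `0` there. `K` = the least `n` with `A_n` not
identically `0` on the ball (then not locally `0` at `α0`: identity theorem on complex lines), `c = (2 π i)^(-1) A_K`,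
`g (α, s) = (2 π i)^(-1) ∮ H (α, ζ) ζ^(-K) (ζ - s)^(-1) dζ`. (`circ_diff` is from DivT, the steps from helper58's OrdE.)
-/

set_option autoImplicit false

namespace Pool.Agent.EXT

open Topology Filter

/-- A circle integral of a `C^1` integrand is differentiable in the parameter. -/
private lemma circ_diff {E : Type} [NormedAddCommGroup E] [NormedSpace ℂ E] [ProperSpace E]
    {U : Set E} (hU : IsOpen U) {R : ℝ} (hR : 0 < R) (G : E → ℂ → ℂ)
    (h : ∀ x ∈ U, ∀ ζ ∈ Metric.sphere (0 : ℂ) R, ContDiffAt ℂ 1 (Function.uncurry G) (x, ζ)) :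
    DifferentiableOn ℂ (fun x => ∮ ζ in C(0, R), G x ζ) U := by
  intro x₀ hx₀
  obtain ⟨ε, hε, hεU⟩ : ∃ ε > 0, Metric.closedBall x₀ ε ⊆ U :=
    Metric.nhds_basis_closedBall.mem_iff.1 (hU.mem_nhds hx₀)
  have hcirc : ∀ θ : ℝ, circleMap 0 R θ ∈ Metric.sphere (0 : ℂ) R := fun θ =>
    circleMap_mem_sphere 0 hR.le θ
  have hfc : ∀ x ∈ U, ∀ ζ ∈ Metric.sphere (0 : ℂ) R,
      ContinuousAt (fderiv ℂ (Function.uncurry G)) (x, ζ) := fun x hx ζ hζ =>
    ((h x hx ζ hζ).fderiv_right (m := 0) (by norm_num)).continuousAt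
  have hK : IsCompact (Metric.closedBall x₀ ε ×ˢ Metric.sphere (0 : ℂ) R) :=
    (isCompact_closedBall x₀ ε).prod (isCompact_sphere 0 R)
  obtain ⟨M, hM⟩ := hK.exists_bound_of_continuousOn
    (f := fderiv ℂ (Function.uncurry G)) (fun p hp =>
      (hfc p.1 (hεU hp.1) p.2 hp.2).continuousWithinAt)
  have hcm : Continuous (circleMap (0 : ℂ) R) := continuous_circleMap 0 R
  have hGc : ∀ x ∈ U, Continuous fun θ : ℝ => G x (circleMap 0 R θ) := by
    intro x hx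
    rw [continuous_iff_continuousAt]
    intro θ
    have h1 : ContinuousAt (Function.uncurry G) (x, circleMap 0 R θ) :=
      (h x hx _ (hcirc θ)).continuousAt
    have h2 : ContinuousAt (fun θ : ℝ => (x, circleMap 0 R θ)) θ :=
      (continuous_const.prodMk hcm).continuousAt
    exact ContinuousAt.comp (g := Function.uncurry G) (f := fun θ : ℝ => (x, circleMap 0 R θ)) h1 h2
  have hG'c : Continuous fun θ : ℝ => fderiv ℂ (Function.uncurry G) (x₀, circleMap 0 R θ) := by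
    rw [continuous_iff_continuousAt]
    intro θ
    have h1 := hfc x₀ hx₀ _ (hcirc θ)
    have h2 : ContinuousAt (fun θ : ℝ => (x₀, circleMap 0 R θ)) θ :=
      (continuous_const.prodMk hcm).continuousAt
    exact ContinuousAt.comp (g := fderiv ℂ (Function.uncurry G))
      (f := fun θ : ℝ => (x₀, circleMap 0 R θ)) h1 h2
  have hd : Continuous fun θ : ℝ => deriv (circleMap 0 R) θ := by
    have : (fun θ : ℝ => deriv (circleMap 0 R) θ) = fun θ => circleMap 0 R θ * Complex.I := by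
      funext θ
      simp [deriv_circleMap]
    rw [this]
    exact hcm.mul continuous_const
  have hdn : ∀ θ : ℝ, ‖deriv (circleMap 0 R) θ‖ = R := by
    intro θ
    rw [deriv_circleMap, norm_mul, Complex.norm_I, mul_one, norm_circleMap_zero, abs_of_pos hR]
  refine (HasFDerivAt.differentiableAt (f' := ∫ θ in (0 : ℝ)..2 * Real.pi,
    deriv (circleMap 0 R) θ • (fderiv ℂ (Function.uncurry G) (x₀, circleMap 0 R θ)).comp
      (ContinuousLinearMap.inl ℂ E ℂ)) ?_).differentiableWithinAt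
  refine intervalIntegral.hasFDerivAt_integral_of_dominated_of_fderiv_le
    (F := fun x θ => deriv (circleMap 0 R) θ • G x (circleMap 0 R θ))
    (F' := fun x θ => deriv (circleMap 0 R) θ •
      (fderiv ℂ (Function.uncurry G) (x, circleMap 0 R θ)).comp (ContinuousLinearMap.inl ℂ E ℂ))
    (bound := fun _ => R * (M * ‖ContinuousLinearMap.inl ℂ E ℂ‖))
    (s := Metric.closedBall x₀ ε) (Metric.closedBall_mem_nhds x₀ hε) ?_ ?_ ?_ ?_ ?_ ?_
  · filter_upwards [hU.mem_nhds hx₀] with x hx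
    exact (hd.smul (hGc x hx)).aestronglyMeasurable
  · exact (hd.smul (hGc x₀ hx₀)).intervalIntegrable _ _
  · have hG2 : Continuous fun θ : ℝ => (fderiv ℂ (Function.uncurry G)
        (x₀, circleMap 0 R θ)).comp (ContinuousLinearMap.inl ℂ E ℂ) :=
      hG'c.clm_comp continuous_const
    have hG3 : Continuous fun θ : ℝ => deriv (circleMap 0 R) θ • (fderiv ℂ (Function.uncurry G)
        (x₀, circleMap 0 R θ)).comp (ContinuousLinearMap.inl ℂ E ℂ) := hd.smul hG2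
    exact hG3.aestronglyMeasurable
  · refine Eventually.of_forall fun θ _ x hx => ?_
    rw [norm_smul, hdn θ]
    refine mul_le_mul_of_nonneg_left ?_ hR.le
    refine (ContinuousLinearMap.opNorm_comp_le _ _).trans ?_
    exact mul_le_mul_of_nonneg_right (hM (x, circleMap 0 R θ) ⟨hx, hcirc θ⟩) (norm_nonneg _)
  · exact intervalIntegrable_const
  · refine Eventually.of_forall fun θ _ x hx => ?_
    have h1 : HasFDerivAt (Function.uncurry G)
        (fderiv ℂ (Function.uncurry G) (x, circleMap 0 R θ)) (x, circleMap 0 R θ) :=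
      ((h x (hεU hx) _ (hcirc θ)).differentiableAt (by norm_num)).hasFDerivAt
    have h2 : HasFDerivAt (fun x : E => (x, circleMap 0 R θ)) (ContinuousLinearMap.inl ℂ E ℂ) x :=
      hasFDerivAt_prodMk_left x _
    have h3 : HasFDerivAt (fun x => G x (circleMap 0 R θ))
        ((fderiv ℂ (Function.uncurry G) (x, circleMap 0 R θ)).comp
          (ContinuousLinearMap.inl ℂ E ℂ)) x :=
      HasFDerivAt.comp (g := Function.uncurry G) (f := fun x : E => (x, circleMap 0 R θ)) x h1 h2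
    exact HasFDerivAt.fun_const_smul h3 (deriv (circleMap 0 R) θ)

/-- one step of the division -/
private theorem ordE_step {r : ℝ} (hr : 0 < r) {h : ℂ → ℂ}
    (hh : DifferentiableOn ℂ h (Metric.ball (0 : ℂ) r)) {s : ℂ} (hs : ‖s‖ < r / 4) (K : ℕ) :
    (∮ ζ in C(0, r / 2), h ζ * (ζ ^ K)⁻¹ * (ζ - s)⁻¹) =
      (∮ ζ in C(0, r / 2), h ζ * (ζ ^ (K + 1))⁻¹) +
        s * ∮ ζ in C(0, r / 2), h ζ * (ζ ^ (K + 1))⁻¹ * (ζ - s)⁻¹ := by
  have hρ : 0 ≤ r / 2 := by linarith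
  have hsph : ∀ ζ ∈ Metric.sphere (0 : ℂ) (r / 2), ζ ≠ 0 ∧ ζ - s ≠ 0 := by
    intro ζ hζ
    rw [mem_sphere_zero_iff_norm] at hζ
    constructor
    · rintro rfl
      rw [norm_zero] at hζ
      linarith
    · intro h0
      rw [sub_eq_zero] at h0
      rw [h0] at hζ
      linarith
  have hsub : Metric.sphere (0 : ℂ) (r / 2) ⊆ Metric.ball (0 : ℂ) r :=
    Metric.sphere_subset_ball (by linarith)
  have hc : ContinuousOn h (Metric.sphere (0 : ℂ) (r / 2)) := hh.continuousOn.mono hsub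
  have h1 : ContinuousOn (fun ζ : ℂ => h ζ * (ζ ^ (K + 1))⁻¹) (Metric.sphere (0 : ℂ) (r / 2)) :=
    hc.mul ((continuous_pow (K + 1)).continuousOn.inv₀ fun ζ hζ => pow_ne_zero _ (hsph ζ hζ).1)
  have h2 : ContinuousOn (fun ζ : ℂ => s * (h ζ * (ζ ^ (K + 1))⁻¹ * (ζ - s)⁻¹))
      (Metric.sphere (0 : ℂ) (r / 2)) := by
    refine continuousOn_const.mul (h1.mul ?_)
    exact (continuous_id.sub continuous_const).continuousOn.inv₀ fun ζ hζ => (hsph ζ hζ).2
  rw [← circleIntegral.integral_const_mul, ← circleIntegral.integral_add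
    (h1.circleIntegrable hρ) (h2.circleIntegrable hρ)]
  refine circleIntegral.integral_congr hρ fun ζ hζ => ?_
  obtain ⟨h3, h4⟩ := hsph ζ hζ
  field_simp
  ring

private theorem ordE_pow {r : ℝ} (hr : 0 < r) {h : ℂ → ℂ}
    (hh : DifferentiableOn ℂ h (Metric.ball (0 : ℂ) r)) {s : ℂ} (hs : ‖s‖ < r / 4) (K : ℕ)
    (hK : ∀ n < K, (∮ ζ in C(0, r / 2), h ζ * (ζ ^ (n + 1))⁻¹) = 0) :
    h s = s ^ K * ((2 * Real.pi * Complex.I)⁻¹ *
      ∮ ζ in C(0, r / 2), h ζ * (ζ ^ K)⁻¹ * (ζ - s)⁻¹) := by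
  have hpi : (2 * Real.pi * Complex.I : ℂ) ≠ 0 := Complex.two_pi_I_ne_zero
  induction K with
  | zero =>
    have hsub : Metric.closedBall (0 : ℂ) (r / 2) ⊆ Metric.ball (0 : ℂ) r :=
      Metric.closedBall_subset_ball (by linarith)
    have h1 := (hh.mono hsub).circleIntegral_sub_inv_smul
      (w := s) (by rw [mem_ball_zero_iff]; linarith)
    have h2 : (∮ ζ in C(0, r / 2), h ζ * (ζ ^ 0)⁻¹ * (ζ - s)⁻¹) =
        ∮ ζ in C(0, r / 2), (ζ - s)⁻¹ • h ζ := by
      refine circleIntegral.integral_congr (by linarith) fun ζ _ => ?_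
      simp only [pow_zero, inv_one, mul_one, smul_eq_mul]
      ring
    rw [h2, h1, smul_eq_mul, pow_zero, one_mul, inv_mul_cancel_left₀ hpi]
  | succ K ih =>
    rw [ih fun n hn => hK n (by omega), ordE_step hr hh hs K, hK K (by omega)]
    ring

private theorem ordE_zero {r : ℝ} (hr : 0 < r) {h : ℂ → ℂ}
    (hh : DifferentiableOn ℂ h (Metric.ball (0 : ℂ) r))
    (hK : ∀ n, (∮ ζ in C(0, r / 2), h ζ * (ζ ^ (n + 1))⁻¹) = 0) :
    ∀ s ∈ Metric.ball (0 : ℂ) r, h s = 0 := by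
  have hsub : Metric.closedBall (0 : ℂ) (r / 2) ⊆ Metric.ball (0 : ℂ) r :=
    Metric.closedBall_subset_ball (by linarith)
  obtain ⟨ρ, hρ⟩ : ∃ ρ : NNReal, (ρ : ℝ) = r / 2 := ⟨⟨r / 2, by linarith⟩, rfl⟩
  have hρ0 : 0 < ρ := by
    rw [← NNReal.coe_pos, hρ]
    linarith
  have h1 : HasFPowerSeriesOnBall h (cauchyPowerSeries h 0 ρ) 0 ρ :=
    (hh.mono (by rw [hρ]; exact hsub)).hasFPowerSeriesOnBall hρ0
  have h2 : ∀ s ∈ Metric.ball (0 : ℂ) (r / 2), h s = 0 := by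
    intro s hs
    have h3 := h1.hasSum (y := s) (by
      rw [Metric.mem_eball, edist_zero_right, ← ofReal_norm, ← ENNReal.ofReal_coe_nnreal, hρ]
      rw [mem_ball_zero_iff] at hs
      exact (ENNReal.ofReal_lt_ofReal_iff (by linarith)).2 hs)
    have h4 : ∀ n, (cauchyPowerSeries h 0 ρ n) (fun _ => s) = 0 := by
      intro n
      rw [cauchyPowerSeries_apply, hρ]
      have h5 : (∮ z in C(0, r / 2), (s / (z - 0)) ^ n • (z - 0)⁻¹ • h z) =
          s ^ n * ∮ ζ in C(0, r / 2), h ζ * (ζ ^ (n + 1))⁻¹ := by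
        rw [← circleIntegral.integral_const_mul]
        refine circleIntegral.integral_congr (by linarith) fun ζ _ => ?_
        simp only [sub_zero, smul_eq_mul, div_pow, pow_succ, mul_inv]
        ring
      rw [h5, hK, mul_zero, smul_zero]
    simp only [h4, zero_add] at h3
    exact (hasSum_zero.unique h3).symm
  have h3 : AnalyticOnNhd ℂ h (Metric.ball (0 : ℂ) r) := hh.analyticOnNhd Metric.isOpen_ball
  have h4 := h3.eqOn_zero_of_preconnected_of_eventuallyEq_zero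
    (convex_ball (0 : ℂ) r).isPreconnected (Metric.mem_ball_self hr)
    (by
      filter_upwards [Metric.ball_mem_nhds (0 : ℂ) (show 0 < r / 2 by linarith)] with s hs
      exact h2 s hs)
  intro s hs
  exact h4 hs


/-- identity theorem on complex lines -/
private theorem ordE_ident {m : ℕ} {α0 : Fin m → ℂ} {ρ : ℝ} (hρ : 0 < ρ) {f : (Fin m → ℂ) → ℂ}
    (hf : DifferentiableOn ℂ f (Metric.ball α0 ρ)) (h0 : ∀ᶠ α in 𝓝 α0, f α = 0) :
    ∀ α ∈ Metric.ball α0 ρ, f α = 0 := by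
  intro α hα
  by_cases hne : α = α0
  · rw [hne]
    exact h0.self_of_nhds
  have hd : 0 < ‖α - α0‖ := norm_pos_iff.2 (sub_ne_zero.2 hne)
  have hα' : ‖α - α0‖ < ρ := by rwa [Metric.mem_ball, dist_eq_norm] at hα
  have hline : Continuous fun t : ℂ => α0 + t • (α - α0) :=
    continuous_const.add (continuous_id.smul continuous_const)
  have hmem : ∀ t ∈ Metric.ball (0 : ℂ) (ρ / ‖α - α0‖), α0 + t • (α - α0) ∈ Metric.ball α0 ρ := by
    intro t ht
    rw [mem_ball_zero_iff, lt_div_iff₀ hd] at ht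
    rw [Metric.mem_ball, dist_eq_norm, add_sub_cancel_left, norm_smul]
    exact ht
  have hdl : Differentiable ℂ fun t : ℂ => α0 + t • (α - α0) :=
    (differentiable_const _).add (differentiable_id.smul_const _)
  have hg : DifferentiableOn ℂ (fun t : ℂ => f (α0 + t • (α - α0)))
      (Metric.ball (0 : ℂ) (ρ / ‖α - α0‖)) :=
    DifferentiableOn.comp (g := f) (f := fun t : ℂ => α0 + t • (α - α0)) hf
      hdl.differentiableOn hmem
  have hga := hg.analyticOnNhd Metric.isOpen_ball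
  have h4 := hga.eqOn_zero_of_preconnected_of_eventuallyEq_zero
    (convex_ball (0 : ℂ) _).isPreconnected (Metric.mem_ball_self (by positivity))
    (by
      have h5 : Tendsto (fun t : ℂ => α0 + t • (α - α0)) (𝓝 0) (𝓝 α0) := by
        have := hline.tendsto 0
        simpa using this
      exact h5.eventually h0)
  have h5 := h4 (x := (1 : ℂ)) (by
    rw [mem_ball_zero_iff, norm_one, lt_div_iff₀ hd, one_mul]
    exact hα')
  simpa using h5

theorem ordT {m : ℕ} (α0 : Fin m → ℂ) (ρ : ℝ) (hρ : 0 < ρ) (H : (Fin m → ℂ) × ℂ → ℂ)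
    (hH : ∀ p, ‖p - (α0, 0)‖ < ρ → DifferentiableAt ℂ H p)
    (hH1 : ∀ p, ‖p - (α0, 0)‖ < ρ → p.2 ≠ 0 → ContDiffAt ℂ 1 H p)
    (hne : ¬ ∀ᶠ p : (Fin m → ℂ) × ℂ in 𝓝 (α0, 0), p.2 ≠ 0 → H p = 0) :
    ∃ (K : ℕ) (c : (Fin m → ℂ) → ℂ), (∀ α, ‖α - α0‖ < ρ → DifferentiableAt ℂ c α) ∧
      (¬ ∀ᶠ α in 𝓝 α0, c α = 0) ∧
      ∀ α, ‖α - α0‖ < ρ → c α ≠ 0 → ∃ g : (Fin m → ℂ) × ℂ → ℂ, ContinuousAt g (α, 0) ∧
        g (α, 0) ≠ 0 ∧ ∀ᶠ p : (Fin m → ℂ) × ℂ in 𝓝 (α, 0), H p = p.2 ^ K * g p := by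
  classical
  have hpi : (2 * Real.pi * Complex.I : ℂ) ≠ 0 := Complex.two_pi_I_ne_zero
  have hprod : ∀ (α : Fin m → ℂ) (ζ : ℂ), α ∈ Metric.ball α0 ρ → ζ ∈ Metric.ball (0 : ℂ) ρ →
      ‖((α, ζ) : (Fin m → ℂ) × ℂ) - (α0, 0)‖ < ρ := by
    intro α ζ h1 h2
    rw [Metric.mem_ball, dist_eq_norm] at h1
    rw [mem_ball_zero_iff] at h2
    rw [Prod.mk_sub_mk, Prod.norm_mk, sub_zero]
    exact max_lt h1 h2
  have hline : ∀ α ∈ Metric.ball α0 ρ,
      DifferentiableOn ℂ (fun ζ : ℂ => H (α, ζ)) (Metric.ball (0 : ℂ) ρ) := by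
    intro α hα ζ hζ
    have h1 : DifferentiableAt ℂ H (α, ζ) := hH _ (hprod α ζ hα hζ)
    exact (DifferentiableAt.comp (g := H) (f := fun ζ : ℂ => (α, ζ)) ζ h1
      ((differentiableAt_const _).prodMk differentiableAt_id)).differentiableWithinAt
  set A : ℕ → (Fin m → ℂ) → ℂ := fun n α =>
    ∮ ζ in C(0, ρ / 2), H (α, ζ) * (ζ ^ (n + 1))⁻¹ with hA
  have hex : ∃ n, ¬ ∀ α ∈ Metric.ball α0 ρ, A n α = 0 := by
    by_contra hcon
    push Not at hcon
    apply hne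
    have hnh : Metric.ball α0 ρ ×ˢ Metric.ball (0 : ℂ) ρ ∈ 𝓝 (α0, (0 : ℂ)) :=
      (Metric.isOpen_ball.prod Metric.isOpen_ball).mem_nhds
        ⟨Metric.mem_ball_self hρ, Metric.mem_ball_self hρ⟩
    filter_upwards [hnh] with p hp _
    exact ordE_zero hρ (hline p.1 hp.1) (fun n => hcon n p.1 hp.1) p.2 hp.2
  set K := Nat.find hex with hKdef
  have hK : ¬ ∀ α ∈ Metric.ball α0 ρ, A K α = 0 := Nat.find_spec hex
  have hKmin : ∀ n < K, ∀ α ∈ Metric.ball α0 ρ, A n α = 0 := by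
    intro n hn
    exact not_not.1 (Nat.find_min hex hn)
  have hsph : ∀ ζ ∈ Metric.sphere (0 : ℂ) (ρ / 2), ζ ≠ 0 ∧ ζ ∈ Metric.ball (0 : ℂ) ρ := by
    intro ζ hζ
    rw [mem_sphere_zero_iff_norm] at hζ
    refine ⟨?_, by rw [mem_ball_zero_iff]; linarith⟩
    rintro rfl
    rw [norm_zero] at hζ
    linarith
  have hAdiff : DifferentiableOn ℂ (A K) (Metric.ball α0 ρ) := by
    refine circ_diff Metric.isOpen_ball (by linarith) (fun α ζ => H (α, ζ) * (ζ ^ (K + 1))⁻¹) ?_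
    intro α hα ζ hζ
    obtain ⟨hζ0, hζρ⟩ := hsph ζ hζ
    have h1 : ContDiffAt ℂ 1 (fun p : (Fin m → ℂ) × ℂ => H (p.1, p.2)) (α, ζ) :=
      hH1 _ (hprod α ζ hα hζρ) hζ0
    have h2 : ContDiffAt ℂ 1 (fun p : (Fin m → ℂ) × ℂ => (p.2 ^ (K + 1))⁻¹) (α, ζ) :=
      (contDiffAt_snd.pow (K + 1)).inv (pow_ne_zero _ hζ0)
    exact h1.mul h2
  refine ⟨K, fun α => (2 * Real.pi * Complex.I)⁻¹ * A K α, ?_, ?_, ?_⟩
  · intro α hα
    have hα' : α ∈ Metric.ball α0 ρ := by rwa [Metric.mem_ball, dist_eq_norm]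
    exact (hAdiff.differentiableAt (Metric.isOpen_ball.mem_nhds hα')).const_mul _
  · intro h
    apply hK
    refine ordE_ident hρ hAdiff ?_
    filter_upwards [h] with α hα
    exact (mul_eq_zero.1 hα).resolve_left (inv_ne_zero hpi)
  · intro α hα0 hcα
    have hα : α ∈ Metric.ball α0 ρ := by rwa [Metric.mem_ball, dist_eq_norm]
    set g : (Fin m → ℂ) × ℂ → ℂ := fun p => (2 * Real.pi * Complex.I)⁻¹ *
      ∮ ζ in C(0, ρ / 2), H (p.1, ζ) * (ζ ^ K)⁻¹ * (ζ - p.2)⁻¹ with hg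
    have hU : IsOpen (Metric.ball α0 ρ ×ˢ Metric.ball (0 : ℂ) (ρ / 4) : Set ((Fin m → ℂ) × ℂ)) :=
      Metric.isOpen_ball.prod Metric.isOpen_ball
    have hgd := circ_diff hU (R := ρ / 2) (by linarith)
      (fun (p : (Fin m → ℂ) × ℂ) ζ => H (p.1, ζ) * (ζ ^ K)⁻¹ * (ζ - p.2)⁻¹) (by
        intro p hp ζ hζ
        obtain ⟨hζ0, hζρ⟩ := hsph ζ hζ
        have hζn : ‖ζ‖ = ρ / 2 := by simpa using hζ
        have hζs : ζ - p.2 ≠ 0 := by
          intro h'
          have h2 : ζ = p.2 := sub_eq_zero.1 h'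
          have h3 : ‖p.2‖ < ρ / 4 := by simpa using hp.2
          rw [← h2, hζn] at h3
          linarith
        have e1 : ContDiffAt ℂ 1 (fun q : ((Fin m → ℂ) × ℂ) × ℂ => H (q.1.1, q.2)) (p, ζ) :=
          ContDiffAt.comp (g := H) (f := fun q : ((Fin m → ℂ) × ℂ) × ℂ => (q.1.1, q.2)) (p, ζ)
            (hH1 (p.1, ζ) (hprod p.1 ζ hp.1 hζρ) hζ0)
            ((contDiffAt_fst.comp (p, ζ) contDiffAt_fst).prodMk contDiffAt_snd)
        have e2 : ContDiffAt ℂ 1 (fun q : ((Fin m → ℂ) × ℂ) × ℂ => (q.2 ^ K)⁻¹) (p, ζ) :=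
          (contDiffAt_snd.pow K).inv (pow_ne_zero _ hζ0)
        have e3 : ContDiffAt ℂ 1 (fun q : ((Fin m → ℂ) × ℂ) × ℂ => (q.2 - q.1.2)⁻¹) (p, ζ) :=
          (contDiffAt_snd.sub (contDiffAt_snd.comp (p, ζ) contDiffAt_fst)).inv hζs
        exact (e1.mul e2).mul e3)
    have hnhds : Metric.ball α0 ρ ×ˢ Metric.ball (0 : ℂ) (ρ / 4) ∈ 𝓝 (α, (0 : ℂ)) :=
      hU.mem_nhds ⟨hα, Metric.mem_ball_self (by linarith)⟩
    have hs0 : ‖(0 : ℂ)‖ < ρ / 4 := by rw [norm_zero]; linarith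
    refine ⟨g, ((hgd.const_mul _).continuousOn).continuousAt hnhds, ?_, ?_⟩
    · have h1 := ordE_step hρ (hline α hα) hs0 K
      rw [zero_mul, add_zero] at h1
      show (2 * Real.pi * Complex.I)⁻¹ * (∮ ζ in C(0, ρ / 2), H (α, ζ) * (ζ ^ K)⁻¹ * (ζ - 0)⁻¹) ≠ 0
      rw [h1]
      exact hcα
    · filter_upwards [hnhds] with p hp
      obtain ⟨h1, h2⟩ := hp
      rw [mem_ball_zero_iff] at h2
      exact ordE_pow hρ (hline p.1 h1) h2 K fun n hn => hKmin n hn p.1 h1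

end Pool.Agent.EXT

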