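import Pool.Agent.EXT.AxA

/-!
# EXT / TrT: `exp` of the branch is transcendental

PROOF.  Otherwise fix a small `s ≠ 0`; on an open ball `W` around `α0 s^(-e)`: `u (x') = V (s^e x', s)` is complex differentiable,
`F (u (x'), x') = 0` and `N (x', exp (u (x'))) = 0`. Choose `a ∈ W` with `F (·, a) ≠ 0`, `N (a, ·) ≠ 0` (as polynomials in one variable; `F ∤` .., coefficients in `X'` not all zero).
For `b ∈ W` apply `ax_alg` to `g (t) = u (a + t (b - a))` near `t = 0` (the polynomials `F (Y, a + t (b - a))`, `N (a + t (b - a), Y)` in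
`ℂ[t][Y]` are not zero): `g` is constant. So `u = κ` on `W`, `F (κ, x') = 0` on `W`, `X 0 - C κ ∣ F`, `F = C c * (X 0 - C κ)`.
-/

set_option autoImplicit false

namespace Pool.Agent.EXT

open MvPolynomial Topology Filter

/-- a nonzero polynomial does not vanish on a ball -/
private lemma tr_ball {m : ℕ} (p : MvPolynomial (Fin m) ℂ) (x0 : Fin m → ℂ) (r : ℝ) (hr : 0 < r)
    (h : ∀ x ∈ Metric.ball x0 r, eval x p = 0) : p = 0 := by
  refine MvPolynomial.funext_set (fun i => Metric.ball (x0 i) r) (fun i => ?_) (fun x hx => ?_)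
  · exact infinite_of_mem_nhds (x0 i) (Metric.ball_mem_nhds _ hr)
  · rw [map_zero]
    apply h
    rw [Metric.mem_ball, dist_pi_lt_iff hr]
    intro i
    exact hx i (Set.mem_univ i)

/-- restriction to a line -/
private noncomputable def trLine {m : ℕ} (a b : Fin m → ℂ) :
    MvPolynomial (Fin m) ℂ →+* Polynomial ℂ :=
  eval₂Hom Polynomial.C fun j => Polynomial.C (a j) + Polynomial.X * Polynomial.C (b j - a j)

private lemma trLine_eval {m : ℕ} (a b : Fin m → ℂ) (t : ℂ) :
    (Polynomial.evalRingHom t).comp (trLine a b) = eval fun j => a j + t * (b j - a j) := by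
  ext i
  · simp [trLine]
  · simp [trLine]

private noncomputable def trPol {m : ℕ} (a b : Fin m → ℂ) (F : MvPolynomial (Fin (m + 1)) ℂ) :
    Polynomial (Polynomial ℂ) := (finSuccEquiv ℂ m F).map (trLine a b)

private lemma trPol_map {m : ℕ} (a b : Fin m → ℂ) (F : MvPolynomial (Fin (m + 1)) ℂ) (t : ℂ) :
    (trPol a b F).map (Polynomial.evalRingHom t) =
      (finSuccEquiv ℂ m F).map (eval fun j => a j + t * (b j - a j)) := by
  rw [trPol, Polynomial.map_map, trLine_eval]

private lemma trPol_eval {m : ℕ} (a b : Fin m → ℂ) (F : MvPolynomial (Fin (m + 1)) ℂ) (t y : ℂ) :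
    ((trPol a b F).map (Polynomial.evalRingHom t)).eval y =
      eval (Fin.cons y (fun j => a j + t * (b j - a j)) : Fin (m + 1) → ℂ) F := by
  rw [trPol_map, eval_eq_eval_mv_eval']

private lemma tr_core {m : ℕ} (F N : MvPolynomial (Fin (m + 1)) ℂ) (hF : Irreducible F)
    (hN : N ≠ 0) (hnl : ∀ c κ : ℂ, F ≠ C c * (X 0 - C κ)) (x0 : Fin m → ℂ) (r : ℝ) (hr : 0 < r)
    (u : (Fin m → ℂ) → ℂ) (hu : DifferentiableOn ℂ u (Metric.ball x0 r))
    (huF : ∀ x ∈ Metric.ball x0 r, eval (Fin.cons (u x) x : Fin (m + 1) → ℂ) F = 0)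
    (huN : ∀ x ∈ Metric.ball x0 r,
      eval (Fin.cons (Complex.exp (u x)) x : Fin (m + 1) → ℂ) N = 0) : False := by
  classical
  -- a good point
  have hF' : finSuccEquiv ℂ m F ≠ 0 := by
    rw [Ne, map_eq_zero_iff _ (finSuccEquiv ℂ m).injective]
    exact hF.ne_zero
  have hN' : finSuccEquiv ℂ m N ≠ 0 := by
    rw [Ne, map_eq_zero_iff _ (finSuccEquiv ℂ m).injective]
    exact hN
  obtain ⟨i, hi⟩ : ∃ i, (finSuccEquiv ℂ m F).coeff i ≠ 0 := by
    by_contra hcon
    push Not at hcon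
    exact hF' (Polynomial.ext fun i => by rw [hcon i, Polynomial.coeff_zero])
  obtain ⟨j, hj⟩ : ∃ j, (finSuccEquiv ℂ m N).coeff j ≠ 0 := by
    by_contra hcon
    push Not at hcon
    exact hN' (Polynomial.ext fun i => by rw [hcon i, Polynomial.coeff_zero])
  obtain ⟨a, haW, ha⟩ : ∃ a ∈ Metric.ball x0 r,
      eval a ((finSuccEquiv ℂ m F).coeff i * (finSuccEquiv ℂ m N).coeff j) ≠ 0 := by
    by_contra hcon
    push Not at hcon
    exact mul_ne_zero hi hj (tr_ball _ x0 r hr hcon)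
  rw [map_mul] at ha
  have hpne : ∀ (b : Fin m → ℂ) (G : MvPolynomial (Fin (m + 1)) ℂ) (l : ℕ),
      eval a ((finSuccEquiv ℂ m G).coeff l) ≠ 0 → trPol a b G ≠ 0 := by
    intro b G l hl h
    apply hl
    have h1 := trPol_map a b G 0
    rw [h, Polynomial.map_zero] at h1
    have h2 := congrArg (fun p => Polynomial.coeff p l) h1
    simp only [Polynomial.coeff_zero, Polynomial.coeff_map, zero_mul, add_zero] at h2
    exact h2.symm
  -- `u` is constant
  have hconst : ∀ b ∈ Metric.ball x0 r, u b = u a := by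
    intro b hb
    set γ : ℂ → (Fin m → ℂ) := fun t j => a j + t * (b j - a j) with hγ
    have hγd : Differentiable ℂ γ := by
      rw [differentiable_pi]
      intro j
      fun_prop
    set S : Set ℂ := γ ⁻¹' Metric.ball x0 r with hS
    have hSo : IsOpen S := Metric.isOpen_ball.preimage hγd.continuous
    have hγ0 : γ 0 = a := by
      funext j
      simp [hγ]
    have hγ1 : γ 1 = b := by
      funext j
      simp [hγ]
    have hS0 : (0 : ℂ) ∈ S := by
      change γ 0 ∈ Metric.ball x0 r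
      rw [hγ0]
      exact haW
    have hS1 : (1 : ℂ) ∈ S := by
      change γ 1 ∈ Metric.ball x0 r
      rw [hγ1]
      exact hb
    have hSc : Convex ℝ S := by
      intro s hs t ht μ ν hμ hν hμν
      have h1 := (convex_ball x0 r) hs ht hμ hν hμν
      change γ (μ • s + ν • t) ∈ Metric.ball x0 r
      have h2 : γ (μ • s + ν • t) = μ • γ s + ν • γ t := by
        funext j
        simp only [hγ, Pi.add_apply, Pi.smul_apply, Complex.real_smul]
        have h3 : (μ : ℂ) + ν = 1 := by exact_mod_cast hμν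
        linear_combination (-(a j)) * h3
      rw [h2]
      exact h1
    have hga : AnalyticOnNhd ℂ (fun t => u (γ t)) S := by
      have h1 : DifferentiableOn ℂ (fun t => u (γ t)) S :=
        hu.comp hγd.differentiableOn (fun t ht => ht)
      exact h1.analyticOnNhd hSo
    have hSn : ∀ᶠ t in 𝓝 (0 : ℂ), t ∈ S := hSo.mem_nhds hS0
    have h1 := ax_alg (fun t => u (γ t)) 0 (hga 0 hS0) (trPol a b F) (trPol a b N)
      (hpne b F i (left_ne_zero_of_mul ha)) (hpne b N j (right_ne_zero_of_mul ha))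
      (by
        filter_upwards [hSn] with t ht
        rw [trPol_eval]
        exact huF (γ t) ht)
      (by
        filter_upwards [hSn] with t ht
        rw [trPol_eval]
        exact huN (γ t) ht)
    have h2 := hga.eqOn_of_preconnected_of_eventuallyEq (g := fun _ => u (γ 0))
      (fun _ _ => analyticAt_const) hSc.isPreconnected hS0 h1
    have h3 := h2 hS1
    simp only [hγ1, hγ0] at h3
    exact h3
  -- `X 0 - C κ` divides `F`
  set κ : ℂ := u a with hκ
  have h1 : (finSuccEquiv ℂ m F).eval (C κ) = 0 := by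
    refine tr_ball _ x0 r hr fun x hx => ?_
    have h2 := huF x hx
    rw [hconst x hx, eval_eq_eval_mv_eval', Polynomial.eval_map] at h2
    have h3 := Polynomial.eval₂_at_apply (eval x) (p := finSuccEquiv ℂ m F) (C κ)
    rw [eval_C] at h3
    rw [← h3]
    exact h2
  obtain ⟨q, hq⟩ := Polynomial.dvd_iff_isRoot.2 h1
  have h2 : F = (X 0 - C κ) * (finSuccEquiv ℂ m).symm q := by
    apply (finSuccEquiv ℂ m).injective
    rw [map_mul, AlgEquiv.apply_symm_apply, map_sub, finSuccEquiv_X_zero, hq]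
    congr 2
    exact ((finSuccEquiv ℂ m).commutes κ).symm
  rcases hF.isUnit_or_isUnit h2 with h3 | h3
  · have h4 := h3.map (eval (fun _ => κ) : MvPolynomial (Fin (m + 1)) ℂ →+* ℂ)
    rw [map_sub, eval_X, eval_C, sub_self] at h4
    exact not_isUnit_zero h4
  · obtain ⟨c, hc, hc'⟩ := MvPolynomial.isUnit_iff_eq_C_of_isReduced.1 h3
    apply hnl c κ
    rw [h2, hc', mul_comm]

theorem trT {m : ℕ} (F : MvPolynomial (Fin (m + 1)) ℂ) (hF : Irreducible F)
    (hnl : ∀ c κ : ℂ, F ≠ C c * (X 0 - C κ)) (e : ℕ) (α0 : Fin m → ℂ) (ρ : ℝ) (hρ : 0 < ρ)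
    (V : (Fin m → ℂ) × ℂ → ℂ)
    (hV : ∀ p, ‖p - (α0, 0)‖ < ρ → DifferentiableAt ℂ V p)
    (hVF : ∀ p : (Fin m → ℂ) × ℂ, ‖p - (α0, 0)‖ < ρ → p.2 ≠ 0 →
      eval (Fin.cons (V p) (fun j => p.1 j * (p.2⁻¹) ^ e) : Fin (m + 1) → ℂ) F = 0)
    (N : MvPolynomial (Fin m ⊕ Unit) ℂ) (hN : N ≠ 0) :
    ¬ ∀ᶠ p : (Fin m → ℂ) × ℂ in 𝓝 (α0, 0), p.2 ≠ 0 →
      eval (Sum.elim (fun j => p.1 j * (p.2⁻¹) ^ e) fun _ => Complex.exp (V p)) N = 0 := by
  intro hev
  obtain ⟨δ', hδ', hball⟩ := Metric.eventually_nhds_iff.1 hev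
  obtain ⟨δ, hδ, hδρ, hδδ⟩ : ∃ δ : ℝ, 0 < δ ∧ δ ≤ ρ ∧ δ ≤ δ' :=
    ⟨min ρ δ', lt_min hρ hδ', min_le_left _ _, min_le_right _ _⟩
  obtain ⟨s, hs⟩ : ∃ s : ℝ, s = δ / 2 := ⟨_, rfl⟩
  have hs0 : 0 < s := by rw [hs]; positivity
  have hsδ : s < δ := by rw [hs]; linarith
  have hsC : (s : ℂ) ≠ 0 := by exact_mod_cast hs0.ne'
  have hse : 0 < s ^ e := by positivity
  -- the point
  set q : (Fin m → ℂ) → (Fin m → ℂ) × ℂ := fun x => (fun j => (s : ℂ) ^ e * x j, (s : ℂ)) with hq
  have hqx : ∀ x, (fun j => (q x).1 j * ((q x).2⁻¹) ^ e) = x := by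
    intro x
    funext j
    change (s : ℂ) ^ e * x j * ((s : ℂ)⁻¹) ^ e = x j
    rw [inv_pow, mul_comm ((s : ℂ) ^ e), mul_assoc, mul_inv_cancel₀ (pow_ne_zero _ hsC), mul_one]
  have hqn : ∀ x ∈ Metric.ball (fun j => α0 j * ((s : ℂ)⁻¹) ^ e) (δ / 2 / s ^ e),
      ‖q x - (α0, 0)‖ < δ := by
    intro x hx
    rw [Prod.norm_def]
    apply max_lt
    · rw [Prod.fst_sub, pi_norm_lt_iff hδ]
      intro j
      have h1 : ‖x j - α0 j * ((s : ℂ)⁻¹) ^ e‖ < δ / 2 / s ^ e := by
        refine lt_of_le_of_lt ?_ (mem_ball_iff_norm.1 hx)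
        exact norm_le_pi_norm (x - fun j => α0 j * ((s : ℂ)⁻¹) ^ e) j
      have h2 : (s : ℂ) ^ e * x j - α0 j =
          (s : ℂ) ^ e * (x j - α0 j * ((s : ℂ)⁻¹) ^ e) := by
        rw [mul_sub, inv_pow, mul_comm (α0 j), ← mul_assoc, mul_inv_cancel₀ (pow_ne_zero _ hsC),
          one_mul]
      change ‖(s : ℂ) ^ e * x j - α0 j‖ < δ
      rw [h2, norm_mul, norm_pow, Complex.norm_real, Real.norm_eq_abs, abs_of_pos hs0]
      rw [lt_div_iff₀ hse] at h1
      linarith
    · rw [Prod.snd_sub]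
      change ‖(s : ℂ) - 0‖ < δ
      rw [sub_zero, Complex.norm_real, Real.norm_eq_abs, abs_of_pos hs0]
      exact hsδ
  have hN' : rename (Sum.elim Fin.succ (fun _ => 0) : Fin m ⊕ Unit → Fin (m + 1)) N ≠ 0 := by
    have hinj : Function.Injective (Sum.elim Fin.succ (fun _ => 0) : Fin m ⊕ Unit → Fin (m + 1)) := by
      rintro (i | i) (j | j) h
      · exact congrArg Sum.inl (Fin.succ_injective _ h)
      · exact absurd h (Fin.succ_ne_zero i)
      · exact absurd h.symm (Fin.succ_ne_zero j)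
      · rfl
    intro h
    apply hN
    apply rename_injective _ hinj
    rw [h, map_zero]
  refine tr_core F _ hF hN' hnl (fun j => α0 j * ((s : ℂ)⁻¹) ^ e) (δ / 2 / s ^ e) (by positivity)
    (fun x => V (q x)) ?_ ?_ ?_
  · intro x hx
    have h1 : DifferentiableAt ℂ q x := by
      apply DifferentiableAt.prodMk
      · rw [differentiableAt_pi]
        intro j
        exact (differentiableAt_const _).mul (differentiableAt_apply j x)
      · exact differentiableAt_const _
    exact ((hV (q x) (lt_of_lt_of_le (hqn x hx) hδρ)).comp x h1).differentiableWithinAt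
  · intro x hx
    have h1 := hVF (q x) (lt_of_lt_of_le (hqn x hx) hδρ) hsC
    rw [hqx] at h1
    exact h1
  · intro x hx
    have h1 := hball (y := q x) (by
      rw [dist_eq_norm]
      exact lt_of_lt_of_le (hqn x hx) hδδ) hsC
    rw [hqx] at h1
    rw [eval_rename]
    have h2 : (Fin.cons (Complex.exp (V (q x))) x : Fin (m + 1) → ℂ) ∘
        (Sum.elim Fin.succ (fun _ => 0) : Fin m ⊕ Unit → Fin (m + 1)) =
        Sum.elim x fun _ => Complex.exp (V (q x)) := by
      funext i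
      rcases i with i | i
      · rfl
      · rfl
    rw [h2]
    exact h1

end Pool.Agent.EXT
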