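import Pool.Agent.EXT.GoodT
import Pool.Agent.EXT.TrT
import Pool.Agent.EXT.OrdT
import Pool.Agent.EXT.BaireT

/-!
# EXT / GraphT: the generic point and the branch over it

PROOF.  `α0 = I β0`. For `N ≠ 0` over `k`, `D = N.totalDegree`: `H_N (α', s) = s^(e D) N (α' s^(-e), exp (V (α', s)))` extended to `s = 0`:
`∑ coeff * (∏ α'_j^(e_j)) s^(e (D - ∑ e_j)) exp (V)^(l)`, complex differentiable on the ball; `ordT` (`hne` by `trT` for the image of `N` over `ℂ`): `K_N, c_N`. `baireT`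
for the countable family `c_N` (and radius `ρ`): `β`. `goodT` with `K = K_N - e D`. The other clauses: for `‖x - I T β‖ ≤ √T` the point `(x / T, s_T)` is in the ball
for large `T`, `s_T ≠ 0`, `s_T^(-e) = T`; `‖r T x‖ ≤ ‖V (I β, 0)‖ + 1` (continuity).
-/

set_option autoImplicit false

namespace Pool.Agent.EXT

open MvPolynomial Topology Filter

/-- `s ^ (e D) N (α s^(-e), exp V)`, extended to `s = 0` -/
private noncomputable def gH {k : Subfield ℂ} {m : ℕ} (e : ℕ) (V : (Fin m → ℂ) × ℂ → ℂ)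
    (N : MvPolynomial (Fin m ⊕ Unit) k) (p : (Fin m → ℂ) × ℂ) : ℂ :=
  ∑ μ ∈ N.support, (algebraMap k ℂ (coeff μ N)) * ((∏ j, p.1 j ^ μ (Sum.inl j)) *
    p.2 ^ (e * (N.totalDegree - ∑ j, μ (Sum.inl j))) * Complex.exp (V p) ^ μ (Sum.inr ()))

private theorem gH_diff {k : Subfield ℂ} {m : ℕ} (e : ℕ) (V : (Fin m → ℂ) × ℂ → ℂ)
    (N : MvPolynomial (Fin m ⊕ Unit) k) (p : (Fin m → ℂ) × ℂ) (hV : DifferentiableAt ℂ V p) :
    DifferentiableAt ℂ (gH e V N) p := by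
  unfold gH
  refine DifferentiableAt.fun_sum fun μ _ => ?_
  have h1 : ∀ j, DifferentiableAt ℂ (fun q : (Fin m → ℂ) × ℂ => q.1 j ^ μ (Sum.inl j)) p := by
    intro j
    have h2 : DifferentiableAt ℂ (fun q : (Fin m → ℂ) × ℂ => q.1 j) p := by fun_prop
    exact h2.pow _
  have h3' : ∀ S : Finset (Fin m), DifferentiableAt ℂ
      (fun q : (Fin m → ℂ) × ℂ => ∏ j ∈ S, q.1 j ^ μ (Sum.inl j)) p := by
    intro S
    induction S using Finset.induction_on with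
    | empty =>
      simp only [Finset.prod_empty]
      exact differentiableAt_const _
    | insert a S ha ih =>
      simp only [Finset.prod_insert ha]
      exact (h1 a).mul ih
  have h3 := h3' Finset.univ
  have h4 : DifferentiableAt ℂ (fun q : (Fin m → ℂ) × ℂ =>
      q.2 ^ (e * (N.totalDegree - ∑ j, μ (Sum.inl j)))) p := differentiableAt_snd.pow _
  have h5 : DifferentiableAt ℂ (fun q : (Fin m → ℂ) × ℂ =>
      Complex.exp (V q) ^ μ (Sum.inr ())) p := hV.cexp.pow _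
  exact (differentiableAt_const _).mul ((h3.mul h4).mul h5)

private theorem gH_cd {k : Subfield ℂ} {m : ℕ} (e : ℕ) (V : (Fin m → ℂ) × ℂ → ℂ)
    (N : MvPolynomial (Fin m ⊕ Unit) k) (p : (Fin m → ℂ) × ℂ) (hV : ContDiffAt ℂ 1 V p) :
    ContDiffAt ℂ 1 (gH e V N) p := by
  unfold gH
  refine ContDiffAt.sum fun μ _ => ?_
  have h1 : ∀ j, ContDiffAt ℂ 1 (fun q : (Fin m → ℂ) × ℂ => q.1 j ^ μ (Sum.inl j)) p := by
    intro j
    have h2 : ContDiffAt ℂ 1 (fun q : (Fin m → ℂ) × ℂ => q.1 j) p := by fun_prop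
    exact h2.pow _
  have h3' : ∀ S : Finset (Fin m), ContDiffAt ℂ 1
      (fun q : (Fin m → ℂ) × ℂ => ∏ j ∈ S, q.1 j ^ μ (Sum.inl j)) p := by
    intro S
    induction S using Finset.induction_on with
    | empty =>
      simp only [Finset.prod_empty]
      exact contDiffAt_const
    | insert a S ha ih =>
      simp only [Finset.prod_insert ha]
      exact (h1 a).mul ih
  have h3 := h3' Finset.univ
  have h4 : ContDiffAt ℂ 1 (fun q : (Fin m → ℂ) × ℂ =>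
      q.2 ^ (e * (N.totalDegree - ∑ j, μ (Sum.inl j)))) p := contDiffAt_snd.pow _
  have h5 : ContDiffAt ℂ 1 (fun q : (Fin m → ℂ) × ℂ =>
      Complex.exp (V q) ^ μ (Sum.inr ())) p := hV.cexp.pow _
  exact contDiffAt_const.mul ((h3.mul h4).mul h5)

private theorem gH_eq {k : Subfield ℂ} {m : ℕ} (e : ℕ) (V : (Fin m → ℂ) × ℂ → ℂ)
    (N : MvPolynomial (Fin m ⊕ Unit) k) (p : (Fin m → ℂ) × ℂ) (hp : p.2 ≠ 0) :
    gH e V N p = p.2 ^ (e * N.totalDegree) *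
      aeval (Sum.elim (fun j => p.1 j * (p.2⁻¹) ^ e) fun _ => Complex.exp (V p)) N := by
  unfold gH
  rw [aeval_def, eval₂_eq', Finset.mul_sum]
  refine Finset.sum_congr rfl fun μ hμ => ?_
  rw [Fintype.prod_sum_type]
  simp only [Sum.elim_inl, Sum.elim_inr, Finset.univ_unique, Finset.prod_singleton,
    PUnit.default_eq_unit]
  have h1 : ∑ j, μ (Sum.inl j) ≤ N.totalDegree := by
    have h2 := le_totalDegree hμ
    have h3 : (μ.sum fun _ n => n) = ∑ i, μ i := Finsupp.sum_fintype _ _ fun _ => rfl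
    rw [h3, Fintype.sum_sum_type] at h2
    omega
  have h2 : ∏ j, (p.1 j * (p.2⁻¹) ^ e) ^ μ (Sum.inl j) =
      (∏ j, p.1 j ^ μ (Sum.inl j)) * (p.2⁻¹) ^ (e * ∑ j, μ (Sum.inl j)) := by
    simp_rw [mul_pow, ← pow_mul]
    rw [Finset.prod_mul_distrib, Finset.prod_pow_eq_pow_sum, Finset.mul_sum]
  have h3 : p.2 ^ (e * (N.totalDegree - ∑ j, μ (Sum.inl j))) =
      p.2 ^ (e * N.totalDegree) * (p.2⁻¹) ^ (e * ∑ j, μ (Sum.inl j)) := by
    rw [inv_pow, ← div_eq_mul_inv, eq_div_iff (pow_ne_zero _ hp), ← pow_add, ← mul_add,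
      Nat.sub_add_cancel h1]
  rw [h2, h3]
  ring

theorem exists_graph (k : Subfield ℂ) (hk : (k : Set ℂ).Countable) {m : ℕ}
    (F : MvPolynomial (Fin (m + 1)) ℂ) (hF : Irreducible F)
    (hnl : ∀ c κ : ℂ, F ≠ C c * (X 0 - C κ)) (e : ℕ) (he : 1 ≤ e) (β0 : Fin m → ℝ) (ρ : ℝ)
    (hρ : 0 < ρ) (V : (Fin m → ℂ) × ℂ → ℂ)
    (hV : ∀ p, ‖p - (fun j => Complex.I * (β0 j : ℂ), 0)‖ < ρ → DifferentiableAt ℂ V p)
    (hV1 : ∀ p, ‖p - (fun j => Complex.I * (β0 j : ℂ), 0)‖ < ρ → p.2 ≠ 0 → ContDiffAt ℂ 1 V p)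
    (hVF : ∀ p : (Fin m → ℂ) × ℂ, ‖p - (fun j => Complex.I * (β0 j : ℂ), 0)‖ < ρ → p.2 ≠ 0 →
      eval (Fin.cons (V p) (fun j => p.1 j * (p.2⁻¹) ^ e) : Fin (m + 1) → ℂ) F = 0) :
    ∃ (β : Fin m → ℝ) (r : ℕ → (Fin m → ℂ) → ℂ) (C0 : ℝ),
      AlgebraicIndependent k (fun j => Complex.I * (β j : ℂ)) ∧
      (∀ᶠ T : ℕ in atTop, ∀ x : Fin m → ℂ,
        (∀ j, ‖x j - Complex.I * (T : ℂ) * (β j : ℂ)‖ ≤ √(T : ℝ)) →
        ContDiffAt ℂ 1 (r T) x ∧ ‖r T x‖ ≤ C0 ∧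
        eval (Fin.cons (r T x) x : Fin (m + 1) → ℂ) F = 0) ∧
      GoodG k β r := by
  classical
  set α0 : Fin m → ℂ := fun j => Complex.I * (β0 j : ℂ) with hα0
  have hcN : Countable (MvPolynomial (Fin m ⊕ Unit) k) := by
    have h1 : Countable k := hk.to_subtype
    exact Cardinal.mk_le_aleph0_iff.1 ((MvPolynomial.cardinalMk_le_max).trans
      (max_le (max_le (Cardinal.mk_le_aleph0_iff.2 h1)
        (Cardinal.mk_le_aleph0_iff.2 inferInstance)) le_rfl))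
  -- the orders
  have hord : ∀ N : {N : MvPolynomial (Fin m ⊕ Unit) k // N ≠ 0},
      ∃ (K : ℕ) (c : (Fin m → ℂ) → ℂ), (∀ α, ‖α - α0‖ < ρ → DifferentiableAt ℂ c α) ∧
      (¬ ∀ᶠ α in 𝓝 α0, c α = 0) ∧
      ∀ α, ‖α - α0‖ < ρ → c α ≠ 0 → ∃ g : (Fin m → ℂ) × ℂ → ℂ, ContinuousAt g (α, 0) ∧
        g (α, 0) ≠ 0 ∧ ∀ᶠ p : (Fin m → ℂ) × ℂ in 𝓝 (α, 0), gH e V N.1 p = p.2 ^ K * g p := by
    intro N
    refine ordT α0 ρ hρ (gH e V N.1) (fun p hp => gH_diff e V N.1 p (hV p hp))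
      (fun p hp hp0 => gH_cd e V N.1 p (hV1 p hp hp0)) ?_
    intro hcon
    have hN : map (algebraMap k ℂ) N.1 ≠ 0 := by
      intro h1
      exact N.2 (map_injective _ (algebraMap k ℂ).injective (by rw [h1, map_zero]))
    refine trT F hF hnl e α0 ρ hρ V hV hVF (map (algebraMap k ℂ) N.1) hN ?_
    filter_upwards [hcon] with p hp hp2
    have h2 := hp hp2
    rw [gH_eq e V N.1 p hp2] at h2
    rw [eval_map, ← aeval_def]
    exact (mul_eq_zero.1 h2).resolve_left (pow_ne_zero _ hp2)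
  choose KN cN hc1 hc2 hc3 using hord
  obtain ⟨β, hβρ, hβ, hβc⟩ := baireT k hk β0 ρ hρ cN hc1 hc2
  set α : Fin m → ℂ := fun j => Complex.I * (β j : ℂ) with hα
  have hVα : ContinuousAt V (α, 0) := by
    refine (hV (α, 0) ?_).continuousAt
    rw [Prod.mk_sub_mk, sub_self, Prod.norm_mk, norm_zero, max_eq_left (norm_nonneg _)]
    exact hβρ
  refine ⟨β, fun (T : ℕ) x => V (fun j => x j * (T : ℂ)⁻¹, (((T : ℝ) ^ (-(1 / (e : ℝ))) : ℝ) : ℂ)),
    ‖V (α, 0)‖ + 1, hβ, ?_, ?_⟩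
  · -- near `(I β, 0)`
    obtain ⟨δ1, hδ1, hδV⟩ := Metric.continuousAt_iff.1 hVα 1 one_pos
    set δ2 : ℝ := min δ1 (ρ - ‖α - α0‖) with hδ2
    have hδ2pos : 0 < δ2 := lt_min hδ1 (by linarith)
    have he0 : (0 : ℝ) < e := by exact_mod_cast he
    have hlim1 : Tendsto (fun T : ℕ => (T : ℝ) ^ (-(1 / (e : ℝ)))) atTop (𝓝 0) :=
      (tendsto_rpow_neg_atTop (by positivity)).comp tendsto_natCast_atTop_atTop
    have hlim2 : Tendsto (fun T : ℕ => (√(T : ℝ))⁻¹) atTop (𝓝 0) :=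
      (Real.tendsto_sqrt_atTop.comp tendsto_natCast_atTop_atTop).inv_tendsto_atTop
    filter_upwards [hlim1.eventually_lt_const hδ2pos, hlim2.eventually_lt_const hδ2pos,
      eventually_gt_atTop 0] with T h1 h2 hT x hx
    have hT0 : (0 : ℝ) < T := by exact_mod_cast hT
    have hTC : (T : ℂ) ≠ 0 := by exact_mod_cast hT.ne'
    set s : ℝ := (T : ℝ) ^ (-(1 / (e : ℝ))) with hs
    have hspos : 0 < s := Real.rpow_pos_of_pos hT0 _
    have hsC : (s : ℂ) ≠ 0 := by exact_mod_cast hspos.ne'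
    set p : (Fin m → ℂ) × ℂ := (fun j => x j * (T : ℂ)⁻¹, (s : ℂ)) with hp
    have hpd : ‖p - (α, 0)‖ < δ2 := by
      rw [hp, Prod.mk_sub_mk, sub_zero, Prod.norm_mk]
      refine max_lt ?_ ?_
      · rw [pi_norm_lt_iff hδ2pos]
        intro j
        have h3 : (fun j => x j * (T : ℂ)⁻¹) j - α j =
            (x j - Complex.I * (T : ℂ) * (β j : ℂ)) * (T : ℂ)⁻¹ := by
          rw [hα]
          field_simp
        rw [Pi.sub_apply, h3, norm_mul, norm_inv, Complex.norm_natCast]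
        calc ‖x j - Complex.I * (T : ℂ) * (β j : ℂ)‖ * (T : ℝ)⁻¹ ≤ √(T : ℝ) * (T : ℝ)⁻¹ :=
              mul_le_mul_of_nonneg_right (hx j) (by positivity)
          _ = (√(T : ℝ))⁻¹ := by
              rw [← div_eq_mul_inv, Real.sqrt_div_self]
          _ < δ2 := h2
      · rw [Complex.norm_real, Real.norm_of_nonneg hspos.le]
        exact h1
    have hp1 : ‖p - (α0, 0)‖ < ρ := by
      have h3 : p - (α0, 0) = (p - (α, 0)) + ((α, 0) - (α0, 0)) := by abel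
      have h4 : ‖((α, 0) : (Fin m → ℂ) × ℂ) - (α0, 0)‖ = ‖α - α0‖ := by
        rw [Prod.mk_sub_mk, sub_self, Prod.norm_mk, norm_zero, max_eq_left (norm_nonneg _)]
      rw [h3]
      refine (norm_add_le _ _).trans_lt ?_
      rw [h4]
      have h5 := min_le_right δ1 (ρ - ‖α - α0‖)
      linarith
    have hp2 : p.2 ≠ 0 := hsC
    refine ⟨?_, ?_, ?_⟩
    · have h3 : ContDiffAt ℂ 1 V ((fun y : Fin m → ℂ =>
          ((fun j => y j * (T : ℂ)⁻¹, (s : ℂ)) : (Fin m → ℂ) × ℂ)) x) := hV1 p hp1 hp2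
      have h4 : ContDiffAt ℂ 1 (fun y : Fin m → ℂ =>
          ((fun j => y j * (T : ℂ)⁻¹, (s : ℂ)) : (Fin m → ℂ) × ℂ)) x := by fun_prop
      exact ContDiffAt.comp x h3 h4
    · have h3 : dist p (α, 0) < δ1 := by
        rw [dist_eq_norm]
        exact hpd.trans_le (min_le_left _ _)
      have h4 := hδV h3
      rw [dist_eq_norm] at h4
      have h5 := norm_sub_norm_le (V p) (V (α, 0))
      show ‖V p‖ ≤ _
      linarith
    · have h3 := hVF p hp1 hp2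
      have h4 : (fun j => p.1 j * (p.2⁻¹) ^ e) = x := by
        funext j
        have h5 : (p.2⁻¹) ^ e = (T : ℂ) := by
          show ((s : ℂ)⁻¹) ^ e = (T : ℂ)
          have h6 : s⁻¹ ^ e = T := by
            rw [hs, Real.rpow_neg hT0.le, inv_inv, ← Real.rpow_natCast, ← Real.rpow_mul hT0.le,
              one_div_mul_cancel he0.ne', Real.rpow_one]
          have h7 : (((s⁻¹ ^ e : ℝ)) : ℂ) = ((T : ℝ) : ℂ) := by rw [h6]
          push_cast at h7
          exact h7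
        rw [h5]
        show x j * (T : ℂ)⁻¹ * (T : ℂ) = x j
        rw [mul_assoc, inv_mul_cancel₀ hTC, mul_one]
      rw [h4] at h3
      exact h3
  · refine goodT k β e he V ?_
    intro N hN
    obtain ⟨g, hg1, hg2, hg3⟩ := hc3 ⟨N, hN⟩ α hβρ (hβc ⟨N, hN⟩)
    refine ⟨(KN ⟨N, hN⟩ : ℤ) - (e * N.totalDegree : ℕ), g, hg1, hg2, ?_⟩
    filter_upwards [hg3] with p hp hp2
    rw [gH_eq e V N p hp2] at hp
    rw [zpow_sub₀ hp2, zpow_natCast, zpow_natCast, div_mul_eq_mul_div, ← hp,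
      mul_div_cancel_left₀ _ (pow_ne_zero _ hp2)]

end Pool.Agent.EXT
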