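import Pool.Agent.EXT.CoreG
import Pool.Agent.EXT.GraphT
import Pool.Agent.EXG.Gz

/-!
# EXT / CoreT: a solution near a BOUNDED branch `x_0 = ρ(α', s)`, `x' = s^(-e) α'`

Assembly of `exists_graph` and `coreG` (helper98).
-/

set_option autoImplicit false

namespace Pool.Agent.EXT

open MvPolynomial Pool.Agent.EXL Pool.Agent.EXI Pool.Agent.EXK Pool.Agent.EXG

theorem coreT (k : Subfield ℂ) (hk : (k : Set ℂ).Countable) {m : ℕ}
    (a b : Fin (m + 1) → ℂ) (hb : ∀ j, b j ≠ 0) (F : MvPolynomial (Fin (m + 1)) k) (hF0 : F ≠ 0)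
    (hF : ∀ f : MvPolynomial (Fin (m + 1)) k, aeval a f = 0 ↔ F ∣ f)
    (htd : td (k : Set ℂ) (Sum.elim a b) = m + 1)
    (ha : AlgebraicIndependent k (fun j : Fin m => a j.succ))
    (hFi : Irreducible (map (algebraMap k ℂ) F))
    (hnl : ∀ c κ : ℂ, map (algebraMap k ℂ) F ≠ C c * (X 0 - C κ))
    (hfib : ∀ x : Fin (m + 1) → ℂ, AlgebraicIndependent k (fun j : Fin m => x j.succ) →
      aeval x F = 0 → ∃ Q : Ideal (MvPolynomial (Fin (m + 1)) ℂ), Q.IsPrime ∧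
      (∀ j : Fin (m + 1), (X j : MvPolynomial (Fin (m + 1)) ℂ) ∉ Q) ∧
      Algebra.trdeg ℂ (MvPolynomial (Fin (m + 1)) ℂ ⧸ Q) = 1 ∧
      (∀ e : ℂ, (X 0 - C e : MvPolynomial (Fin (m + 1)) ℂ) ∉ Q) ∧
      ∀ w : Fin (m + 1) → ℂ, (∀ g ∈ Q, eval w g = 0) → Spec k (Sum.elim a b) (Sum.elim x w))
    (β : Fin m → ℝ) (δ : ℝ) (hδ : 0 < δ) (e : ℕ) (he : 1 ≤ e) (ρ : (Fin m → ℂ) → ℂ → ℂ)
    (hρ : DifferentiableOn ℂ (Function.uncurry ρ)
      (Metric.ball (fun j => Complex.I * (β j : ℂ)) δ ×ˢ Metric.ball (0 : ℂ) δ))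
    (hρ1 : ∀ α' ∈ Metric.ball (fun j => Complex.I * (β j : ℂ)) δ, ∀ s ∈ Metric.ball (0 : ℂ) δ,
      s ≠ 0 → ContDiffAt ℂ 1 (Function.uncurry ρ) (α', s))
    (hρF : ∀ α' ∈ Metric.ball (fun j => Complex.I * (β j : ℂ)) δ, ∀ s ∈ Metric.ball (0 : ℂ) δ,
      s ≠ 0 → aeval (Fin.cons (ρ α' s) (fun j => (s⁻¹) ^ e * α' j) : Fin (m + 1) → ℂ) F = 0)
    (h : MvPolynomial (Fin (m + 1) ⊕ Fin (m + 1)) k) (hh : aeval (Sum.elim a b) h ≠ 0) :
    ∃ x : Fin (m + 1) → ℂ,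
      Spec k (Sum.elim a b) (Sum.elim x fun j => Complex.exp (x j)) ∧
      aeval (Sum.elim x fun j => Complex.exp (x j)) h ≠ 0 := by
  obtain ⟨β', r, C0, h1, h2, h3⟩ := exists_graph k hk (map (algebraMap k ℂ) F) hFi hnl e he β δ hδ
    (Function.uncurry ρ) (fun p hp => by
      have hp1 : p.1 ∈ Metric.ball (fun j => Complex.I * (β j : ℂ)) δ ∧
          p.2 ∈ Metric.ball (0 : ℂ) δ := by
        rw [mem_ball_iff_norm, mem_ball_iff_norm]
        exact ⟨(norm_fst_le _).trans_lt hp, (norm_snd_le _).trans_lt hp⟩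
      exact (hρ p ⟨hp1.1, hp1.2⟩).differentiableAt
        ((Metric.isOpen_ball.prod Metric.isOpen_ball).mem_nhds ⟨hp1.1, hp1.2⟩))
    (fun p hp hp0 => by
      refine hρ1 p.1 ?_ p.2 ?_ hp0
      · rw [mem_ball_iff_norm]
        exact (norm_fst_le _).trans_lt hp
      · rw [mem_ball_iff_norm]
        exact (norm_snd_le _).trans_lt hp)
    (fun p hp hp0 => by
      have h0 := hρF p.1 (by
        rw [mem_ball_iff_norm]
        exact (norm_fst_le _).trans_lt hp) p.2 (by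
        rw [mem_ball_iff_norm]
        exact (norm_snd_le _).trans_lt hp) hp0
      rw [eval_map]
      have h4 : (fun j => p.1 j * (p.2⁻¹) ^ e) = fun j => (p.2⁻¹) ^ e * p.1 j := by
        funext j
        rw [mul_comm]
      rw [h4]
      exact h0)
  refine coreG k a b hb F hF0 hF ha htd hfib β' h1 r C0 ?_ h3 h hh
  filter_upwards [h2] with T hT x hx
  obtain ⟨h4, h5, h6⟩ := hT x hx
  refine ⟨h4, h5, ?_⟩
  rw [eval_map] at h6
  exact h6

end Pool.Agent.EXT
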