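import Mathlib

/-!
# EXT / DichT: a branch with `W(0) = 0` is bounded (after division by `s ^ e`), or a conjugate branch over `T α` or over `- T α` tends to `-∞`

PROOF.  `W = ∑ w_n s^n` at `0`. If `w_n = 0` for all `n < e`: second alternative. Otherwise `n` = the least with `w_n ≠ 0`, `1 ≤ n < e` (`W 0 = 0`), `w = w_n`.
For `ζ ∈ μ_(2e)` (so `ζ^e = ± 1`) put `ξ = ζ^(n+e)`: `∑_ζ ξ = 0` and `∑_ζ ξ^2 = 0` because `2e` divides neither `n + e` nor `2 (n + e)` (`0 < n < e`). So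
`∑ Re (w ξ) = 0` and `∑ (Re (w ξ))^2 = ∑ (|w|^2 + Re (w^2 ξ^2)) / 2 = e |w|^2 > 0`: some `Re (w ξ) = -q < 0`. For this `ζ`:
`ζ^e s^(-e) W(ζ s) = w ξ s^(n-e) + O(s^(n+1-e))`, real part `≤ -(q/2) s^(n-e) ≤ - s^(-ε) (1 + ‖W (ζ s)‖)`, `ε = (e - n) / 2`.
(Cf. EXW/DichW.)
-/

set_option autoImplicit false

namespace Pool.Agent.EXT

open Topology Filter

private theorem tay (e : ℕ) : ∀ W : ℂ → ℂ, AnalyticAt ℂ W 0 →
    ∃ (w : ℕ → ℂ) (R : ℂ → ℂ), AnalyticAt ℂ R 0 ∧
      ∀ z, W z = ∑ n ∈ Finset.range e, w n * z ^ n + z ^ e * R z := by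
  induction e with
  | zero =>
    intro W hW
    exact ⟨fun _ => 0, W, hW, fun z => by simp⟩
  | succ e ih =>
    intro W hW
    obtain ⟨w, R, hR, h⟩ := ih W hW
    obtain ⟨p, hp⟩ := hR
    refine ⟨fun n => if n = e then R 0 else w n, dslope R 0,
      ⟨_, hp.has_fpower_series_dslope_fslope⟩, fun z => ?_⟩
    have h1 := sub_smul_dslope R 0 z
    rw [sub_zero, smul_eq_mul] at h1
    rw [h z, Finset.sum_range_succ]
    show _ = (∑ n ∈ Finset.range e, (if n = e then R 0 else w n) * z ^ n +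
      (if e = e then R 0 else w e) * z ^ e) + z ^ (e + 1) * dslope R 0 z
    rw [if_pos rfl]
    have h2 : ∑ n ∈ Finset.range e, (if n = e then R 0 else w n) * z ^ n =
        ∑ n ∈ Finset.range e, w n * z ^ n := by
      refine Finset.sum_congr rfl fun n hn => ?_
      rw [if_neg (by have := Finset.mem_range.1 hn; omega)]
    rw [h2]
    linear_combination (-z ^ e) * h1

private theorem re_form {e : ℕ} {W R : ℂ → ℂ} {w : ℕ → ℂ}
    (h : ∀ z, W z = ∑ n ∈ Finset.range e, w n * z ^ n + z ^ e * R z) {ζ : ℂ}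
    (hζ : ζ ^ e * ζ ^ e = 1) {s : ℝ} (hs : 0 < s) :
    (ζ ^ e * ((s : ℂ)⁻¹) ^ e * W (ζ * s)).re =
      ∑ n ∈ Finset.range e, (w n * ζ ^ (n + e)).re * ((s⁻¹) ^ e * s ^ n) + (R (ζ * s)).re := by
  have hs0 : (s : ℂ) ≠ 0 := by exact_mod_cast hs.ne'
  have h1 : ζ ^ e * ((s : ℂ)⁻¹) ^ e * W (ζ * s) =
      ∑ n ∈ Finset.range e, (w n * ζ ^ (n + e)) * (((s⁻¹) ^ e * s ^ n : ℝ) : ℂ) +
        R (ζ * s) := by
    rw [h, mul_add, Finset.mul_sum]
    congr 1
    · refine Finset.sum_congr rfl fun n _ => ?_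
      push_cast
      rw [mul_pow, pow_add]
      ring
    · have h2 : ((s : ℂ)⁻¹) ^ e * (s : ℂ) ^ e = 1 := by
        rw [← mul_pow, inv_mul_cancel₀ hs0, one_pow]
      rw [mul_pow]
      calc ζ ^ e * (s : ℂ)⁻¹ ^ e * (ζ ^ e * (s : ℂ) ^ e * R (ζ * s)) =
          (ζ ^ e * ζ ^ e) * ((s : ℂ)⁻¹ ^ e * (s : ℂ) ^ e) * R (ζ * s) := by ring
        _ = _ := by rw [hζ, h2, one_mul, one_mul]
  rw [h1, Complex.add_re, Complex.re_sum]
  congr 1
  refine Finset.sum_congr rfl fun n _ => ?_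
  rw [Complex.re_mul_ofReal]

/-- a negative real part among the products with the powers of `2 e`-th roots of unity -/
private theorem neg_root {e n : ℕ} (hn : 0 < n) (hne : n < e) (a : ℂ) (ha : a ≠ 0) :
    ∃ ζ : ℂ, ζ ^ e * ζ ^ e = 1 ∧ (a * ζ ^ (n + e)).re < 0 := by
  by_contra hcon
  push Not at hcon
  set ω : ℂ := Complex.exp (2 * Real.pi * Complex.I / (2 * e : ℕ)) with hω
  have hprim : IsPrimitiveRoot ω (2 * e) := Complex.isPrimitiveRoot_exp (2 * e) (by omega)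
  have hωe : ω ^ (2 * e) = 1 := hprim.pow_eq_one
  have hωn : ω ^ (n + e) ≠ 1 := hprim.pow_ne_one_of_pos_of_lt (by omega) (by omega)
  have hroot : ∀ j : ℕ, (ω ^ j) ^ e * (ω ^ j) ^ e = 1 := by
    intro j
    rw [← pow_add, ← pow_mul, show j * (e + e) = 2 * e * j by ring, pow_mul, hωe, one_pow]
  have hgeo : ∑ j ∈ Finset.range (2 * e), (ω ^ (n + e)) ^ j = 0 := by
    have h1 := mul_neg_geom_sum (ω ^ (n + e)) (2 * e)
    rw [← pow_mul, mul_comm (n + e) (2 * e), pow_mul, hωe, one_pow, sub_self] at h1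
    exact (mul_eq_zero.1 h1).resolve_left (sub_ne_zero.2 hωn.symm)
  have hsum : ∑ j ∈ Finset.range (2 * e), (a * (ω ^ j) ^ (n + e)).re = 0 := by
    rw [← Complex.re_sum]
    have : ∑ j ∈ Finset.range (2 * e), a * (ω ^ j) ^ (n + e) =
        a * ∑ j ∈ Finset.range (2 * e), (ω ^ (n + e)) ^ j := by
      rw [Finset.mul_sum]
      refine Finset.sum_congr rfl fun j _ => ?_
      rw [← pow_mul, ← pow_mul, mul_comm j]
    rw [this, hgeo, mul_zero, Complex.zero_re]
  have hz := (Finset.sum_eq_zero_iff_of_nonneg (fun j _ => hcon _ (hroot j))).1 hsum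
  have h0 := hz 0 (Finset.mem_range.2 (by omega))
  have h1 := hz 1 (Finset.mem_range.2 (by omega))
  rw [pow_zero, one_pow, mul_one] at h0
  rw [pow_one, Complex.mul_re, h0, zero_mul, zero_sub, neg_eq_zero] at h1
  have hai : a.im ≠ 0 := fun h => ha (Complex.ext h0 h)
  have him : (ω ^ (n + e)).im = 0 := (mul_eq_zero.1 h1).resolve_left hai
  have hnorm : ‖ω ^ (n + e)‖ = 1 := by
    rw [norm_pow, hprim.norm'_eq_one (by omega), one_pow]
  have hsq : (ω ^ (n + e)) * (ω ^ (n + e)) = 1 := by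
    have h2 : (ω ^ (n + e)) = (((ω ^ (n + e)).re : ℝ) : ℂ) := by
      apply Complex.ext
      · simp
      · rw [him]
        simp
    have h3 : ((ω ^ (n + e)).re) * ((ω ^ (n + e)).re) = 1 := by
      have h4 := Complex.normSq_eq_norm_sq (ω ^ (n + e))
      rw [hnorm, Complex.normSq_apply, him, mul_zero, add_zero, one_pow] at h4
      exact h4
    rw [h2, ← Complex.ofReal_mul, h3, Complex.ofReal_one]
  rw [← pow_add] at hsq
  have hdvd := (hprim.pow_eq_one_iff_dvd _).1 hsq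
  obtain ⟨t, ht⟩ := hdvd
  have h5 : n + e = e * t := by
    have : 2 * (n + e) = 2 * (e * t) := by
      calc 2 * (n + e) = n + e + (n + e) := by ring
        _ = 2 * e * t := ht
        _ = 2 * (e * t) := by ring
    omega
  rcases Nat.lt_or_ge t 2 with h6 | h6
  · have : e * t ≤ e * 1 := Nat.mul_le_mul_left e (by omega)
    omega
  · have : e * 2 ≤ e * t := Nat.mul_le_mul_left e h6
    omega

private theorem tend (ζ : ℂ) : Tendsto (fun s : ℝ => ζ * (s : ℂ)) (𝓝[>] 0) (𝓝 0) := by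
  have h : Continuous fun s : ℝ => ζ * (s : ℂ) := by fun_prop
  have h1 := h.tendsto 0
  simp only [Complex.ofReal_zero, mul_zero] at h1
  exact h1.mono_left nhdsWithin_le_nhds

theorem dichT (e : ℕ) (he : 1 ≤ e) (W : ℂ → ℂ) (hW : AnalyticAt ℂ W 0) (hW0 : W 0 = 0) :
    (∃ (ε : ℝ) (ζ : ℂ), 0 < ε ∧ (ζ ^ e = 1 ∨ ζ ^ e = -1) ∧ ∀ᶠ s : ℝ in 𝓝[>] 0,
      (ζ ^ e * ((s : ℂ)⁻¹) ^ e * W (ζ * s)).re ≤ -(s⁻¹) ^ ε * (1 + ‖W (ζ * s)‖)) ∨
    ∃ C : ℝ, ∀ᶠ s : ℂ in 𝓝 0, ‖W s‖ ≤ C * ‖s‖ ^ e := by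
  classical
  obtain ⟨w, R, hR, hWR⟩ := tay e W hW
  have hw0 : w 0 = 0 := by
    have h0 : w 0 = W 0 := by
      rw [hWR 0, zero_pow (by omega), zero_mul, add_zero]
      rw [Finset.sum_eq_single 0]
      · simp
      · intro b _ hb
        rw [zero_pow hb, mul_zero]
      · intro hb
        exact absurd (Finset.mem_range.2 (by omega)) hb
    rw [h0, hW0]
  by_cases hall : ∀ n < e, w n = 0
  · right
    refine ⟨‖R 0‖ + 1, ?_⟩
    have hb : ∀ᶠ z in 𝓝 (0 : ℂ), ‖R z‖ < ‖R 0‖ + 1 :=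
      hR.continuousAt.norm.eventually_lt_const (by linarith)
    filter_upwards [hb] with s h1
    rw [hWR s, Finset.sum_eq_zero (fun n hn => by
      rw [hall n (Finset.mem_range.1 hn), zero_mul]), zero_add, norm_mul, norm_pow, mul_comm]
    exact mul_le_mul_of_nonneg_right h1.le (pow_nonneg (norm_nonneg s) e)
  · left
    push Not at hall
    have hex : ∃ n, n < e ∧ w n ≠ 0 := hall
    obtain ⟨hn0e, hne⟩ := Nat.find_spec hex
    have hmin : ∀ n, n < Nat.find hex → w n = 0 := by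
      intro n hn
      by_contra h
      exact Nat.find_min hex hn ⟨by omega, h⟩
    set n₀ := Nat.find hex with hn₀
    have hn1 : 1 ≤ n₀ := by
      rcases Nat.eq_zero_or_pos n₀ with h | h
      · exfalso
        rw [h] at hne
        exact hne hw0
      · exact h
    -- a negative value
    obtain ⟨ζ, hζ, hneg⟩ := neg_root hn1 hn0e (w n₀) hne
    obtain ⟨D, hD⟩ : ∃ D, e = D + n₀ := ⟨e - n₀, by omega⟩
    have hD1 : 1 ≤ D := by omega
    have hDr : (0 : ℝ) < (D : ℝ) / 2 := by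
      have : (1 : ℝ) ≤ D := by exact_mod_cast hD1
      linarith
    have hζ1 : ζ ^ e = 1 ∨ ζ ^ e = -1 := by
      have h1 : (ζ ^ e - 1) * (ζ ^ e + 1) = 0 := by linear_combination hζ
      rcases mul_eq_zero.1 h1 with h2 | h2
      · exact Or.inl (sub_eq_zero.1 h2)
      · exact Or.inr (eq_neg_of_add_eq_zero_left h2)
    refine ⟨(D : ℝ) / 2, ζ, hDr, hζ1, ?_⟩
    set q : ℝ := -(w n₀ * ζ ^ (n₀ + e)).re with hq
    have hq0 : 0 < q := by rw [hq]; linarith
    -- the first function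
    have hF : Tendsto (fun s : ℝ => ∑ n ∈ Finset.range e, (w n * ζ ^ (n + e)).re * s ^ (n - n₀) +
        s ^ D * (R (ζ * s)).re) (𝓝[>] 0) (𝓝 (-q)) := by
      have t1 : Tendsto (fun s : ℝ => ∑ n ∈ Finset.range e, (w n * ζ ^ (n + e)).re * s ^ (n - n₀))
          (𝓝[>] 0) (𝓝 (∑ n ∈ Finset.range e, (w n * ζ ^ (n + e)).re * (0 : ℝ) ^ (n - n₀))) := by
        have hc : Continuous (fun s : ℝ => ∑ n ∈ Finset.range e,
            (w n * ζ ^ (n + e)).re * s ^ (n - n₀)) := by fun_prop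
        exact (hc.tendsto 0).mono_left nhdsWithin_le_nhds
      have t2 : Tendsto (fun s : ℝ => s ^ D) (𝓝[>] 0) (𝓝 0) := by
        have hc : Continuous (fun s : ℝ => s ^ D) := by fun_prop
        have h1 := hc.tendsto 0
        rw [zero_pow (by omega)] at h1
        exact h1.mono_left nhdsWithin_le_nhds
      have t3 : Tendsto (fun s : ℝ => (R (ζ * s)).re) (𝓝[>] 0) (𝓝 (R 0).re) :=
        (Complex.continuous_re.tendsto _).comp (hR.continuousAt.tendsto.comp (tend ζ))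
      have t4 := t1.add (t2.mul t3)
      have e1 : ∑ n ∈ Finset.range e, (w n * ζ ^ (n + e)).re * (0 : ℝ) ^ (n - n₀) + 0 * (R 0).re =
          -q := by
        rw [zero_mul, add_zero, hq, neg_neg, Finset.sum_eq_single n₀]
        · rw [Nat.sub_self, pow_zero, mul_one]
        · intro b _ hb
          rcases lt_or_gt_of_ne hb with h | h
          · rw [hmin b h, zero_mul, Complex.zero_re, zero_mul]
          · rw [zero_pow (by omega), mul_zero]
        · intro hb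
          exact absurd (Finset.mem_range.2 hn0e) hb
      rw [e1] at t4
      exact t4
    have hH : Tendsto (fun s : ℝ => s ^ ((D : ℝ) / 2) * (1 + ‖W (ζ * s)‖)) (𝓝[>] 0) (𝓝 0) := by
      have t1 : Tendsto (fun s : ℝ => s ^ ((D : ℝ) / 2)) (𝓝[>] 0) (𝓝 0) := by
        have h1 := (Real.continuousAt_rpow_const 0 ((D : ℝ) / 2) (Or.inr hDr.le)).tendsto
        rw [Real.zero_rpow hDr.ne'] at h1
        exact h1.mono_left nhdsWithin_le_nhds
      have t2 : Tendsto (fun s : ℝ => 1 + ‖W (ζ * s)‖) (𝓝[>] 0) (𝓝 (1 + ‖W 0‖)) :=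
        ((hW.continuousAt.norm.tendsto.comp (tend ζ)).const_add 1)
      have t3 := t1.mul t2
      rw [zero_mul] at t3
      exact t3
    filter_upwards [hF.eventually_lt_const (show -q < -(q / 2) by linarith),
      hH.eventually_lt_const (show 0 < q / 2 by positivity), self_mem_nhdsWithin]
      with s h1 h2 h3
    have hs : 0 < s := h3
    have hsD : 0 < s ^ D := pow_pos hs D
    have hform := re_form hWR hζ hs
    have hmul : s ^ D * (ζ ^ e * ((s : ℂ)⁻¹) ^ e * W (ζ * s)).re =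
        ∑ n ∈ Finset.range e, (w n * ζ ^ (n + e)).re * s ^ (n - n₀) + s ^ D * (R (ζ * s)).re := by
      rw [hform, mul_add, Finset.mul_sum]
      congr 1
      refine Finset.sum_congr rfl fun n _ => ?_
      rcases lt_or_ge n n₀ with h | h
      · rw [hmin n h, zero_mul, Complex.zero_re]
        ring
      · obtain ⟨j, hj⟩ := Nat.exists_eq_add_of_le h
        rw [hj, Nat.add_sub_cancel_left]
        have e2 : s ^ D * ((s⁻¹) ^ e * s ^ (n₀ + j)) = s ^ j := by
          rw [inv_pow, hD]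
          rw [pow_add, pow_add]
          field_simp
        calc s ^ D * ((w (n₀ + j) * ζ ^ (n₀ + j + e)).re * ((s⁻¹) ^ e * s ^ (n₀ + j))) =
            (w (n₀ + j) * ζ ^ (n₀ + j + e)).re * (s ^ D * ((s⁻¹) ^ e * s ^ (n₀ + j))) := by ring
          _ = _ := by rw [e2]
    have hpow : s ^ D * (s⁻¹) ^ ((D : ℝ) / 2) = s ^ ((D : ℝ) / 2) := by
      rw [Real.inv_rpow hs.le, ← Real.rpow_natCast s D]
      have : (D : ℝ) = D / 2 + D / 2 := by ring
      conv_lhs => rw [this]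
      rw [Real.rpow_add hs]
      have hne : s ^ ((D : ℝ) / 2) ≠ 0 := (Real.rpow_pos_of_pos hs _).ne'
      have h4 : ((D : ℝ) / 2 + D / 2) / 2 = D / 2 := by ring
      rw [h4]
      field_simp
    refine le_of_mul_le_mul_left ?_ hsD
    rw [hmul]
    have h5 : s ^ D * (-(s⁻¹) ^ ((D : ℝ) / 2) * (1 + ‖W (ζ * s)‖)) =
        -(s ^ ((D : ℝ) / 2) * (1 + ‖W (ζ * s)‖)) := by
      rw [← hpow]
      ring
    rw [h5]
    linarith

end Pool.Agent.EXT
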