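import Mathlib

/-!
# EXT / DivT: division by `s ^ e`

PROOF.  `V` is `C^1` over `ℂ`, so complex differentiable, near `(I β, 0)`. Put (`|ζ| = r'`)
`ρ(α', s) = (2 π i)^(-1) ∮ V(α', ζ) / (ζ^e (ζ - s)) dζ`, `c_i(α') = (2 π i)^(-1) ∮ V(α', ζ) / ζ^(i+1) dζ`: differentiable
(`C^1` integrands), and `V = s^e ρ + Σ_{i < e} s^i c_i` (Cauchy's formula). For `y ∈ S` near `β`, `‖V(I y, s)‖ ≤ C ‖s‖^e` gives
`c_i(I y) = 0` (shrink the circle); `S` is dense and `c_i` continuous, so `c_i(I y) = 0` for all real `y` near `β`, and `c_i = 0`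
near `I β` (one-variable identity theorem, coordinate by coordinate).
-/

set_option autoImplicit false

namespace Pool.Agent.EXT

open Topology Filter

/-- A circle integral of a `C^1` integrand is differentiable in the parameter. -/
private lemma circ_diff {E : Type} [NormedAddCommGroup E] [NormedSpace ℂ E] [ProperSpace E]
    {U : Set E} (hU : IsOpen U) {R : ℝ} (hR : 0 < R) (G : E → ℂ → ℂ)
    (h : ∀ x ∈ U, ∀ ζ ∈ Metric.sphere (0 : ℂ) R, ContDiffAt ℂ 1 (Function.uncurry G) (x, ζ)) :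
    DifferentiableOn ℂ (fun x => ∮ ζ in C(0, R), G x ζ) U := by
  intro x₀ hx₀
  obtain ⟨ε, hε, hεU⟩ : ∃ ε > 0, Metric.closedBall x₀ ε ⊆ U :=
    Metric.nhds_basis_closedBall.mem_iff.1 (hU.mem_nhds hx₀)
  have hcirc : ∀ θ : ℝ, circleMap 0 R θ ∈ Metric.sphere (0 : ℂ) R := fun θ =>
    circleMap_mem_sphere 0 hR.le θ
  have hfc : ∀ x ∈ U, ∀ ζ ∈ Metric.sphere (0 : ℂ) R,
      ContinuousAt (fderiv ℂ (Function.uncurry G)) (x, ζ) := fun x hx ζ hζ =>
    ((h x hx ζ hζ).fderiv_right (m := 0) (by norm_num)).continuousAt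
  have hK : IsCompact (Metric.closedBall x₀ ε ×ˢ Metric.sphere (0 : ℂ) R) :=
    (isCompact_closedBall x₀ ε).prod (isCompact_sphere 0 R)
  obtain ⟨M, hM⟩ := hK.exists_bound_of_continuousOn
    (f := fderiv ℂ (Function.uncurry G)) (fun p hp =>
      (hfc p.1 (hεU hp.1) p.2 hp.2).continuousWithinAt)
  have hcm : Continuous (circleMap (0 : ℂ) R) := continuous_circleMap 0 R
  have hGc : ∀ x ∈ U, Continuous fun θ : ℝ => G x (circleMap 0 R θ) := by
    intro x hx
    rw [continuous_iff_continuousAt]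
    intro θ
    have h1 : ContinuousAt (Function.uncurry G) (x, circleMap 0 R θ) :=
      (h x hx _ (hcirc θ)).continuousAt
    have h2 : ContinuousAt (fun θ : ℝ => (x, circleMap 0 R θ)) θ :=
      (continuous_const.prodMk hcm).continuousAt
    exact ContinuousAt.comp (g := Function.uncurry G) (f := fun θ : ℝ => (x, circleMap 0 R θ)) h1 h2
  have hG'c : Continuous fun θ : ℝ => fderiv ℂ (Function.uncurry G) (x₀, circleMap 0 R θ) := by
    rw [continuous_iff_continuousAt]
    intro θ
    have h1 := hfc x₀ hx₀ _ (hcirc θ)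
    have h2 : ContinuousAt (fun θ : ℝ => (x₀, circleMap 0 R θ)) θ :=
      (continuous_const.prodMk hcm).continuousAt
    exact ContinuousAt.comp (g := fderiv ℂ (Function.uncurry G))
      (f := fun θ : ℝ => (x₀, circleMap 0 R θ)) h1 h2
  have hd : Continuous fun θ : ℝ => deriv (circleMap 0 R) θ := by
    have : (fun θ : ℝ => deriv (circleMap 0 R) θ) = fun θ => circleMap 0 R θ * Complex.I := by
      funext θ
      simp [deriv_circleMap]
    rw [this]
    exact hcm.mul continuous_const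
  have hdn : ∀ θ : ℝ, ‖deriv (circleMap 0 R) θ‖ = R := by
    intro θ
    rw [deriv_circleMap, norm_mul, Complex.norm_I, mul_one, norm_circleMap_zero, abs_of_pos hR]
  refine (HasFDerivAt.differentiableAt (f' := ∫ θ in (0 : ℝ)..2 * Real.pi,
    deriv (circleMap 0 R) θ • (fderiv ℂ (Function.uncurry G) (x₀, circleMap 0 R θ)).comp
      (ContinuousLinearMap.inl ℂ E ℂ)) ?_).differentiableWithinAt
  refine intervalIntegral.hasFDerivAt_integral_of_dominated_of_fderiv_le
    (F := fun x θ => deriv (circleMap 0 R) θ • G x (circleMap 0 R θ))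
    (F' := fun x θ => deriv (circleMap 0 R) θ •
      (fderiv ℂ (Function.uncurry G) (x, circleMap 0 R θ)).comp (ContinuousLinearMap.inl ℂ E ℂ))
    (bound := fun _ => R * (M * ‖ContinuousLinearMap.inl ℂ E ℂ‖))
    (s := Metric.closedBall x₀ ε) (Metric.closedBall_mem_nhds x₀ hε) ?_ ?_ ?_ ?_ ?_ ?_
  · filter_upwards [hU.mem_nhds hx₀] with x hx
    exact (hd.smul (hGc x hx)).aestronglyMeasurable
  · exact (hd.smul (hGc x₀ hx₀)).intervalIntegrable _ _
  · have hG2 : Continuous fun θ : ℝ => (fderiv ℂ (Function.uncurry G)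
        (x₀, circleMap 0 R θ)).comp (ContinuousLinearMap.inl ℂ E ℂ) :=
      hG'c.clm_comp continuous_const
    have hG3 : Continuous fun θ : ℝ => deriv (circleMap 0 R) θ • (fderiv ℂ (Function.uncurry G)
        (x₀, circleMap 0 R θ)).comp (ContinuousLinearMap.inl ℂ E ℂ) := hd.smul hG2
    exact hG3.aestronglyMeasurable
  · refine Eventually.of_forall fun θ _ x hx => ?_
    rw [norm_smul, hdn θ]
    refine mul_le_mul_of_nonneg_left ?_ hR.le
    refine (ContinuousLinearMap.opNorm_comp_le _ _).trans ?_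
    exact mul_le_mul_of_nonneg_right (hM (x, circleMap 0 R θ) ⟨hx, hcirc θ⟩) (norm_nonneg _)
  · exact intervalIntegrable_const
  · refine Eventually.of_forall fun θ _ x hx => ?_
    have h1 : HasFDerivAt (Function.uncurry G)
        (fderiv ℂ (Function.uncurry G) (x, circleMap 0 R θ)) (x, circleMap 0 R θ) :=
      ((h x (hεU hx) _ (hcirc θ)).differentiableAt (by norm_num)).hasFDerivAt
    have h2 : HasFDerivAt (fun x : E => (x, circleMap 0 R θ)) (ContinuousLinearMap.inl ℂ E ℂ) x :=
      hasFDerivAt_prodMk_left x _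
    have h3 : HasFDerivAt (fun x => G x (circleMap 0 R θ))
        ((fderiv ℂ (Function.uncurry G) (x, circleMap 0 R θ)).comp
          (ContinuousLinearMap.inl ℂ E ℂ)) x :=
      HasFDerivAt.comp (g := Function.uncurry G) (f := fun x : E => (x, circleMap 0 R θ)) x h1 h2
    exact HasFDerivAt.fun_const_smul h3 (deriv (circleMap 0 R) θ)

/-- The identity theorem on a polydisc around `I β`. -/
private lemma ident {m : ℕ} (β : Fin m → ℝ) {r : ℝ} (hr : 0 < r) (f : (Fin m → ℂ) → ℂ)
    (hf : DifferentiableOn ℂ f (Metric.ball (fun j => Complex.I * (β j : ℂ)) r))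
    (h0 : ∀ y : Fin m → ℝ, y ∈ Metric.ball β r → f (fun j => Complex.I * (y j : ℂ)) = 0) :
    ∀ z ∈ Metric.ball (fun j => Complex.I * (β j : ℂ)) r, f z = 0 := by
  have key : ∀ T : Finset (Fin m), ∀ z ∈ Metric.ball (fun j => Complex.I * (β j : ℂ)) r,
      (∀ j ∉ T, (z j).re = 0) → f z = 0 := by
    intro T
    induction T using Finset.induction_on with
    | empty =>
      intro z hz hre
      have h1 : z = fun j => Complex.I * (((z j).im : ℝ) : ℂ) := by
        funext j
        apply Complex.ext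
        · simp [hre j (by simp)]
        · simp
      have h2 : (fun j => (z j).im) ∈ Metric.ball β r := by
        rw [Metric.mem_ball, dist_pi_lt_iff hr] at hz ⊢
        intro j
        have h3 := hz j
        rw [dist_eq_norm] at h3
        rw [Real.dist_eq]
        refine lt_of_le_of_lt ?_ h3
        have h4 : ((z j - Complex.I * (β j : ℂ)).im) = (z j).im - β j := by simp
        rw [← h4]
        exact Complex.abs_im_le_norm _
      rw [h1]
      exact h0 _ h2
    | insert a T ha ih =>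
      intro z hz hre
      have hza : z a ∈ Metric.ball (Complex.I * (β a : ℂ)) r := by
        rw [Metric.mem_ball, dist_pi_lt_iff hr] at hz
        exact hz a
      have hup : ∀ w ∈ Metric.ball (Complex.I * (β a : ℂ)) r,
          Function.update z a w ∈ Metric.ball (fun j => Complex.I * (β j : ℂ)) r := by
        intro w hw
        rw [Metric.mem_ball, dist_pi_lt_iff hr] at hz ⊢
        intro j
        by_cases hj : j = a
        · subst hj
          rw [Function.update_self]
          exact hw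
        · rw [Function.update_of_ne hj]
          exact hz j
      have hg : DifferentiableOn ℂ (fun w => f (Function.update z a w))
          (Metric.ball (Complex.I * (β a : ℂ)) r) := by
        refine DifferentiableOn.comp (g := f) (f := fun w => Function.update z a w) hf ?_ hup
        intro w _
        refine DifferentiableAt.differentiableWithinAt ?_
        rw [differentiableAt_pi]
        intro j
        by_cases hj : j = a
        · subst hj
          simp only [Function.update_self]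
          exact differentiableAt_id
        · simp only [Function.update_of_ne hj]
          exact differentiableAt_const _
      have hga : AnalyticOnNhd ℂ (fun w => f (Function.update z a w))
          (Metric.ball (Complex.I * (β a : ℂ)) r) := hg.analyticOnNhd Metric.isOpen_ball
      have hfreq : ∃ᶠ w in 𝓝[≠] (Complex.I * (β a : ℂ)), f (Function.update z a w) = 0 := by
        rw [Filter.frequently_iff]
        intro W hW
        rw [mem_nhdsWithin_iff_exists_mem_nhds_inter] at hW
        obtain ⟨W', hW', hWW⟩ := hW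
        obtain ⟨δ, hδ, hδW⟩ := Metric.mem_nhds_iff.1 hW'
        have hq : 0 < min δ r / 2 := by positivity
        have hne : (Complex.I * ((β a + min δ r / 2 : ℝ) : ℂ)) ≠ Complex.I * (β a : ℂ) := by
          intro h'
          have h'' := mul_left_cancel₀ Complex.I_ne_zero h'
          have h3 : (β a + min δ r / 2 : ℝ) = β a := by exact_mod_cast h''
          linarith
        have hd : dist (Complex.I * ((β a + min δ r / 2 : ℝ) : ℂ)) (Complex.I * (β a : ℂ)) =
            min δ r / 2 := by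
          rw [dist_eq_norm, ← mul_sub, norm_mul, Complex.norm_I, one_mul, ← Complex.ofReal_sub,
            Complex.norm_real, Real.norm_eq_abs, add_sub_cancel_left, abs_of_pos hq]
        refine ⟨Complex.I * ((β a + min δ r / 2 : ℝ) : ℂ), hWW ⟨hδW ?_, hne⟩, ?_⟩
        · rw [Metric.mem_ball, hd]
          have := min_le_left δ r
          linarith
        · refine ih _ (hup _ ?_) ?_
          · rw [Metric.mem_ball, hd]
            have := min_le_right δ r
            linarith
          · intro j hj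
            by_cases hja : j = a
            · subst hja
              rw [Function.update_self]
              simp
            · rw [Function.update_of_ne hja]
              exact hre j (by simp [hja, hj])
      have hz0 := hga.eqOn_zero_of_preconnected_of_frequently_eq_zero
        (convex_ball _ _).isPreconnected (Metric.mem_ball_self hr) hfreq
      have h5 := hz0 hza
      simpa using h5
  intro z hz
  exact key Finset.univ z hz (by simp)

/-- A coefficient integral vanishes if `f` is `O(s ^ e)`. -/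
private lemma coef_zero {f : ℂ → ℂ} {R : ℝ} (hR : 0 < R)
    (hf : ∀ z ∈ Metric.closedBall (0 : ℂ) R, DifferentiableAt ℂ f z) {e i : ℕ} (hi : i < e)
    {C : ℝ} (hC : ∀ᶠ s : ℂ in 𝓝 0, ‖f s‖ ≤ C * ‖s‖ ^ e) :
    (∮ ζ in C(0, R), f ζ * (ζ ^ (i + 1))⁻¹) = 0 := by
  obtain ⟨δ, hδ, hδC⟩ := Metric.eventually_nhds_iff.1 hC
  have hshrink : ∀ ε : ℝ, 0 < ε → ε ≤ R →
      (∮ ζ in C(0, R), f ζ * (ζ ^ (i + 1))⁻¹) = ∮ ζ in C(0, ε), f ζ * (ζ ^ (i + 1))⁻¹ := by
    intro ε hε hεR
    have hdiff : ∀ z ∈ Metric.closedBall (0 : ℂ) R \ Metric.ball 0 ε,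
        DifferentiableAt ℂ (fun ζ => f ζ * (ζ ^ (i + 1))⁻¹) z := by
      intro z hz
      have hz0 : z ≠ 0 := by
        rintro rfl
        exact hz.2 (Metric.mem_ball_self hε)
      exact (hf z hz.1).mul ((differentiableAt_id.pow (i + 1)).inv (pow_ne_zero _ hz0))
    refine Complex.circleIntegral_eq_of_differentiable_on_annulus_off_countable hε hεR
      Set.countable_empty (fun z hz => (hdiff z hz).continuousAt.continuousWithinAt) ?_
    intro z hz
    exact hdiff z ⟨Metric.ball_subset_closedBall hz.1.1,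
      fun h => hz.1.2 (Metric.ball_subset_closedBall h)⟩
  have hbound : ∀ ε : ℝ, 0 < ε → ε < min (min δ R) 1 →
      ‖∮ ζ in C(0, R), f ζ * (ζ ^ (i + 1))⁻¹‖ ≤ 2 * Real.pi * |C| * ε := by
    intro ε hε hε2
    have hεδ : ε < δ := hε2.trans_le ((min_le_left _ _).trans (min_le_left _ _))
    have hεR : ε < R := hε2.trans_le ((min_le_left _ _).trans (min_le_right _ _))
    have hε1 : ε < 1 := hε2.trans_le (min_le_right _ _)
    rw [hshrink ε hε hεR.le]
    refine (circleIntegral.norm_integral_le_of_norm_le_const (C := |C|) hε.le ?_).trans ?_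
    · intro z hz
      have hzn : ‖z‖ = ε := by simpa using hz
      have h1 : ‖f z‖ ≤ C * ‖z‖ ^ e := hδC (by rw [dist_zero_right, hzn]; exact hεδ)
      rw [norm_mul, norm_inv, norm_pow, hzn] at *
      have h2 : ‖f z‖ ≤ |C| * ε ^ e := h1.trans
        (mul_le_mul_of_nonneg_right (le_abs_self C) (by positivity))
      have h3 : ε ^ e ≤ ε ^ (i + 1) := pow_le_pow_of_le_one hε.le hε1.le hi
      have h4 : (0 : ℝ) < ε ^ (i + 1) := by positivity
      calc ‖f z‖ * (ε ^ (i + 1))⁻¹ ≤ (|C| * ε ^ (i + 1)) * (ε ^ (i + 1))⁻¹ := by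
            refine mul_le_mul_of_nonneg_right (h2.trans ?_) (by positivity)
            exact mul_le_mul_of_nonneg_left h3 (abs_nonneg _)
        _ = |C| := by field_simp
    · exact le_of_eq (by ring)
  have hlim : Tendsto (fun ε : ℝ => 2 * Real.pi * |C| * ε) (𝓝[>] 0) (𝓝 0) := by
    have h1 : Tendsto (fun ε : ℝ => 2 * Real.pi * |C| * ε) (𝓝 0) (𝓝 (2 * Real.pi * |C| * 0)) :=
      tendsto_id.const_mul _
    rw [mul_zero] at h1
    exact h1.mono_left nhdsWithin_le_nhds
  have h2 : ‖∮ ζ in C(0, R), f ζ * (ζ ^ (i + 1))⁻¹‖ ≤ 0 := by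
    refine ge_of_tendsto hlim ?_
    have hmin : (0 : ℝ) < min (min δ R) 1 := by positivity
    filter_upwards [Ioo_mem_nhdsGT hmin] with ε hε
    exact hbound ε hε.1 hε.2
  exact norm_le_zero_iff.1 h2

/-- The partial fraction identity. -/
private lemma parfrac (e : ℕ) {ζ s : ℂ} (h0 : ζ ≠ 0) (hs : ζ - s ≠ 0) :
    (ζ - s)⁻¹ = s ^ e * (ζ ^ e * (ζ - s))⁻¹ + ∑ i ∈ Finset.range e, s ^ i * (ζ ^ (i + 1))⁻¹ := by
  induction e with
  | zero => simp
  | succ e ih =>
    rw [Finset.sum_range_succ, ih]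
    have h : s ^ e * (ζ ^ e * (ζ - s))⁻¹ =
        s ^ (e + 1) * (ζ ^ (e + 1) * (ζ - s))⁻¹ + s ^ e * (ζ ^ (e + 1))⁻¹ := by
      field_simp
      ring
    rw [h]
    ring

theorem divT {m : ℕ} (e : ℕ) (β : Fin m → ℝ) (V : (Fin m → ℂ) × ℂ → ℂ)
    (hV : ContDiffAt ℂ 1 V ((fun j => Complex.I * (β j : ℂ)), 0)) (S : Set (Fin m → ℝ))
    (hS : ∀ (y : Fin m → ℝ) (δ : ℝ), 0 < δ → ∃ z ∈ S, ∀ j, |z j - y j| < δ)
    (hb : ∀ᶠ y : Fin m → ℝ in 𝓝 β, y ∈ S → ∃ C : ℝ, ∀ᶠ s : ℂ in 𝓝 0,
      ‖V ((fun j => Complex.I * (y j : ℂ)), s)‖ ≤ C * ‖s‖ ^ e) :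
    ∃ (δ : ℝ) (ρ : (Fin m → ℂ) → ℂ → ℂ), 0 < δ ∧
      DifferentiableOn ℂ (Function.uncurry ρ)
        (Metric.ball (fun j => Complex.I * (β j : ℂ)) δ ×ˢ Metric.ball (0 : ℂ) δ) ∧
      ∀ α' ∈ Metric.ball (fun j => Complex.I * (β j : ℂ)) δ, ∀ s ∈ Metric.ball (0 : ℂ) δ,
        V (α', s) = s ^ e * ρ α' s := by
  have hev := hV.eventually (by norm_num)
  obtain ⟨r, hr, hrV⟩ := Metric.eventually_nhds_iff.1 hev
  obtain ⟨δ₀, hδ₀, hδb⟩ := Metric.eventually_nhds_iff.1 hb
  have hVr : ∀ α' ∈ Metric.ball (fun j => Complex.I * (β j : ℂ)) r,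
      ∀ s ∈ Metric.ball (0 : ℂ) r, ContDiffAt ℂ 1 V (α', s) := by
    intro α' hα s hs
    refine hrV ?_
    rw [Prod.dist_eq]
    exact max_lt hα hs
  set R : ℝ := r / 2 with hRdef
  have hR : 0 < R := by positivity
  have hRr : R < r := by rw [hRdef]; linarith
  set d : ℝ := min δ₀ r with hd
  have hd0 : 0 < d := lt_min hδ₀ hr
  have hsub : Metric.closedBall (0 : ℂ) R ⊆ Metric.ball 0 r := Metric.closedBall_subset_ball hRr
  have hsph : Metric.sphere (0 : ℂ) R ⊆ Metric.ball 0 r := Metric.sphere_subset_closedBall.trans hsub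
  have hVd : ∀ α' ∈ Metric.ball (fun j => Complex.I * (β j : ℂ)) r,
      ∀ s ∈ Metric.closedBall (0 : ℂ) R, DifferentiableAt ℂ (fun ζ => V (α', ζ)) s := by
    intro α' hα s hs
    have h1 : DifferentiableAt ℂ V (α', s) :=
      (hVr α' hα s (hsub hs)).differentiableAt (by norm_num)
    exact DifferentiableAt.comp (g := V) (f := fun ζ : ℂ => (α', ζ)) s h1
      ((differentiableAt_const _).prodMk differentiableAt_id)
  -- the coefficients
  have hcd : ∀ i : ℕ, DifferentiableOn ℂ
      (fun α' : Fin m → ℂ => ∮ ζ in C(0, R), V (α', ζ) * (ζ ^ (i + 1))⁻¹)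
      (Metric.ball (fun j => Complex.I * (β j : ℂ)) r) := by
    intro i
    refine circ_diff Metric.isOpen_ball hR (fun α' ζ => V (α', ζ) * (ζ ^ (i + 1))⁻¹) ?_
    intro α' hα ζ hζ
    have hζ0 : ζ ≠ 0 := by
      rintro rfl
      simp at hζ
      exact hR.ne hζ
    have h1 : ContDiffAt ℂ 1 (fun p : (Fin m → ℂ) × ℂ => V (p.1, p.2)) (α', ζ) :=
      hVr α' hα ζ (hsph hζ)
    have h2 : ContDiffAt ℂ 1 (fun p : (Fin m → ℂ) × ℂ => (p.2 ^ (i + 1))⁻¹) (α', ζ) :=
      (contDiffAt_snd.pow (i + 1)).inv (pow_ne_zero _ hζ0)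
    exact h1.mul h2
  have hI : Continuous fun y : Fin m → ℝ => (fun j => Complex.I * (y j : ℂ)) :=
    continuous_pi fun j => continuous_const.mul
      (Complex.continuous_ofReal.comp (continuous_apply j))
  have hIm : ∀ y : Fin m → ℝ, ∀ q : ℝ, 0 < q → y ∈ Metric.ball β q →
      (fun j => Complex.I * (y j : ℂ)) ∈ Metric.ball (fun j => Complex.I * (β j : ℂ)) q := by
    intro y q hq hy
    rw [Metric.mem_ball, dist_pi_lt_iff hq] at hy ⊢
    intro j
    rw [dist_eq_norm, ← mul_sub, norm_mul, Complex.norm_I, one_mul, ← Complex.ofReal_sub,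
      Complex.norm_real, ← dist_eq_norm]
    exact hy j
  have hc0 : ∀ i < e, ∀ α' ∈ Metric.ball (fun j => Complex.I * (β j : ℂ)) d,
      (∮ ζ in C(0, R), V (α', ζ) * (ζ ^ (i + 1))⁻¹) = 0 := by
    intro i hi
    refine ident β hd0 (fun α' => ∮ ζ in C(0, R), V (α', ζ) * (ζ ^ (i + 1))⁻¹)
      ((hcd i).mono (Metric.ball_subset_ball (min_le_right _ _))) ?_
    intro y hy
    by_contra hne
    have hyr : (fun j => Complex.I * (y j : ℂ)) ∈
        Metric.ball (fun j => Complex.I * (β j : ℂ)) r :=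
      hIm y r hr (Metric.ball_subset_ball (min_le_right _ _) hy)
    have hcont : ContinuousAt (fun y : Fin m → ℝ =>
        ∮ ζ in C(0, R), V ((fun j => Complex.I * (y j : ℂ)), ζ) * (ζ ^ (i + 1))⁻¹) y := by
      have h1 : ContinuousAt (fun α' : Fin m → ℂ =>
          ∮ ζ in C(0, R), V (α', ζ) * (ζ ^ (i + 1))⁻¹) (fun j => Complex.I * (y j : ℂ)) :=
        ((hcd i).differentiableAt (Metric.isOpen_ball.mem_nhds hyr)).continuousAt
      exact ContinuousAt.comp (g := fun α' : Fin m → ℂ =>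
          ∮ ζ in C(0, R), V (α', ζ) * (ζ ^ (i + 1))⁻¹)
        (f := fun y : Fin m → ℝ => (fun j => Complex.I * (y j : ℂ))) h1 hI.continuousAt
    have hev2 := (hcont.eventually_ne hne).and (Metric.isOpen_ball.mem_nhds hy)
    obtain ⟨η, hη, hηp⟩ := Metric.eventually_nhds_iff.1 hev2
    obtain ⟨z, hzS, hz⟩ := hS y η hη
    have hzd : dist z y < η := (dist_pi_lt_iff hη).2 fun j => by
      rw [Real.dist_eq]
      exact hz j
    obtain ⟨h1, h2⟩ := hηp hzd
    obtain ⟨C, hC⟩ := hδb (lt_of_lt_of_le h2 (min_le_left _ _)) hzS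
    exact h1 (coef_zero (f := fun ζ => V ((fun j => Complex.I * (z j : ℂ)), ζ)) hR
      (hVd _ (hIm z r hr (Metric.ball_subset_ball (min_le_right _ _) h2))) hi hC)
  -- the quotient
  set δ : ℝ := min d R with hδdef
  have hδ : 0 < δ := lt_min hd0 hR
  refine ⟨δ, fun α' s => (2 * Real.pi * Complex.I : ℂ)⁻¹ *
    ∮ ζ in C(0, R), V (α', ζ) * (ζ ^ e * (ζ - s))⁻¹, hδ, ?_, ?_⟩
  · have hU : IsOpen (Metric.ball (fun j => Complex.I * (β j : ℂ)) δ ×ˢ Metric.ball (0 : ℂ) δ :
        Set ((Fin m → ℂ) × ℂ)) := Metric.isOpen_ball.prod Metric.isOpen_ball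
    have h1 := circ_diff hU hR
      (fun (p : (Fin m → ℂ) × ℂ) ζ => V (p.1, ζ) * (ζ ^ e * (ζ - p.2))⁻¹) (by
        intro p hp ζ hζ
        have hζ0 : ζ ≠ 0 := by
          rintro rfl
          simp at hζ
          exact hR.ne hζ
        have hζn : ‖ζ‖ = R := by simpa using hζ
        have hζs : ζ - p.2 ≠ 0 := by
          intro h'
          have h2 : ζ = p.2 := sub_eq_zero.1 h'
          have h3 : ‖p.2‖ < δ := by simpa using hp.2
          rw [← h2, hζn] at h3
          exact absurd (h3.trans_le (min_le_right d R)) (lt_irrefl _)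
        have hp1 : p.1 ∈ Metric.ball (fun j => Complex.I * (β j : ℂ)) r :=
          Metric.ball_subset_ball ((min_le_left d R).trans (min_le_right δ₀ r)) hp.1
        have e1 : ContDiffAt ℂ 1 (fun q : ((Fin m → ℂ) × ℂ) × ℂ => V (q.1.1, q.2)) (p, ζ) :=
          ContDiffAt.comp (g := V) (f := fun q : ((Fin m → ℂ) × ℂ) × ℂ => (q.1.1, q.2)) (p, ζ)
            (hVr p.1 hp1 ζ (hsph hζ))
            ((contDiffAt_fst.comp (p, ζ) contDiffAt_fst).prodMk contDiffAt_snd)
        have e2 : ContDiffAt ℂ 1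
            (fun q : ((Fin m → ℂ) × ℂ) × ℂ => (q.2 ^ e * (q.2 - q.1.2))⁻¹) (p, ζ) :=
          ((contDiffAt_snd.pow e).mul
            (contDiffAt_snd.sub (contDiffAt_snd.comp (p, ζ) contDiffAt_fst))).inv
            (mul_ne_zero (pow_ne_zero _ hζ0) hζs)
        exact e1.mul e2)
    exact h1.const_mul _
  · intro α' hα s hs
    have hαr : α' ∈ Metric.ball (fun j => Complex.I * (β j : ℂ)) r :=
      Metric.ball_subset_ball ((min_le_left d R).trans (min_le_right δ₀ r)) hα
    have hαd : α' ∈ Metric.ball (fun j => Complex.I * (β j : ℂ)) d :=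
      Metric.ball_subset_ball (min_le_left d R) hα
    have hsR : s ∈ Metric.ball (0 : ℂ) R := Metric.ball_subset_ball (min_le_right d R) hs
    have hcauchy := Complex.circleIntegral_sub_inv_smul_of_differentiable_on_off_countable
      (f := fun ζ => V (α', ζ)) Set.countable_empty hsR
      (fun z hz => (hVd α' hαr z hz).continuousAt.continuousWithinAt)
      (fun z hz => hVd α' hαr z (Metric.ball_subset_closedBall hz.1))
    have hcV : ContinuousOn (fun ζ => V (α', ζ)) (Metric.sphere (0 : ℂ) R) := fun z hz =>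
      (hVd α' hαr z (Metric.sphere_subset_closedBall hz)).continuousAt.continuousWithinAt
    have hne0 : ∀ ζ ∈ Metric.sphere (0 : ℂ) R, ζ ≠ 0 := by
      rintro ζ hζ rfl
      simp at hζ
      exact hR.ne hζ
    have hnes : ∀ ζ ∈ Metric.sphere (0 : ℂ) R, ζ - s ≠ 0 := by
      intro ζ hζ h'
      have h2 : ζ = s := sub_eq_zero.1 h'
      have hζn : ‖ζ‖ = R := by simpa using hζ
      have h3 : ‖s‖ < R := by simpa using hsR
      rw [← h2, hζn] at h3
      exact lt_irrefl _ h3
    have i1 : CircleIntegrable (fun ζ => V (α', ζ) * (ζ ^ e * (ζ - s))⁻¹) 0 R := by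
      refine ContinuousOn.circleIntegrable hR.le (hcV.mul ?_)
      refine ContinuousOn.inv₀ ?_ fun ζ hζ =>
        mul_ne_zero (pow_ne_zero _ (hne0 ζ hζ)) (hnes ζ hζ)
      exact ((continuous_id.pow e).mul (continuous_id.sub continuous_const)).continuousOn
    have i2 : ∀ i : ℕ, CircleIntegrable (fun ζ => V (α', ζ) * (ζ ^ (i + 1))⁻¹) 0 R := by
      intro i
      refine ContinuousOn.circleIntegrable hR.le (hcV.mul ?_)
      refine ContinuousOn.inv₀ ?_ fun ζ hζ => pow_ne_zero _ (hne0 ζ hζ)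
      exact (continuous_id.pow (i + 1)).continuousOn
    have hsum : (∮ ζ in C(0, R), (ζ - s)⁻¹ • V (α', ζ)) =
        s ^ e * ∮ ζ in C(0, R), V (α', ζ) * (ζ ^ e * (ζ - s))⁻¹ := by
      have h1 : (∮ ζ in C(0, R), (ζ - s)⁻¹ • V (α', ζ)) =
          ∮ ζ in C(0, R), (s ^ e * (V (α', ζ) * (ζ ^ e * (ζ - s))⁻¹) +
            ∑ i ∈ Finset.range e, s ^ i * (V (α', ζ) * (ζ ^ (i + 1))⁻¹)) := by
        refine circleIntegral.integral_congr hR.le fun ζ hζ => ?_
        show (ζ - s)⁻¹ • V (α', ζ) = _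
        rw [parfrac e (hne0 ζ hζ) (hnes ζ hζ), smul_eq_mul, add_mul, Finset.sum_mul]
        congr 1
        · ring
        · exact Finset.sum_congr rfl fun i _ => by ring
      have i3 : CircleIntegrable (fun ζ => s ^ e * (V (α', ζ) * (ζ ^ e * (ζ - s))⁻¹)) 0 R :=
        i1.const_smul (a := s ^ e)
      have i4 : ∀ i : ℕ, CircleIntegrable
          (fun ζ => s ^ i * (V (α', ζ) * (ζ ^ (i + 1))⁻¹)) 0 R := fun i =>
        (i2 i).const_smul (a := s ^ i)
      have h2 : ∀ n ≤ e, CircleIntegrable (fun ζ => ∑ i ∈ Finset.range n,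
            s ^ i * (V (α', ζ) * (ζ ^ (i + 1))⁻¹)) 0 R ∧
          (∮ ζ in C(0, R), ∑ i ∈ Finset.range n,
            s ^ i * (V (α', ζ) * (ζ ^ (i + 1))⁻¹)) = 0 := by
        intro n
        induction n with
        | zero =>
          intro _
          simp [circleIntegral, CircleIntegrable]
        | succ n ih =>
          intro hn
          obtain ⟨a1, a2⟩ := ih (by omega)
          simp only [Finset.sum_range_succ]
          refine ⟨a1.add (i4 n), ?_⟩
          rw [circleIntegral.integral_add a1 (i4 n), a2, circleIntegral.integral_const_mul,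
            hc0 n (by omega) α' hαd]
          simp
      obtain ⟨a1, a2⟩ := h2 e le_rfl
      rw [h1, circleIntegral.integral_add i3 a1, a2, circleIntegral.integral_const_mul, add_zero]
    rw [hsum] at hcauchy
    have hpi : (2 * Real.pi * Complex.I : ℂ) ≠ 0 := by
      simp [Real.pi_ne_zero, Complex.I_ne_zero]
    have hfin : V (α', s) = (2 * Real.pi * Complex.I : ℂ)⁻¹ *
        (s ^ e * ∮ ζ in C(0, R), V (α', ζ) * (ζ ^ e * (ζ - s))⁻¹) := by
      rw [hcauchy, smul_eq_mul, ← mul_assoc, inv_mul_cancel₀ hpi, one_mul]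
    rw [hfin]
    ring

end Pool.Agent.EXT
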