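import Pool.Agent.EXT.ChartT
import Pool.Agent.EXT.DichT
import Pool.Agent.EXT.DivT
import Pool.Agent.EXT.CoreT
import Pool.Agent.EXW.ConclPt
import Pool.Agent.EXK2.Fin
import Pool.Agent.EXG.Gz
import Pool.Agent.EXK.KRe
import Pool.Agent.EXL.Aut

/-!
# EXT / ConclI: order vector `g e_0`, `X 0` divides the leading form

PROOF.  If there are `β'` real, `I β'` independent over `k`, `ε > 0` and `α' = I β'` with growth (`hgrow` of EXW/ConclPt): `concl_pt`. Otherwise choose `β` with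
`I β` independent (`exists_ind_near`); `r0 = τ (a 0)` as in EXV/ConclV; `chartT`: `e, V`. `V(α', 0) = 0` for `α'` near `α = I β`: multiply `F(..) = 0` by
`s^(e d)`, `s → 0`: `(Fc d)(V(α', 0), α') = 0` (proof of EXW/GradV), `= V(α', 0)^a0 R(V(α', 0), α')` and `R(0, α) ≠ 0` (`¬ X 0 ∣ R`, `α` independent).
For independent `α' = I β'` near `α`: `dichT` for `W = V(α', ·)`; first alternative: growth at `α'` (`ζ^e = 1`) or at `-α'` (`ζ^e = -1`:
`x' = (ζ s)^(-e) α' = T (-α')`, `x_0 = (ζ s)^(-e) W(ζ s) = ζ^e s^(-e) W(ζ s)`), `T = s^(-e)`, exactly as in EXV/ConclV: excluded. So `divT` with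
`S = {y | I y independent}` (dense: `exists_ind_near`): `ρ`; `coreT`.
-/

set_option autoImplicit false

namespace Pool.Agent.EXT

open MvPolynomial Pool.Agent.EXL Pool.Agent.EXI Pool.Agent.EXK Pool.Agent.EXG Pool.Agent.EXW Topology
  Filter

private theorem ci_smul {k : Subfield ℂ} {n r : ℕ} {P : MvPolynomial (Fin n) k}
    (hP : P.IsHomogeneous r) (w : Fin n → ℂ) (t : ℂ) :
    aeval (fun j => t * w j) P = t ^ r * aeval w P := by
  rw [aeval_def, aeval_def, eval₂_eq, eval₂_eq, Finset.mul_sum]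
  refine Finset.sum_congr rfl fun d hd => ?_
  have h1 : ∑ i ∈ d.support, d i = r := by
    have h2 := hP (mem_support_iff.1 hd)
    rw [Finsupp.weight_apply] at h2
    simpa [Finsupp.sum] using h2
  simp_rw [mul_pow]
  rw [Finset.prod_mul_distrib, Finset.prod_pow_eq_pow_sum, h1]
  ring

private theorem ci_conj {k : Subfield ℂ} {n : ℕ} (τ : ℂ ≃+* ℂ) (hτ : ∀ c ∈ k, τ c = c)
    (a : Fin n → ℂ) (f : MvPolynomial (Fin n) k) :
    aeval (fun j => τ (a j)) f = τ (aeval a f) := by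
  induction f using MvPolynomial.induction_on with
  | C c =>
    rw [aeval_C, aeval_C]
    exact (hτ _ c.2).symm
  | add p q hp hq => rw [map_add, map_add, map_add, hp, hq]
  | mul_X p i hp => rw [map_mul, map_mul, map_mul, hp, aeval_X, aeval_X]

private theorem ci_cont {k : Subfield ℂ} {n : ℕ} (f : MvPolynomial (Fin n) k) :
    Continuous fun x : Fin n → ℂ => aeval x f := by
  induction f using MvPolynomial.induction_on with
  | C c =>
    simp only [aeval_C]
    exact continuous_const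
  | add p q hp hq =>
    simp only [map_add]
    exact hp.add hq
  | mul_X p i hp =>
    simp only [map_mul, aeval_X]
    exact hp.mul (continuous_apply i)

/-- a polynomial which vanishes at `(0, α)`, `α` independent, is divisible by `X 0` -/
private theorem ci_dvd {k : Subfield ℂ} {m : ℕ} (α : Fin m → ℂ) (hα : AlgebraicIndependent k α)
    (R : MvPolynomial (Fin (m + 1)) k) (h : aeval (Fin.cons 0 α : Fin (m + 1) → ℂ) R = 0) :
    X 0 ∣ R := by
  set q : MvPolynomial (Fin (m + 1)) k →ₐ[k] MvPolynomial (Fin m) k :=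
    aeval (Fin.cons 0 (fun j => X j) : Fin (m + 1) → MvPolynomial (Fin m) k) with hq
  have h1 : ∀ f : MvPolynomial (Fin (m + 1)) k,
      aeval α (q f) = aeval (Fin.cons 0 α : Fin (m + 1) → ℂ) f := by
    intro f
    have h2 : (aeval α).comp q = (aeval (Fin.cons 0 α : Fin (m + 1) → ℂ) :
        MvPolynomial (Fin (m + 1)) k →ₐ[k] ℂ) := by
      apply algHom_ext
      intro j
      rw [AlgHom.comp_apply, hq, aeval_X, aeval_X]
      refine Fin.cases ?_ (fun j => ?_) j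
      · rw [Fin.cons_zero, Fin.cons_zero, map_zero]
      · rw [Fin.cons_succ, Fin.cons_succ, aeval_X]
    exact AlgHom.congr_fun h2 f
  have h3 : ∀ f : MvPolynomial (Fin (m + 1)) k, X 0 ∣ f - rename Fin.succ (q f) := by
    intro f
    induction f using MvPolynomial.induction_on with
    | C c =>
      have h0 : q (C c) = C c := by rw [hq, aeval_C, algebraMap_eq]
      rw [h0, rename_C, sub_self]
      exact dvd_zero _
    | add p r hp hr =>
      rw [map_add, map_add, add_sub_add_comm]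
      exact dvd_add hp hr
    | mul_X p i hp =>
      rw [map_mul, map_mul, hq, aeval_X, ← hq]
      refine Fin.cases ?_ (fun j => ?_) i
      · rw [Fin.cons_zero, map_zero, mul_zero, sub_zero]
        exact dvd_mul_left _ _
      · rw [Fin.cons_succ, rename_X, ← sub_mul]
        exact Dvd.dvd.mul_right hp _
  have h4 : q R = 0 := algebraicIndependent_iff.1 hα _ (by rw [h1, h])
  have h5 := h3 R
  rwa [h4, map_zero, sub_zero] at h5

/-- independence of `- x` -/
private theorem ci_neg {k : Subfield ℂ} {m : ℕ} (x : Fin m → ℂ) (hx : AlgebraicIndependent k x) :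
    AlgebraicIndependent k (fun j => -x j) := by
  rw [algebraicIndependent_iff]
  intro f hf
  set q : MvPolynomial (Fin m) k →ₐ[k] MvPolynomial (Fin m) k := aeval (fun j => -X j) with hq
  have h1 : aeval x (q f) = aeval (fun j => -x j) f := by
    have h2 : (aeval x).comp q = (aeval (fun j => -x j) : MvPolynomial (Fin m) k →ₐ[k] ℂ) := by
      apply algHom_ext
      intro j
      rw [AlgHom.comp_apply, hq, aeval_X, aeval_X, map_neg, aeval_X]
    exact AlgHom.congr_fun h2 f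
  have h3 : q f = 0 := algebraicIndependent_iff.1 hx _ (by rw [h1, hf])
  have h4 : q (q f) = f := by
    have h5 : q.comp q = AlgHom.id k _ := by
      apply algHom_ext
      intro j
      rw [AlgHom.comp_apply, hq, aeval_X, map_neg, aeval_X, neg_neg]
      rfl
    exact AlgHom.congr_fun h5 f
  rw [← h4, h3, map_zero]

/-- the branch vanishes at `s = 0` -/
private theorem ci_zero {k : Subfield ℂ} {m : ℕ} (α : Fin m → ℂ)
    (F : MvPolynomial (Fin (m + 1)) k) (d : ℕ) (Fc : ℕ → MvPolynomial (Fin (m + 1)) k)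
    (hFc : ∀ i, (Fc i).IsHomogeneous i) (hFs : F = ∑ i ∈ Finset.range (d + 1), Fc i)
    (R : MvPolynomial (Fin (m + 1)) k) (a : ℕ) (hL : Fc d = X 0 ^ a * R)
    (e : ℕ) (he : 1 ≤ e) (V : (Fin m → ℂ) × ℂ → ℂ) (hV : ContDiffAt ℂ 1 V (α, 0))
    (hVF : ∀ᶠ p : (Fin m → ℂ) × ℂ in 𝓝 (α, 0), p.2 ≠ 0 →
      aeval (Fin.cons ((p.2⁻¹) ^ e * V p) (fun j => p.1 j * (p.2⁻¹) ^ e) :
        Fin (m + 1) → ℂ) F = 0)
    (hR : aeval (Fin.cons (V (α, 0)) α : Fin (m + 1) → ℂ) R ≠ 0) :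
    ∀ᶠ α' in 𝓝 α, V (α', 0) = 0 := by
  set Y : (Fin m → ℂ) × ℂ → (Fin (m + 1) → ℂ) := fun p => Fin.cons (V p) p.1 with hY
  set Φ : (Fin m → ℂ) × ℂ → ℂ := fun p =>
    ∑ i ∈ Finset.range (d + 1), p.2 ^ (e * (d - i)) * aeval (Y p) (Fc i) with hΦ
  have h1 : ∀ᶠ p : (Fin m → ℂ) × ℂ in 𝓝 (α, 0), p.2 ≠ 0 → Φ p = 0 := by
    filter_upwards [hVF] with p hp hp2
    have h2 := hp hp2
    have h3 : (Fin.cons ((p.2⁻¹) ^ e * V p) (fun j => p.1 j * (p.2⁻¹) ^ e) : Fin (m + 1) → ℂ) =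
        fun i => (p.2⁻¹) ^ e * Y p i := by
      funext i
      refine Fin.cases ?_ (fun i => ?_) i
      · rw [Fin.cons_zero, hY]
        simp only [Fin.cons_zero]
      · rw [Fin.cons_succ, hY]
        simp only [Fin.cons_succ]
        ring
    rw [h3, hFs, map_sum] at h2
    have h4 : ∀ i ∈ Finset.range (d + 1), p.2 ^ (e * (d - i)) * aeval (Y p) (Fc i) =
        p.2 ^ (e * d) * aeval (fun i => (p.2⁻¹) ^ e * Y p i) (Fc i) := by
      intro i hi
      have hid : i ≤ d := Nat.lt_succ_iff.1 (Finset.mem_range.1 hi)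
      rw [ci_smul (hFc i)]
      have h5 : p.2 ^ (e * d) = p.2 ^ (e * (d - i)) * (p.2 ^ e) ^ i := by
        rw [← pow_mul, ← pow_add, ← mul_add]
        congr 2
        omega
      rw [h5, inv_pow]
      have h6 : (p.2 ^ e) ^ i * ((p.2 ^ e)⁻¹ ^ i) = 1 := by
        rw [← mul_pow, mul_inv_cancel₀ (pow_ne_zero _ hp2), one_pow]
      linear_combination (-(p.2 ^ (e * (d - i)) * aeval (Y p) (Fc i))) * h6
    rw [hΦ]
    show ∑ i ∈ Finset.range (d + 1), p.2 ^ (e * (d - i)) * aeval (Y p) (Fc i) = 0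
    rw [Finset.sum_congr rfl h4, ← Finset.mul_sum, h2, mul_zero]
  have h2 : ∀ᶠ p : (Fin m → ℂ) × ℂ in 𝓝 (α, 0), ContinuousAt V p :=
    (hV.eventually (by simp)).mono fun p hp => hp.continuousAt
  have hYc : ∀ p, ContinuousAt V p → ContinuousAt Y p := by
    intro p hp
    rw [hY]
    refine continuousAt_pi.2 fun i => ?_
    refine Fin.cases ?_ (fun i => ?_) i
    · simp only [Fin.cons_zero]
      exact hp
    · simp only [Fin.cons_succ]
      exact ((continuous_apply i).comp continuous_fst).continuousAt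
  have hΦc : ∀ p, ContinuousAt V p → ContinuousAt Φ p := by
    intro p hp
    rw [hΦ]
    refine tendsto_finsetSum _ fun i _ => ?_
    exact (continuous_snd.continuousAt.pow _).mul ((ci_cont (Fc i)).continuousAt.comp (hYc p hp))
  have hi : Filter.Tendsto (fun α' : Fin m → ℂ => (α', (0 : ℂ))) (𝓝 α) (𝓝 (α, 0)) :=
    (Continuous.prodMk continuous_id continuous_const).tendsto _
  have hRc : ∀ᶠ α' in 𝓝 α, aeval (Y (α', 0)) R ≠ 0 := by
    have h3 : ContinuousAt (fun α' : Fin m → ℂ => aeval (Y (α', 0)) R) α := by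
      have h4 : ContinuousAt (fun p => aeval (Y p) R) (α, (0 : ℂ)) :=
        (ci_cont R).continuousAt.comp (hYc _ hV.continuousAt)
      exact ContinuousAt.comp (f := fun α' : Fin m → ℂ => (α', (0 : ℂ))) h4 hi
    exact h3.eventually_ne hR
  filter_upwards [hi.eventually h1.eventually_nhds, hi.eventually h2, hRc] with α' h3 h4 h5
  have h6 : Filter.Tendsto (fun t : ℂ => Φ (α', t)) (𝓝[≠] 0) (𝓝 (Φ (α', 0))) := by
    have h7 : Filter.Tendsto (fun t : ℂ => (α', t)) (𝓝[≠] 0) (𝓝 (α', 0)) :=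
      ((Continuous.prodMk continuous_const continuous_id).tendsto _).mono_left nhdsWithin_le_nhds
    exact (hΦc _ h4).tendsto.comp h7
  have h8 : Filter.Tendsto (fun t : ℂ => Φ (α', t)) (𝓝[≠] 0) (𝓝 0) := by
    have h7 : Filter.Tendsto (fun t : ℂ => (α', t)) (𝓝[≠] 0) (𝓝 (α', 0)) :=
      ((Continuous.prodMk continuous_const continuous_id).tendsto _).mono_left nhdsWithin_le_nhds
    refine tendsto_const_nhds.congr' ?_
    filter_upwards [h7.eventually h3, eventually_mem_nhdsWithin] with t h9 h10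
    exact (h9 h10).symm
  have h9 : Φ (α', 0) = 0 := tendsto_nhds_unique h6 h8
  have h10 : Φ (α', 0) = aeval (Y (α', 0)) (Fc d) := by
    rw [hΦ]
    show ∑ i ∈ Finset.range (d + 1), (0 : ℂ) ^ (e * (d - i)) * aeval (Y (α', 0)) (Fc i) = _
    rw [Finset.sum_range_succ, Nat.sub_self, mul_zero, pow_zero, one_mul, Finset.sum_eq_zero,
      zero_add]
    intro i hi
    have hid := Finset.mem_range.1 hi
    rw [zero_pow, zero_mul]
    exact Nat.mul_ne_zero (by omega) (by omega)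
  rw [h10, hL, map_mul, map_pow, aeval_X] at h9
  rcases mul_eq_zero.1 h9 with h11 | h11
  · by_contra hne
    exact pow_ne_zero a hne h11
  · exact absurd h11 h5

/-- the first alternative of `dichT` gives growth over `T α'` or `- T α'` -/
private theorem ci_grow {k : Subfield ℂ} {m : ℕ} (F : MvPolynomial (Fin (m + 1)) k)
    (y : Fin m → ℝ) (e : ℕ) (he : 1 ≤ e) (V : (Fin m → ℂ) × ℂ → ℂ)
    (hVF : ∀ᶠ p : (Fin m → ℂ) × ℂ in 𝓝 ((fun j => Complex.I * (y j : ℂ)), 0), p.2 ≠ 0 →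
      aeval (Fin.cons ((p.2⁻¹) ^ e * V p) (fun j => p.1 j * (p.2⁻¹) ^ e) :
        Fin (m + 1) → ℂ) F = 0)
    (ε : ℝ) (ζ : ℂ) (κ : ℝ) (hκ : κ * κ = 1) (hζ : ζ ^ e = κ)
    (hgr : ∀ᶠ s : ℝ in 𝓝[>] 0, (ζ ^ e * ((s : ℂ)⁻¹) ^ e *
      V ((fun j => Complex.I * (y j : ℂ)), ζ * s)).re ≤
        -(s⁻¹) ^ ε * (1 + ‖V ((fun j => Complex.I * (y j : ℂ)), ζ * s)‖)) :
    ∃ᶠ T : ℝ in atTop, ∃ x : ℂ,
      aeval (Fin.cons x (fun j : Fin m => (T : ℂ) * (Complex.I * ((κ * y j : ℝ) : ℂ))) :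
        Fin (m + 1) → ℂ) F = 0 ∧ x.re ≤ -T ^ (ε / e) * (1 + ‖x‖ / T) := by
  have hκ0 : κ ≠ 0 := by
    rintro rfl
    simp at hκ
  have hκC : (κ : ℂ) * κ = 1 := by exact_mod_cast hκ
  have hκinv : ((κ : ℂ))⁻¹ = κ := by
    rw [inv_eq_iff_eq_inv, eq_comm, inv_eq_of_mul_eq_one_right hκC]
  have hκn : ‖(κ : ℂ)‖ = 1 := by
    rw [Complex.norm_real, Real.norm_eq_abs]
    have h1 : |κ| * |κ| = 1 := by rw [← abs_mul, hκ, abs_one]
    nlinarith [abs_nonneg κ]
  have hζ0 : ζ ≠ 0 := by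
    rintro rfl
    rw [zero_pow (by omega)] at hζ
    exact hκ0 (by exact_mod_cast hζ.symm)
  have he0 : (0 : ℝ) < e := by exact_mod_cast he
  apply Eventually.frequently
  -- `s = T ^ (-1 / e)`
  have hs0 : Tendsto (fun T : ℝ => T ^ (-(1 / (e : ℝ)))) atTop (𝓝[>] 0) := by
    rw [tendsto_nhdsWithin_iff]
    refine ⟨tendsto_rpow_neg_atTop (by positivity), ?_⟩
    filter_upwards [eventually_gt_atTop 0] with T hT
    exact Real.rpow_pos_of_pos hT _
  set α : Fin m → ℂ := fun j => Complex.I * (y j : ℂ) with hα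
  have hchart : ∀ᶠ s : ℝ in 𝓝[>] 0, s ≠ 0 ∧
      aeval (Fin.cons ((((ζ * (s : ℂ)))⁻¹) ^ e * V (α, ζ * (s : ℂ)))
        (fun j => α j * ((ζ * (s : ℂ))⁻¹) ^ e) : Fin (m + 1) → ℂ) F = 0 := by
    have h1 : Tendsto (fun s : ℝ => ((α, ζ * (s : ℂ)) : (Fin m → ℂ) × ℂ)) (𝓝[>] 0)
        (𝓝 (α, 0)) := by
      have h2 : Continuous (fun s : ℝ => ((α, ζ * (s : ℂ)) : (Fin m → ℂ) × ℂ)) := by
        fun_prop
      have h3 := h2.tendsto 0
      simp only [Complex.ofReal_zero, mul_zero] at h3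
      exact h3.mono_left nhdsWithin_le_nhds
    filter_upwards [h1.eventually hVF, self_mem_nhdsWithin] with s hs hs'
    have hs0 : (s : ℂ) ≠ 0 := by
      exact_mod_cast (ne_of_gt hs')
    exact ⟨ne_of_gt hs', hs (mul_ne_zero hζ0 hs0)⟩
  filter_upwards [hs0.eventually hgr, hs0.eventually hchart, eventually_gt_atTop 0]
    with T h1 h2 hT
  obtain ⟨hs, h2⟩ := h2
  set s : ℝ := T ^ (-(1 / (e : ℝ))) with hsdef
  have hsinv : s⁻¹ = T ^ (1 / (e : ℝ)) := by
    rw [hsdef, Real.rpow_neg hT.le, inv_inv]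
  have hse : s⁻¹ ^ e = T := by
    rw [hsinv, ← Real.rpow_natCast, ← Real.rpow_mul hT.le, one_div_mul_cancel he0.ne',
      Real.rpow_one]
  have hseC : ((s : ℂ)⁻¹) ^ e = (T : ℂ) := by
    rw [← hse]
    push_cast
    rfl
  have hζs : ((ζ * (s : ℂ))⁻¹) ^ e = (κ : ℂ) * T := by
    rw [mul_inv, mul_pow, inv_pow, hζ, hκinv, hseC]
  refine ⟨(κ : ℂ) * T * V (α, ζ * s), ?_, ?_⟩
  · rw [hζs] at h2
    rw [← h2]
    congr 2
    funext j
    refine Fin.cases ?_ (fun j => ?_) j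
    · rw [Fin.cons_zero, Fin.cons_zero]
    · rw [Fin.cons_succ, Fin.cons_succ, hα]
      push_cast
      ring
  · rw [hseC, hζ] at h1
    have h3 : ‖(κ : ℂ) * T * V (α, ζ * s)‖ / T = ‖V (α, ζ * s)‖ := by
      rw [norm_mul, norm_mul, hκn, one_mul, Complex.norm_real, Real.norm_of_nonneg hT.le,
        mul_div_cancel_left₀ _ hT.ne']
    have h4 : s⁻¹ ^ ε = T ^ (ε / e) := by
      rw [hsinv, ← Real.rpow_mul hT.le]
      congr 1
      ring
    rw [h3, ← h4]
    exact h1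

theorem concl_I (k : Subfield ℂ) (hk : (k : Set ℂ).Countable) {m : ℕ} (hm : 1 ≤ m)
    (a b : Fin (m + 1) → ℂ) (hb : ∀ j, b j ≠ 0) (F : MvPolynomial (Fin (m + 1)) k) (hF0 : F ≠ 0)
    (hF : ∀ f : MvPolynomial (Fin (m + 1)) k, aeval a f = 0 ↔ F ∣ f)
    (htd : td (k : Set ℂ) (Sum.elim a b) = m + 1) (hta : td (k : Set ℂ) a = m)
    (ha : AlgebraicIndependent k (fun j : Fin m => a j.succ))
    (d : ℕ) (Fc : ℕ → MvPolynomial (Fin (m + 1)) k) (hFc : ∀ i, (Fc i).IsHomogeneous i)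
    (hFs : F = ∑ i ∈ Finset.range (d + 1), Fc i)
    (R : MvPolynomial (Fin (m + 1)) k) (a0 : ℕ) (ha0 : 1 ≤ a0)
    (hL : Fc d = X 0 ^ a0 * R) (hR : ¬ X 0 ∣ R)
    (hirr : Irreducible (map (algebraMap k ℂ) F))
    (hnl : ∀ c κ : ℂ, map (algebraMap k ℂ) F ≠ C c * (X 0 - C κ))
    (hfib : ∀ x : Fin (m + 1) → ℂ, AlgebraicIndependent k (fun j : Fin m => x j.succ) →
      aeval x F = 0 → ∃ Q : Ideal (MvPolynomial (Fin (m + 1)) ℂ), Q.IsPrime ∧
      (∀ j : Fin (m + 1), (X j : MvPolynomial (Fin (m + 1)) ℂ) ∉ Q) ∧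
      Algebra.trdeg ℂ (MvPolynomial (Fin (m + 1)) ℂ ⧸ Q) = 1 ∧
      (∀ e : ℂ, (X 0 - C e : MvPolynomial (Fin (m + 1)) ℂ) ∉ Q) ∧
      ∀ w : Fin (m + 1) → ℂ, (∀ g ∈ Q, eval w g = 0) → Spec k (Sum.elim a b) (Sum.elim x w))
    (K : IntermediateField k ℂ)
    (hfg : ∃ S : Finset K, IntermediateField.adjoin k (S : Set K) = ⊤)
    (htr : ∀ y : Fin (m + 2) → K, ¬ AlgebraicIndependent k y) (pl : Place k K)
    (A B : Fin (m + 1) → pl.O) (hA : ∀ j, ((A j : K) : ℂ) = a j)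
    (hB : ∀ j, ((B j : K) : ℂ) = b j)
    (hρ0 : pl.ρ (B 0) = 0) (hρ1 : ∀ j : Fin m, pl.ρ (B j.succ) ≠ 0)
    (hrel : ∀ f : MvPolynomial (Fin (m + 1)) k, aeval (fun j => pl.ρ (A j)) f = 0 ↔ aeval a f = 0)
    (h : MvPolynomial (Fin (m + 1) ⊕ Fin (m + 1)) k) (hh : aeval (Sum.elim a b) h ≠ 0) :
    ∃ a' b' : Fin (m + 1) → ℂ, (∀ j, b' j = Complex.exp (a' j)) ∧
      Spec k (Sum.elim a b) (Sum.elim a' b') ∧ aeval (Sum.elim a' b') h ≠ 0 := by
  classical
  by_cases hg : ∃ (y : Fin m → ℝ) (ε : ℝ), AlgebraicIndependent k (fun j => Complex.I * (y j : ℂ)) ∧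
      0 < ε ∧ ∃ᶠ T : ℝ in atTop, ∃ x : ℂ,
        aeval (Fin.cons x (fun j : Fin m => (T : ℂ) * (Complex.I * (y j : ℂ))) :
          Fin (m + 1) → ℂ) F = 0 ∧ x.re ≤ -T ^ ε * (1 + ‖x‖ / T)
  · obtain ⟨y, ε, hy, hε, hgrow⟩ := hg
    exact concl_pt k hk a b hb F hF htd ha K hfg htr pl A B hA hB hρ0 hρ1 hrel
      (fun j => Complex.I * (y j : ℂ)) hy (fun j => by simp) ε hε hgrow h hh
  have hR0 : R ≠ 0 := by
    rintro rfl
    exact hR (dvd_zero _)
  have hFd : Fc d ≠ 0 := by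
    rw [hL]
    exact mul_ne_zero (pow_ne_zero _ (X_ne_zero 0)) hR0
  obtain ⟨β, -, hβ⟩ := exists_ind_near k hk (fun _ : Fin m => (0 : ℝ)) 1 one_pos
  set α : Fin m → ℂ := fun j => Complex.I * (β j : ℂ) with hα
  have hroot : aeval (Fin.cons 0 α : Fin (m + 1) → ℂ) (Fc d) = 0 := by
    rw [hL, map_mul, map_pow, aeval_X, Fin.cons_zero, zero_pow (by omega), zero_mul]
  have hRα : aeval (Fin.cons 0 α : Fin (m + 1) → ℂ) R ≠ 0 := fun h1 => hR (ci_dvd α hβ R h1)
  -- a generic point over `α`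
  obtain ⟨τ, hτ, hτ'⟩ := exists_aut k hk (fun j : Fin m => a j.succ) α (by
    intro f
    constructor
    · intro hf
      rw [algebraicIndependent_iff.1 ha f hf, map_zero]
    · intro hf
      rw [algebraicIndependent_iff.1 hβ f hf, map_zero])
  have hr0 : ∀ f : MvPolynomial (Fin (m + 1)) k,
      aeval (Fin.cons (τ (a 0)) α : Fin (m + 1) → ℂ) f = 0 ↔ F ∣ f := by
    intro f
    have h1 : (Fin.cons (τ (a 0)) α : Fin (m + 1) → ℂ) = fun j => τ (a j) := by
      funext j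
      refine Fin.cases ?_ (fun j => ?_) j
      · rw [Fin.cons_zero]
      · rw [Fin.cons_succ, hτ']
    rw [h1, ci_conj τ hτ, ← hF f]
    exact map_eq_zero_iff τ τ.injective
  obtain ⟨e, V, he, hV, hV0, hVF⟩ := chartT k α hβ F (τ (a 0)) hr0 d Fc hFc hFs hFd hroot
    ⟨0, hm⟩
  have hVz := ci_zero α F d Fc hFc hFs R a0 hL e he V hV hVF (by rw [hV0]; exact hRα)
  -- bounded for all independent points near `β`
  have hi : Tendsto (fun α' : Fin m → ℂ => (α', (0 : ℂ))) (𝓝 α) (𝓝 (α, 0)) :=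
    (Continuous.prodMk continuous_id continuous_const).tendsto _
  have hI : Tendsto (fun y : Fin m → ℝ => (fun j => Complex.I * (y j : ℂ) : Fin m → ℂ)) (𝓝 β)
      (𝓝 α) := by
    have h1 : Continuous (fun y : Fin m → ℝ => (fun j => Complex.I * (y j : ℂ) : Fin m → ℂ)) := by
      fun_prop
    exact h1.tendsto β
  have hVc : ∀ᶠ p : (Fin m → ℂ) × ℂ in 𝓝 (α, 0), ContDiffAt ℂ 1 V p := hV.eventually (by simp)
  have hbd : ∀ᶠ y : Fin m → ℝ in 𝓝 β,
      y ∈ {y : Fin m → ℝ | AlgebraicIndependent k (fun j => Complex.I * (y j : ℂ))} →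
      ∃ C : ℝ, ∀ᶠ s : ℂ in 𝓝 0, ‖V ((fun j => Complex.I * (y j : ℂ)), s)‖ ≤ C * ‖s‖ ^ e := by
    filter_upwards [hI.eventually (hi.eventually hVF.eventually_nhds), hI.eventually hVz,
      hI.eventually (hi.eventually hVc)] with y h1 h2 h3 hy
    have hy' : AlgebraicIndependent k (fun j => Complex.I * (y j : ℂ)) := hy
    set W : ℂ → ℂ := fun s => V ((fun j => Complex.I * (y j : ℂ)), s) with hW
    have hWan : AnalyticAt ℂ W 0 := by
      rw [Complex.analyticAt_iff_eventually_differentiableAt]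
      have h4 : ContDiffAt ℂ 1 W 0 := by
        have h5 : ContDiffAt ℂ 1
            (fun s : ℂ => (((fun j => Complex.I * (y j : ℂ)), s) : (Fin m → ℂ) × ℂ)) 0 :=
          contDiffAt_const.prodMk contDiffAt_id
        exact ContDiffAt.comp (0 : ℂ) h3 h5
      have h6 := h4.eventually (by simp)
      exact h6.mono fun s hs => hs.differentiableAt (by simp)
    rcases dichT e he W hWan h2 with ⟨ε, ζ, hε, hζ, hgr⟩ | h4
    · exfalso
      apply hg
      have he0 : (0 : ℝ) < e := by exact_mod_cast he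
      rcases hζ with hζ | hζ
      · refine ⟨y, ε / e, hy', div_pos hε he0, ?_⟩
        have h5 := ci_grow F y e he V h1 ε ζ 1 (by norm_num) (by rw [hζ]; simp) hgr
        simpa only [one_mul] using h5
      · refine ⟨fun j => -y j, ε / e, ?_, div_pos hε he0, ?_⟩
        · have h5 := ci_neg _ hy'
          have h6 : (fun j => Complex.I * ((-y j : ℝ) : ℂ)) =
              fun j => -(Complex.I * (y j : ℂ)) := by
            funext j
            push_cast
            ring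
          rw [h6]
          exact h5
        · have h5 := ci_grow F y e he V h1 ε ζ (-1) (by norm_num) (by rw [hζ]; simp) hgr
          simpa only [neg_one_mul] using h5
    · exact h4
  obtain ⟨δ, ρ, hδ, hρ, hρV⟩ := divT e β V hV
    {y : Fin m → ℝ | AlgebraicIndependent k (fun j => Complex.I * (y j : ℂ))} (by
      intro y δ hδ
      obtain ⟨z, h1, h2⟩ := exists_ind_near k hk y δ hδ
      exact ⟨z, h2, h1⟩) hbd
  obtain ⟨δ₂, hδ₂, hball⟩ := Metric.eventually_nhds_iff_ball.1 (hVF.and hVc)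
  set δ' : ℝ := min δ δ₂ with hδ'
  have hδ'0 : 0 < δ' := lt_min hδ hδ₂
  have hmem : ∀ α' ∈ Metric.ball α δ', ∀ s ∈ Metric.ball (0 : ℂ) δ',
      (α', s) ∈ Metric.ball ((α, 0) : (Fin m → ℂ) × ℂ) δ₂ := by
    intro α' hα' s hs
    rw [← ball_prod_same]
    exact ⟨Metric.ball_subset_ball (min_le_right _ _) hα',
      Metric.ball_subset_ball (min_le_right _ _) hs⟩
  obtain ⟨x, hx1, hx2⟩ := coreT k hk a b hb F hF0 hF htd ha hirr hnl hfib β δ' hδ'0 e he ρ
    (hρ.mono (Set.prod_mono (Metric.ball_subset_ball (min_le_left _ _))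
      (Metric.ball_subset_ball (min_le_left _ _)))) (by
      intro α' hα' s hs hs0
      have h1 : ContDiffAt ℂ 1 V (α', s) := (hball _ (hmem α' hα' s hs)).2
      have h2 : ContDiffAt ℂ 1 (fun q : (Fin m → ℂ) × ℂ => (q.2 ^ e)⁻¹ * V q) (α', s) :=
        ((contDiffAt_snd.pow e).inv (pow_ne_zero e hs0)).mul h1
      refine h2.congr_of_eventuallyEq ?_
      have h3 : ∀ᶠ q : (Fin m → ℂ) × ℂ in 𝓝 (α', s), q ∈ Metric.ball α δ' ×ˢ Metric.ball (0 : ℂ) δ' :=
        (Metric.isOpen_ball.prod Metric.isOpen_ball).mem_nhds ⟨hα', hs⟩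
      have h4 : ∀ᶠ q : (Fin m → ℂ) × ℂ in 𝓝 (α', s), q.2 ≠ 0 :=
        continuousAt_snd.eventually_ne hs0
      filter_upwards [h3, h4] with q hq hq0
      have h5 := hρV q.1 (Metric.ball_subset_ball (min_le_left _ _) hq.1) q.2
        (Metric.ball_subset_ball (min_le_left _ _) hq.2)
      show ρ q.1 q.2 = (q.2 ^ e)⁻¹ * V q
      rw [show V q = q.2 ^ e * ρ q.1 q.2 from h5, inv_mul_cancel_left₀ (pow_ne_zero e hq0)]) (by
      intro α' hα' s hs hs0
      have h2 := (hball _ (hmem α' hα' s hs)).1 hs0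
      rw [← h2]
      congr 2
      funext j
      refine Fin.cases ?_ (fun j => ?_) j
      · rw [Fin.cons_zero, Fin.cons_zero, hρV α' (Metric.ball_subset_ball (min_le_left _ _) hα') s
          (Metric.ball_subset_ball (min_le_left _ _) hs), ← mul_assoc, ← mul_pow,
          inv_mul_cancel₀ hs0, one_pow, one_mul]
      · rw [Fin.cons_succ, Fin.cons_succ, mul_comm]) h hh
  exact ⟨x, fun j => Complex.exp (x j), fun j => rfl, hx1, hx2⟩

end Pool.Agent.EXT
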