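import Pool.Agent.EXV.Defs
import Pool.Agent.EXT.ConclI
import Pool.Agent.EXZ.FibreZ
import Pool.Agent.EXK2.Fin
import Pool.Agent.EXG.Gz
import Pool.Agent.EXP.Main

/-!
# EXT / AdT: order vector `g e_0`, `X 0` divides the leading form

PROOF.  As EXV/MainAd with `G = X 0` (`P = {one coordinate}`): `exists_generic2`, descent, `exists_pl_of_val`, `fibre_curveZ` for `i = 0`, `concl_I`.
`m ≥ 1`: for `m = 0` `F` is a polynomial in one variable, irreducible (`P` prime, `hF`: `F` is prime), so linear: against `hnl`.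
-/

set_option autoImplicit false

namespace Pool.Agent.EXT

open MvPolynomial Pool.Agent.EXV Pool.Agent.EXL Pool.Agent.EXI Pool.Agent.EXK Pool.Agent.EXG Pool.Agent.EXZ

private lemma aeval_eq (k : Subfield ℂ) {ι : Type} (x : ι → ℂ) (f : MvPolynomial ι k) :
    aeval x f = eval x (map (algebraMap k ℂ) f) := by
  rw [eval_map, aeval_def]

private lemma map_hc (k : Subfield ℂ) {ι : Type} (i : ℕ) (f : MvPolynomial ι k) :
    map (algebraMap k ℂ) (homogeneousComponent i f) =
      homogeneousComponent i (map (algebraMap k ℂ) f) := by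
  ext d
  rw [coeff_map, coeff_homogeneousComponent, coeff_homogeneousComponent, coeff_map]
  split_ifs with h
  · rfl
  · exact map_zero _

private lemma tdeg_map (k : Subfield ℂ) {ι : Type} (f : MvPolynomial ι k) :
    (map (algebraMap k ℂ) f).totalDegree = f.totalDegree := by
  rw [totalDegree, totalDegree, support_map_of_injective f (algebraMap k ℂ).injective]

private theorem fg_adjoin (k : Subfield ℂ) {ι : Type} [Fintype ι] (z : ι → ℂ) :
    ∃ S : Finset (IntermediateField.adjoin k (Set.range z)),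
      IntermediateField.adjoin k (S : Set (IntermediateField.adjoin k (Set.range z))) = ⊤ := by
  classical
  set K := IntermediateField.adjoin k (Set.range z) with hK
  have hz : ∀ i, z i ∈ K := fun i => IntermediateField.subset_adjoin k _ ⟨i, rfl⟩
  refine ⟨Finset.univ.image (fun i => (⟨z i, hz i⟩ : K)), ?_⟩
  rw [eq_top_iff]
  intro x _
  set L := IntermediateField.adjoin k
    ((Finset.univ.image (fun i => (⟨z i, hz i⟩ : K)) : Finset K) : Set K) with hL
  have h1 : K ≤ L.map K.val := by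
    refine IntermediateField.adjoin_le_iff.2 ?_
    rintro _ ⟨i, rfl⟩
    refine ⟨⟨z i, hz i⟩, ?_, rfl⟩
    apply IntermediateField.subset_adjoin
    simp
  obtain ⟨y, hy, hyx⟩ := h1 x.2
  have : y = x := Subtype.ext hyx
  rw [← this]
  exact hy

private lemma hc_ne {ι : Type} (f : MvPolynomial ι ℂ) (hf : f ≠ 0) :
    homogeneousComponent f.totalDegree f ≠ 0 := by
  obtain ⟨b, hb, hd⟩ := f.support.exists_mem_eq_sup
    (support_nonempty.2 hf) (fun s => s.sum fun _ e => e)
  intro h0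
  have h1 := congrArg (coeff b) h0
  rw [coeff_homogeneousComponent, coeff_zero] at h1
  have h2 : b.degree = f.totalDegree := by
    rw [totalDegree, hd]
    rfl
  rw [if_pos h2] at h1
  exact (mem_support_iff.1 hb) h1

private lemma lin_one (F : MvPolynomial (Fin 1) ℂ) (hF : Irreducible F) :
    ∃ c κ : ℂ, F = C c * (X 0 - C κ) := by
  have h1 : Irreducible (uniqueAlgEquiv ℂ (Fin 1) F) :=
    (MulEquiv.irreducible_iff (uniqueAlgEquiv ℂ (Fin 1)).toMulEquiv).2 hF
  have h2 := IsAlgClosed.degree_eq_one_of_irreducible ℂ h1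
  have h3 := Polynomial.eq_X_add_C_of_degree_eq_one h2
  set a := (uniqueAlgEquiv ℂ (Fin 1) F).leadingCoeff with ha
  set b := (uniqueAlgEquiv ℂ (Fin 1) F).coeff 0 with hb
  have ha0 : a ≠ 0 := by
    rw [ha, Ne, Polynomial.leadingCoeff_eq_zero]
    exact h1.ne_zero
  refine ⟨a, -(b / a), (uniqueAlgEquiv ℂ (Fin 1)).injective ?_⟩
  rw [h3, map_mul, map_sub]
  have hC : ∀ c : ℂ, uniqueAlgEquiv ℂ (Fin 1) (C c) = Polynomial.C c := by
    intro c
    show eval₂ _ _ (C c) = _
    rw [eval₂_C]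
  have hX : uniqueAlgEquiv ℂ (Fin 1) (X 0) = Polynomial.X := by
    show eval₂ _ _ (X 0) = _
    rw [eval₂_X]
  rw [hC, hC, hX, mul_sub, ← Polynomial.C_mul, mul_neg, mul_div_cancel₀ _ ha0, Polynomial.C_neg,
    sub_neg_eq_add]

theorem mainI {m : ℕ}
    (P : Ideal (MvPolynomial (Fin (m + 1) ⊕ Fin (m + 1)) ℂ)) (F : MvPolynomial (Fin (m + 1)) ℂ)
    (w : Valuation (MvPolynomial (Fin (m + 1) ⊕ Fin (m + 1)) ℂ) (WithZero (Multiplicative ℤ)))
    (v : Fin (m + 1) → ℤ) (hD : Dat P F w v) (hv0 : 0 < v 0) (hv1 : ∀ j : Fin m, v j.succ = 0)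
    (hX : X 0 ∣ homogeneousComponent F.totalDegree F)
    (hnl : ∀ c κ : ℂ, F ≠ C c * (X 0 - C κ)) :
    Dense P := by
  classical
  obtain ⟨hP, hY, hdim, hF0, hF, hw, hwx, hwv⟩ := hD
  have hFp : Prime F := by
    refine ⟨hF0, ?_, ?_⟩
    · intro hu
      apply hP.ne_top
      rw [Ideal.eq_top_iff_one]
      have h1 := (hF 1).2 hu.dvd
      rwa [map_one] at h1
    · intro f g hfg
      have h1 := (hF _).2 hfg
      rw [map_mul] at h1
      rcases hP.mem_or_mem h1 with h2 | h2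
      · exact Or.inl ((hF f).1 h2)
      · exact Or.inr ((hF g).1 h2)
  obtain ⟨m, rfl⟩ | rfl : (∃ m', m = m' + 1) ∨ m = 0 := by
    rcases m with _ | m
    · exact Or.inr rfl
    · exact Or.inl ⟨m, rfl⟩
  swap
  · obtain ⟨c, κ, h1⟩ := lin_one F hFp.irreducible
    exact absurd h1 (hnl c κ)
  intro h hh
  have hvn : v ≠ 0 := by
    rintro rfl
    exact absurd hv0 (by simp)
  have hX0 : Irreducible (X 0 : MvPolynomial (Fin (m + 1 + 1)) ℂ) := X_prime.irreducible
  have hL0 := hc_ne F hF0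
  obtain ⟨R, hL, hGR⟩ := (FiniteMultiplicity.of_not_isUnit hX0.not_isUnit
    hL0).exists_eq_pow_mul_and_not_dvd
  have ha0 : 1 ≤ multiplicity (X 0) (homogeneousComponent F.totalDegree F) := by
    by_contra h0
    have h1 : multiplicity (X 0) (homogeneousComponent F.totalDegree F) = 0 := by omega
    rw [h1, pow_zero, one_mul] at hL
    apply hGR
    rw [← hL]
    exact hX
  generalize multiplicity (X 0) (homogeneousComponent F.totalDegree F) = a0 at hL ha0
  have hR : R ≠ 0 := by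
    rintro rfl
    exact hGR (dvd_zero _)
  obtain ⟨k, hk, p, hC, hp, hx⟩ := exists_generic2 P hP
    (((h.coeffs : Set ℂ) ∪ (F.coeffs : Set ℂ)) ∪ ((R.coeffs : Set ℂ) ∪ {Complex.I}))
    (((Finset.countable_toSet _).union (Finset.countable_toSet _)).union
      ((Finset.countable_toSet _).union (Set.countable_singleton _)))
  obtain ⟨h₀, hh₀⟩ := exists_descent k h (fun c hc => hC (Or.inl (Or.inl hc)))
  obtain ⟨F₀, hF₀⟩ := exists_descent k F (fun c hc => hC (Or.inl (Or.inr hc)))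
  obtain ⟨R₀, hR₀⟩ := exists_descent k R (fun c hc => hC (Or.inr (Or.inl hc)))
  have hinj : Function.Injective (map (algebraMap k ℂ) :
      MvPolynomial (Fin (m + 1 + 1)) k → MvPolynomial (Fin (m + 1 + 1)) ℂ) :=
    map_injective _ (algebraMap k ℂ).injective
  have hpe : Sum.elim (fun j => p (Sum.inl j)) (fun j => p (Sum.inr j)) = p := by
    funext i
    rcases i with i | i <;> rfl
  have hb : ∀ j, p (Sum.inr j) ≠ 0 := by
    intro j h0
    apply hY j
    have h2 := (hp (X (Sum.inr j))).1 (by rw [aeval_X, h0])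
    rwa [map_X] at h2
  have hk0 : F₀ ≠ 0 := by
    rintro rfl
    rw [map_zero] at hF₀
    exact hF0 hF₀.symm
  have hker : ∀ f : MvPolynomial (Fin (m + 1 + 1)) k,
      aeval (fun j => p (Sum.inl j)) f = 0 ↔ F₀ ∣ f := by
    intro f
    have h1 : aeval (fun j => p (Sum.inl j)) f = aeval p (rename Sum.inl f) := by
      rw [aeval_rename]
      rfl
    rw [h1, hp, map_rename, hF, ← hF₀]
    exact ⟨dvd_of_map k F₀ f, fun h2 => map_dvd (map (algebraMap k ℂ)) h2⟩
  have htd := td_of_trdeg P hP k hk p hp hx (m + 1 + 1) hdim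
  have hta := td_of_ker k (fun j => p (Sum.inl j)) F₀ hk0 hker
  -- the leading form
  have hL₀ : homogeneousComponent F₀.totalDegree F₀ = X 0 ^ a0 * R₀ := by
    apply hinj
    rw [map_mul, map_pow, map_X, map_hc, ← tdeg_map, hF₀, hR₀, hL]
  have hGR₀ : ¬ X 0 ∣ R₀ := by
    intro hd
    apply hGR
    rw [← hR₀]
    have h1 := map_dvd (map (algebraMap k ℂ)) hd
    rwa [map_X] at h1
  have hirr₀ : Irreducible (map (algebraMap k ℂ) F₀) := by
    rw [hF₀]
    exact hFp.irreducible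
  have hnl₀ : ∀ c κ : ℂ, map (algebraMap k ℂ) F₀ ≠ C c * (X 0 - C κ) := by
    rw [hF₀]
    exact hnl
  -- independence of `a_1, .., a_m`
  have hdegG : 0 < degreeOf 0 (X 0 : MvPolynomial (Fin (m + 1 + 1)) ℂ) := by
    rw [degreeOf_X, if_pos rfl]
    exact one_pos
  have hLL : homogeneousComponent F.totalDegree F = X 0 * (X 0 ^ (a0 - 1) * R) := by
    obtain ⟨s, rfl⟩ : ∃ s, a0 = s + 1 := ⟨a0 - 1, by omega⟩
    rw [hL, Nat.add_sub_cancel, pow_succ]
    ring
  have hdeg : 0 < degreeOf 0 F := EXP.degreeOf_pos_of_top F (X 0) _ hF0 hdegG hLL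
  have ha : AlgebraicIndependent k (fun j : Fin (m + 1) => p (Sum.inl j.succ)) := by
    rw [algebraicIndependent_iff]
    intro f hf
    by_contra hf0
    have h1 : aeval (fun j => p (Sum.inl j)) (rename Fin.succ f) = 0 := by
      rw [aeval_rename]
      exact hf
    have h2 := (hker _).1 h1
    have h3 : F ∣ rename Fin.succ (map (algebraMap k ℂ) f) := by
      rw [← hF₀, ← map_rename]
      exact map_dvd (map (algebraMap k ℂ)) h2
    refine EXP.not_dvd_rename F hdeg (map (algebraMap k ℂ) f) ?_ h3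
    intro h4
    apply hf0
    exact map_injective _ (algebraMap k ℂ).injective (by rw [h4, map_zero])
  have hfib : ∀ x : Fin (m + 1 + 1) → ℂ, AlgebraicIndependent k (fun j : Fin (m + 1) => x j.succ) →
      aeval x F₀ = 0 → ∃ Q : Ideal (MvPolynomial (Fin (m + 1 + 1)) ℂ), Q.IsPrime ∧
      (∀ j : Fin (m + 1 + 1), (X j : MvPolynomial (Fin (m + 1 + 1)) ℂ) ∉ Q) ∧
      Algebra.trdeg ℂ (MvPolynomial (Fin (m + 1 + 1)) ℂ ⧸ Q) = 1 ∧
      (∀ e : ℂ, (X 0 - C e : MvPolynomial (Fin (m + 1 + 1)) ℂ) ∉ Q) ∧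
      ∀ w : Fin (m + 1 + 1) → ℂ, (∀ g ∈ Q, eval w g = 0) →
        Spec k (Sum.elim (fun j => p (Sum.inl j)) (fun j => p (Sum.inr j))) (Sum.elim x w) := by
    intro x hx' hxF
    obtain ⟨Q, hQ, hQY, hQd, hQe, hQw⟩ := fibre_curveZ P hP hY hdim F hF0 hF w hw hwx v hwv
      0 hv0.ne' k hk p hp hx x (by
        intro f
        rw [hker f]
        exact gen_zero k F₀ hk0 (fun j => p (Sum.inl j)) hker ha x hx' hxF f)
    refine ⟨Q, hQ, hQY, hQd, hQe, ?_⟩
    intro w hw
    rw [hpe]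
    intro f hf
    rw [aeval_eq]
    exact hQw w hw _ ((hp f).1 hf)
  -- the place
  obtain ⟨pl, A, B, v', g, θ, hg, hvg, hA, hB, hθ, hrel, hε⟩ := EXK2.exists_pl_of_val k hk P w hw
    (fun f hf => hwx f fun hd => hf ((hF f).2 hd)) v hvn hwv (fun j => p (Sum.inl j))
    (fun j => p (Sum.inr j)) (by rw [hpe]; exact hp)
  have hv'0 : 0 < v' 0 := by
    have h1 := hvg 0
    rw [h1] at hv0
    by_contra h2
    push Not at h2
    nlinarith
  have hv'1 : ∀ j : Fin (m + 1), v' j.succ = 0 := by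
    intro j
    have h1 := hvg j.succ
    rw [hv1] at h1
    rcases mul_eq_zero.1 h1.symm with h2 | h2
    · exact absurd h2 hg.ne'
    · exact h2
  have hBm : ∀ j, ∃ B' : pl.O, (B' : IntermediateField.adjoin k
      (Set.range (Sum.elim (fun j => p (Sum.inl j)) fun j => p (Sum.inr j)))) = B j ∧
      (j = 0 → pl.ρ B' = 0) ∧ (j ≠ 0 → pl.ρ B' ≠ 0) := by
    intro j
    obtain ⟨ε, hε0, hε1⟩ := hε j
    rcases Fin.eq_zero_or_eq_succ j with rfl | ⟨i, rfl⟩
    · obtain ⟨s, hs⟩ : ∃ s : ℕ, v' 0 = s + 1 := ⟨(v' 0 - 1).toNat, by omega⟩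
      refine ⟨(⟨pl.t, pl.t_mem⟩ : pl.O) ^ (s + 1) * ε, ?_, fun _ => ?_, fun h1 => absurd rfl h1⟩
      · rw [hε1, hs]
        push_cast
        rfl
      · rw [map_mul, map_pow, pl.ρt, zero_pow (Nat.succ_ne_zero s), zero_mul]
    · refine ⟨ε, ?_, fun h1 => absurd h1 (Fin.succ_ne_zero i), fun _ => hε0⟩
      rw [hε1, hv'1 i, zpow_zero, one_mul]
  choose B' hB'1 hB'2 hB'3 using hBm
  obtain ⟨a', b', hexp, hsp, hne⟩ := concl_I k hk (Nat.succ_le_succ (Nat.zero_le m))
    (fun j => p (Sum.inl j))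
    (fun j => p (Sum.inr j)) hb F₀ hk0 hker (by rw [hpe]; exact htd) hta ha F₀.totalDegree
    (fun i => homogeneousComponent i F₀) (fun i => homogeneousComponent_isHomogeneous i F₀)
    (sum_homogeneousComponent F₀).symm R₀ a0 ha0 hL₀ hGR₀ hirr₀ hnl₀ hfib
    (IntermediateField.adjoin k (Set.range (Sum.elim (fun j => p (Sum.inl j))
      fun j => p (Sum.inr j)))) (fg_adjoin k _)
    (td_not_ind k (Sum.elim (fun j => p (Sum.inl j)) fun j => p (Sum.inr j))
      (by rw [hpe]; exact htd)) pl θ B' (fun j => by rw [hθ j]; exact hA j)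
    (fun j => by rw [hB'1 j]; exact hB j) (hB'2 0 rfl) (fun j => hB'3 _ (Fin.succ_ne_zero j))
    hrel h₀ (by
      rw [hpe]
      intro h0
      exact hh (hh₀ ▸ (hp h₀).1 h0))
  rw [hpe] at hsp
  have hb' : b' = fun j => Complex.exp (a' j) := funext hexp
  subst hb'
  refine ⟨a', ?_, ?_⟩
  · exact hx _ fun f hf => hsp f ((hp f).2 hf)
  · rw [← hh₀, ← aeval_eq]
    exact hne

end Pool.Agent.EXT
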