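import Pool.Agent.EXR.ExpRat
import Pool.Agent.EXP.Elim

/-!
# EXT / AxA: if `g` and `exp g` are algebraic functions of one variable, `g` is constant

PROOF.  The polynomials `f` with `f (t, g t) = 0` near `t0` are a prime ideal, so it contains a prime
element `F`. If `F` does not depend on `t`, `g` is constant. Otherwise the resultant with respect to
`t` of `F (t, X)` and `q (t, Y)` is a polynomial `r ≠ 0` with `r (g, exp g) = 0` near `t0`. If `g` is
not constant, its image is open, so `r (z, exp z) = 0` for all `z`, against `exp_rat` with `A = X`,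
`B = 1`.
-/

set_option autoImplicit false

namespace Pool.Agent.EXT

open Topology Filter

open Pool.Agent.EXP Pool.Agent.EXR

/-- a polynomial in two variables without zero values is zero -/
private lemma axa_zero (p : Polynomial (Polynomial ℂ)) (h : ∀ z Y : ℂ, ev p z Y = 0) :
    p = 0 := by
  refine Polynomial.ext fun l => ?_
  refine Polynomial.funext fun z => ?_
  have h1 : p.map (Polynomial.evalRingHom z) = 0 := Polynomial.funext fun Y => by
    rw [Polynomial.eval_zero]
    exact h z Y
  have h2 := congrArg (fun f => Polynomial.coeff f l) h1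
  simpa using h2

/-- `p (X i, X j)` -/
private noncomputable def axaM {σ : Type} (i j : σ) (p : Polynomial (Polynomial ℂ)) :
    MvPolynomial σ ℂ :=
  Polynomial.eval₂ (Polynomial.eval₂RingHom MvPolynomial.C (MvPolynomial.X i))
    (MvPolynomial.X j) p

private lemma axaM_eval {σ : Type} (i j : σ) (p : Polynomial (Polynomial ℂ)) (w : σ → ℂ) :
    MvPolynomial.eval w (axaM i j p) = ev p (w i) (w j) := by
  unfold axaM ev
  rw [Polynomial.hom_eval₂, Polynomial.eval_map, MvPolynomial.eval_X]
  congr 1
  apply Polynomial.ringHom_ext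
  · intro c; simp
  · simp

private lemma axa_an {σ : Type} {x : σ → ℂ → ℂ} {t0 : ℂ} (hx : ∀ j, AnalyticAt ℂ (x j) t0)
    (f : MvPolynomial σ ℂ) :
    AnalyticAt ℂ (fun t => MvPolynomial.eval (fun j => x j t) f) t0 := by
  induction f using MvPolynomial.induction_on with
  | C a => simpa using analyticAt_const
  | add p q hp hq => simpa using hp.fun_add hq
  | mul_X p j hp => simpa using hp.fun_mul (hx j)

/-- the ideal of the germ of the graph -/
private def axaI (g : ℂ → ℂ) (t0 : ℂ) : Ideal (MvPolynomial (Fin 2) ℂ) where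
  carrier := {f | ∀ᶠ t in 𝓝 t0, MvPolynomial.eval ![t, g t] f = 0}
  add_mem' := fun {a b} ha hb => by
    have ha' : ∀ᶠ t in 𝓝 t0, MvPolynomial.eval ![t, g t] a = 0 := ha
    have hb' : ∀ᶠ t in 𝓝 t0, MvPolynomial.eval ![t, g t] b = 0 := hb
    show ∀ᶠ t in 𝓝 t0, MvPolynomial.eval ![t, g t] (a + b) = 0
    filter_upwards [ha', hb'] with t h1 h2
    rw [map_add, h1, h2, add_zero]
  zero_mem' := by
    show ∀ᶠ t in 𝓝 t0, MvPolynomial.eval ![t, g t] 0 = 0
    exact Eventually.of_forall fun t => map_zero _
  smul_mem' := fun c {a} ha => by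
    have ha' : ∀ᶠ t in 𝓝 t0, MvPolynomial.eval ![t, g t] a = 0 := ha
    show ∀ᶠ t in 𝓝 t0, MvPolynomial.eval ![t, g t] (c • a) = 0
    filter_upwards [ha'] with t h1
    rw [smul_eq_mul, map_mul, h1, mul_zero]

private lemma axaI_mem {g : ℂ → ℂ} {t0 : ℂ} {f : MvPolynomial (Fin 2) ℂ} :
    f ∈ axaI g t0 ↔ ∀ᶠ t in 𝓝 t0, MvPolynomial.eval ![t, g t] f = 0 := Iff.rfl

private lemma axaI_prime {g : ℂ → ℂ} {t0 : ℂ} (hg : AnalyticAt ℂ g t0) :
    (axaI g t0).IsPrime := by
  constructor
  · rw [Ideal.ne_top_iff_one]
    intro h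
    have h1 := (axaI_mem.1 h).self_of_nhds
    rw [map_one] at h1
    exact one_ne_zero h1
  · intro a b hab
    have hx : ∀ f : MvPolynomial (Fin 2) ℂ,
        AnalyticAt ℂ (fun t => MvPolynomial.eval ![t, g t] f) t0 := by
      intro f
      have h1 : ∀ j : Fin 2, AnalyticAt ℂ ((![fun t => t, g] : Fin 2 → ℂ → ℂ) j) t0 := by
        intro j
        fin_cases j
        · exact analyticAt_id
        · exact hg
      have h2 := axa_an h1 f
      refine h2.congr (Eventually.of_forall fun t => ?_)
      change MvPolynomial.eval _ f = MvPolynomial.eval _ f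
      congr 1
      congr 1
      funext j
      fin_cases j <;> rfl
    rcases (hx a).eventually_eq_zero_or_eventually_ne_zero with ha | ha
    · exact Or.inl ha
    · rcases (hx b).eventually_eq_zero_or_eventually_ne_zero with hb | hb
      · exact Or.inr hb
      · exfalso
        have h3 := (axaI_mem.1 hab).filter_mono (nhdsWithin_le_nhds (s := {t0}ᶜ))
        obtain ⟨t, h4, h5, h6⟩ := (h3.and (ha.and hb)).exists
        rw [map_mul] at h4
        exact mul_ne_zero h5 h6 h4

/-- a germ with values in the zeros of a polynomial is constant -/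
private lemma axa_const {g : ℂ → ℂ} {t0 : ℂ} (hg : AnalyticAt ℂ g t0) {c : Polynomial ℂ}
    (hc : c ≠ 0) (h : ∀ᶠ t in 𝓝 t0, c.eval (g t) = 0) : ∀ᶠ t in 𝓝 t0, g t = g t0 := by
  rcases hg.eventually_constant_or_nhds_le_map_nhds with h1 | h1
  · exact h1
  · exfalso
    have h2 : ∀ᶠ z in 𝓝 (g t0), c.eval z = 0 := h1 h
    have h3 : (c.roots.toFinset : Set ℂ).Finite := Finset.finite_toSet _
    have h4 : ∀ᶠ z in 𝓝 (g t0), z ∈ (c.roots.toFinset : Set ℂ) := by
      filter_upwards [h2] with z hz
      simp [hc, hz]
    exact (infinite_of_mem_nhds (g t0) h4) h3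

theorem ax_alg (g : ℂ → ℂ) (t0 : ℂ) (hg : AnalyticAt ℂ g t0)
    (p q : Polynomial (Polynomial ℂ)) (hp : p ≠ 0) (hq : q ≠ 0)
    (hpg : ∀ᶠ t in 𝓝 t0, (p.map (Polynomial.evalRingHom t)).eval (g t) = 0)
    (hqg : ∀ᶠ t in 𝓝 t0, (q.map (Polynomial.evalRingHom t)).eval (Complex.exp (g t)) = 0) :
    ∀ᶠ t in 𝓝 t0, g t = g t0 := by
  classical
  have hI := axaI_prime hg
  have hne : axaI g t0 ≠ ⊥ := by
    intro hbot
    have h1 : axaM 0 1 p ∈ axaI g t0 := by
      rw [axaI_mem]
      filter_upwards [hpg] with t ht
      rw [axaM_eval]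
      exact ht
    rw [hbot, Ideal.mem_bot] at h1
    apply hp
    refine axa_zero p fun z Y => ?_
    have h2 := axaM_eval (0 : Fin 2) 1 p ![z, Y]
    rw [h1, map_zero] at h2
    exact h2.symm
  obtain ⟨F, hFI, hF⟩ := Ideal.IsPrime.exists_mem_prime_of_ne_bot hI hne
  rw [axaI_mem] at hFI
  by_cases hdeg : 0 < MvPolynomial.degreeOf 0 F
  · -- elimination of `t`
    by_contra hcon
    obtain ⟨t1, y0, hy0⟩ : ∃ t1 y0, ev q t1 y0 ≠ 0 := by
      by_contra h
      push Not at h
      exact hq (axa_zero q h)
    set h : MvPolynomial (Fin 2 ⊕ Fin 1) ℂ := axaM (Sum.inl 0) (Sum.inr 0) q with hh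
    have hev : ∀ z w, MvPolynomial.eval (Sum.elim z w) h = ev q (z 0) (w 0) := by
      intro z w
      rw [hh, axaM_eval]
      rfl
    have hw : ¬ F ∣ MvPolynomial.aeval (Sum.elim MvPolynomial.X
        fun j => MvPolynomial.C ((fun _ : Fin 1 => y0) j)) h := by
      rintro ⟨G, hG⟩
      have h1 : ∀ z : Fin 2 → ℂ, ev q (z 0) y0 =
          MvPolynomial.eval z F * MvPolynomial.eval z G := by
        intro z
        rw [← map_mul, ← hG, ← hev z fun _ => y0]
        rw [← MvPolynomial.coe_aeval_eq_eval, ← MvPolynomial.coe_aeval_eq_eval]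
        change MvPolynomial.aeval _ h = MvPolynomial.aeval z (MvPolynomial.aeval _ h)
        rw [← AlgHom.comp_apply, MvPolynomial.comp_aeval]
        congr 2
        funext j
        rcases j with j | j
        · simp
        · simp
      -- `q (t, y0) = 0` near `t0`
      have h2 : ∀ᶠ t in 𝓝 t0, ev q t y0 = 0 := by
        filter_upwards [hFI] with t ht
        have h3 := h1 ![t, g t]
        rw [ht, zero_mul] at h3
        exact h3
      have h3 : ∃ c : Polynomial ℂ, ∀ z, c.eval z = ev q z y0 := by
        refine ⟨∑ l ∈ q.support, q.coeff l * Polynomial.C (y0 ^ l), fun z => ?_⟩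
        rw [ev, Polynomial.eval_map, Polynomial.eval₂_eq_sum, Polynomial.sum_def,
          Polynomial.eval_finsetSum]
        refine Finset.sum_congr rfl fun l _ => ?_
        rw [Polynomial.eval_mul, Polynomial.eval_C]
        rfl
      obtain ⟨c, hc⟩ := h3
      have hc0 : c ≠ 0 := by
        intro h4
        apply hy0
        rw [← hc, h4, Polynomial.eval_zero]
      have h5 := axa_const (g := fun t => t) (t0 := t0) analyticAt_id hc0
        (by filter_upwards [h2] with t ht; rw [hc]; exact ht)
      have h6 : ({t0} : Set ℂ) ∈ 𝓝 t0 := h5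
      exact (infinite_of_mem_nhds t0 h6) (Set.finite_singleton t0)
    obtain ⟨E, hE0, hE⟩ := elim (m := 1) (n := 1) F hF.irreducible hdeg h (fun _ => y0) hw
    -- the polynomial of `exp_rat`
    set r : Polynomial (Polynomial ℂ) := MvPolynomial.eval₂Hom
      (MvPolynomial.eval₂Hom (Polynomial.C.comp Polynomial.C) (fun _ : Fin 1 => Polynomial.X))
      (fun _ : Fin 1 => Polynomial.C Polynomial.X) E with hr
    have hrev : ∀ z y, ev r z y = MvPolynomial.eval (fun _ => z)
        (MvPolynomial.map (MvPolynomial.eval fun _ => y) E) := by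
      intro z y
      rw [hr]
      have h1 : ((Polynomial.evalRingHom y).comp
          (Polynomial.mapRingHom (Polynomial.evalRingHom z))).comp
          (MvPolynomial.eval₂Hom
            (MvPolynomial.eval₂Hom (Polynomial.C.comp Polynomial.C) (fun _ : Fin 1 => Polynomial.X))
            (fun _ : Fin 1 => Polynomial.C Polynomial.X)) =
          (MvPolynomial.eval (fun _ : Fin 1 => z)).comp
            (MvPolynomial.map (MvPolynomial.eval fun _ : Fin 1 => y)) := by
        refine MvPolynomial.ringHom_ext ?_ ?_
        · intro c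
          induction c using MvPolynomial.induction_on with
          | C a => simp
          | add a b ha hb =>
            simp only [map_add]
            rw [ha, hb]
          | mul_X a i ha =>
            simp only [map_mul]
            rw [ha]
            simp
        · intro i
          simp
      exact congrArg (fun f => f E) h1
    have hr0 : r ≠ 0 := by
      intro h1
      apply hE0
      refine MvPolynomial.funext fun z => ?_
      have h2 := hrev (z 0) y0
      rw [h1] at h2
      have h3 : z = fun _ => z 0 := by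
        funext i
        rw [Subsingleton.elim i 0]
      rw [map_zero, h3, ← h2]
      simp [ev]
    -- it vanishes along the germ
    have hvan : ∀ᶠ t in 𝓝 t0, ev r (g t) (Complex.exp (g t)) = 0 := by
      filter_upwards [hFI, hqg] with t h1 h2
      have h3 := hE ![t, g t] (fun _ => Complex.exp (g t)) h1 (by rw [hev]; exact h2)
      rw [hrev]
      have h4 : (fun j : Fin 1 => (![t, g t] : Fin 2 → ℂ) j.succ) = fun _ => g t := by
        funext j
        rw [Subsingleton.elim j 0]
        rfl
      rw [h4] at h3
      exact h3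
    have hopen : ∀ᶠ z in 𝓝 (g t0), ev r z (Complex.exp z) = 0 :=
      (hg.eventually_constant_or_nhds_le_map_nhds.resolve_left hcon) hvan
    have han : AnalyticOnNhd ℂ (fun z => ev r z (Complex.exp z)) Set.univ := by
      intro z _
      have h1 : (fun z => ev r z (Complex.exp z)) = fun z =>
          ∑ l ∈ r.support, (r.coeff l).eval z * Complex.exp z ^ l := by
        funext z
        rw [ev, Polynomial.eval_map, Polynomial.eval₂_eq_sum, Polynomial.sum_def]
        rfl
      rw [h1]
      refine Finset.analyticAt_fun_sum _ fun l _ => ?_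
      refine AnalyticAt.mul ?_ (analyticAt_cexp.pow l)
      exact (r.coeff l).differentiable.analyticAt z
    have hall := han.eqOn_zero_of_preconnected_of_eventuallyEq_zero isPreconnected_univ
      (Set.mem_univ (g t0)) hopen
    obtain ⟨t, -, -, h3⟩ := exp_rat Polynomial.X 1 one_ne_zero (by
      intro c h1
      have h2 := congrArg Polynomial.natDegree h1
      rw [mul_one, Polynomial.natDegree_X, Polynomial.natDegree_C] at h2
      exact one_ne_zero h2) r hr0 0 1 one_pos
    apply h3
    have h4 := hall (Set.mem_univ (t : ℂ))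
    simpa using h4
  · -- `F` does not depend on `t`
    have hd0 : (MvPolynomial.finSuccEquiv ℂ 1 F).natDegree = 0 := by
      rw [MvPolynomial.natDegree_finSuccEquiv]
      omega
    obtain ⟨c, hc⟩ := Polynomial.natDegree_eq_zero.1 hd0
    have hev : ∀ t x, MvPolynomial.eval ![t, x] F = MvPolynomial.eval (fun _ => x) c := by
      intro t x
      have h1 := MvPolynomial.eval_eq_eval_mv_eval' (fun _ : Fin 1 => x) t F
      rw [← hc, Polynomial.map_C, Polynomial.eval_C] at h1
      rw [← h1]
      congr 2
      funext j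
      fin_cases j <;> rfl
    set u : Polynomial ℂ := MvPolynomial.aeval (fun _ : Fin 1 => Polynomial.X) c with hu
    have hue : ∀ x, u.eval x = MvPolynomial.eval (fun _ => x) c := by
      intro x
      rw [hu]
      have h1 : (Polynomial.evalRingHom x).comp
          ((MvPolynomial.aeval (fun _ : Fin 1 => (Polynomial.X : Polynomial ℂ)) :
            MvPolynomial (Fin 1) ℂ →ₐ[ℂ] Polynomial ℂ) :
            MvPolynomial (Fin 1) ℂ →+* Polynomial ℂ) = MvPolynomial.eval (fun _ => x) := by
        refine MvPolynomial.ringHom_ext ?_ ?_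
        · intro a; simp
        · intro i; simp
      exact congrArg (fun f => f c) h1
    have hu0 : u ≠ 0 := by
      intro h1
      apply hF.ne_zero
      refine MvPolynomial.funext fun z => ?_
      have h2 : z = ![z 0, z 1] := by
        funext j
        fin_cases j <;> rfl
      rw [map_zero, h2, hev, ← hue, h1, Polynomial.eval_zero]
    refine axa_const hg hu0 ?_
    filter_upwards [hFI] with t ht
    rw [hue, ← hev t]
    exact ht

end Pool.Agent.EXT
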