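import Mathlib

/-!
# EXT / BaireE: a real point outside countably many hypersurfaces (as BaireT, `C^1` over `ℂ` instead of analytic)

PROOF.  In the ball `‖β - β0‖ < r` of `Fin m → ℝ` (a Baire space) the sets `{β | c i (I β) = 0}` are relatively closed with empty interior: a function which is
complex differentiable on the polydisc and vanishes at `I β` for all `β` in a real box vanishes on the polydisc (one-variable identity theorem, coordinate by
coordinate; the sup norm ball is a product of discs). The sets `{β | f (I β) = 0}`, `f ≠ 0` over `k` (countably many): same (polynomials).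
-/

set_option autoImplicit false

namespace Pool.Agent.EXT

open MvPolynomial Topology Filter

/-- The point `I β`. -/
private noncomputable def io {m : ℕ} (β : Fin m → ℝ) : Fin m → ℂ := fun j => Complex.I * (β j : ℂ)

private theorem io_norm {m : ℕ} (β β' : Fin m → ℝ) : ‖io β - io β'‖ = ‖β - β'‖ := by
  have h : ∀ j, ‖(io β - io β') j‖ = ‖(β - β') j‖ := fun j => by
    have : (io β - io β') j = Complex.I * (((β j - β' j : ℝ)) : ℂ) := by
      simp only [io, Pi.sub_apply, Complex.ofReal_sub]
      ring
    rw [this, norm_mul, Complex.norm_I, one_mul, Complex.norm_real]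
    rfl
  refine le_antisymm ?_ ?_
  · refine (pi_norm_le_iff_of_nonneg (norm_nonneg _)).2 fun j => ?_
    rw [h j]
    exact norm_le_pi_norm _ j
  · refine (pi_norm_le_iff_of_nonneg (norm_nonneg _)).2 fun j => ?_
    rw [← h j]
    exact norm_le_pi_norm _ j

/-- totally real: zero at the real points near one point implies zero on the polydisc -/
private theorem bt_global {m : ℕ} (h : (Fin m → ℂ) → ℂ) (β0 : Fin m → ℝ) (ρ : ℝ)
    (ha : ∀ z, ‖z - io β0‖ < ρ → DifferentiableAt ℂ h z) (β1 : Fin m → ℝ)
    (h1 : ‖β1 - β0‖ < ρ) (r : ℝ) (hr : 0 < r)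
    (hz : ∀ β : Fin m → ℝ, ‖β - β1‖ < r → ‖β - β0‖ < ρ → h (io β) = 0) :
    ∀ z, ‖z - io β0‖ < ρ → h z = 0 := by
  classical
  have hρ : 0 < ρ := (norm_nonneg _).trans_lt h1
  have key : ∀ s : Finset (Fin m), ∀ z, ‖z - io β0‖ < ρ →
      (∀ j, j ∉ s → ∃ b : ℝ, z j = Complex.I * (b : ℂ) ∧ |b - β1 j| < r) → h z = 0 := by
    intro s
    induction s using Finset.induction_on with
    | empty =>
      intro z hzr hz'
      choose b hb using fun j => hz' j (Finset.notMem_empty j)
      have e : z = io b := funext fun j => (hb j).1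
      rw [e] at hzr ⊢
      rw [io_norm] at hzr
      refine hz b ?_ hzr
      exact (pi_norm_lt_iff hr).2 fun j => (hb j).2
    | insert a s has ih =>
      intro z hzr hz'
      have hupd : ∀ w : ℂ, ‖w - Complex.I * (β0 a : ℂ)‖ < ρ →
          ‖Function.update z a w - io β0‖ < ρ := by
        intro w hw
        refine (pi_norm_lt_iff hρ).2 fun j => ?_
        by_cases hj : j = a
        · subst hj
          simpa [io] using hw
        · rw [Pi.sub_apply, Function.update_of_ne hj]
          exact (norm_le_pi_norm (z - io β0) j).trans_lt hzr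
      have hdiff : DifferentiableOn ℂ (fun w : ℂ => h (Function.update z a w))
          (Metric.ball (Complex.I * (β0 a : ℂ)) ρ) := by
        intro w hw
        rw [Metric.mem_ball, dist_eq_norm] at hw
        have h1 : DifferentiableAt ℂ h (Function.update z a w) := ha _ (hupd w hw)
        have h2 : DifferentiableAt ℂ (fun w : ℂ => Function.update z a w) w := by
          rw [differentiableAt_pi]
          intro j
          by_cases hj : j = a
          · subst hj
            simp only [Function.update_self]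
            exact differentiableAt_id
          · simp only [Function.update_of_ne hj]
            exact differentiableAt_const _
        exact (h1.comp w h2).differentiableWithinAt
      have han := hdiff.analyticOnNhd Metric.isOpen_ball
      have hβa : ‖Complex.I * (β1 a : ℂ) - Complex.I * (β0 a : ℂ)‖ < ρ := by
        have : ‖(io β1 - io β0) a‖ ≤ ‖io β1 - io β0‖ := norm_le_pi_norm _ a
        rw [io_norm] at this
        exact this.trans_lt h1
      have hmem1 : Complex.I * (β1 a : ℂ) ∈ Metric.ball (Complex.I * (β0 a : ℂ)) ρ := by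
        rw [Metric.mem_ball, dist_eq_norm]
        exact hβa
      have hfr : ∃ᶠ w in 𝓝[≠] (Complex.I * (β1 a : ℂ)), h (Function.update z a w) = 0 := by
        rw [frequently_nhdsWithin_iff, Metric.nhds_basis_ball.frequently_iff]
        intro ε hε
        obtain ⟨t, ht0, ht1, ht2, ht3⟩ : ∃ t : ℝ, 0 < t ∧ t < ε ∧ t < r ∧
            t < ρ - ‖Complex.I * (β1 a : ℂ) - Complex.I * (β0 a : ℂ)‖ := by
          refine ⟨min ε (min r (ρ - ‖Complex.I * (β1 a : ℂ) - Complex.I * (β0 a : ℂ)‖)) / 2,
            ?_, ?_, ?_, ?_⟩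
          · have : 0 < min ε (min r (ρ - ‖Complex.I * (β1 a : ℂ) - Complex.I * (β0 a : ℂ)‖)) :=
              lt_min hε (lt_min hr (by linarith))
            linarith
          all_goals
            have h1 := min_le_left ε (min r
              (ρ - ‖Complex.I * (β1 a : ℂ) - Complex.I * (β0 a : ℂ)‖))
            have h2 := min_le_right ε (min r
              (ρ - ‖Complex.I * (β1 a : ℂ) - Complex.I * (β0 a : ℂ)‖))
            have h3 := min_le_left r (ρ - ‖Complex.I * (β1 a : ℂ) - Complex.I * (β0 a : ℂ)‖)
            have h4 := min_le_right r (ρ - ‖Complex.I * (β1 a : ℂ) - Complex.I * (β0 a : ℂ)‖)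
            linarith
        have e : Complex.I * ((β1 a + t : ℝ) : ℂ) - Complex.I * (β1 a : ℂ) =
            Complex.I * ((t : ℝ) : ℂ) := by
          push_cast
          ring
        have hn : ‖Complex.I * ((β1 a + t : ℝ) : ℂ) - Complex.I * (β1 a : ℂ)‖ = t := by
          rw [e, norm_mul, Complex.norm_I, one_mul, Complex.norm_real, Real.norm_of_nonneg ht0.le]
        refine ⟨Complex.I * ((β1 a + t : ℝ) : ℂ), ?_, ?_, ?_⟩
        · rw [Metric.mem_ball, dist_eq_norm, hn]
          exact ht1
        · refine ih _ (hupd _ ?_) fun j hj => ?_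
          · have e2 : Complex.I * ((β1 a + t : ℝ) : ℂ) - Complex.I * (β0 a : ℂ) =
                (Complex.I * ((β1 a + t : ℝ) : ℂ) - Complex.I * (β1 a : ℂ)) +
                (Complex.I * (β1 a : ℂ) - Complex.I * (β0 a : ℂ)) := by ring
            rw [e2]
            refine (norm_add_le _ _).trans_lt ?_
            rw [hn]
            linarith
          · by_cases hja : j = a
            · subst hja
              refine ⟨_, Function.update_self _ _ _, ?_⟩
              rw [add_sub_cancel_left, abs_of_pos ht0]
              exact ht2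
            · rw [Function.update_of_ne hja]
              exact hz' j (by rw [Finset.mem_insert, not_or]; exact ⟨hja, hj⟩)
        · intro hcon
          rw [Set.mem_singleton_iff] at hcon
          rw [hcon, sub_self, norm_zero] at hn
          linarith
      have h0 := han.eqOn_zero_of_preconnected_of_frequently_eq_zero
        (convex_ball _ _).isPreconnected hmem1 hfr
      have hmem : z a ∈ Metric.ball (Complex.I * (β0 a : ℂ)) ρ := by
        rw [Metric.mem_ball, dist_eq_norm]
        exact (norm_le_pi_norm (z - io β0) a).trans_lt hzr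
      have := h0 hmem
      simpa [Function.update_eq_self] using this
  exact fun z hzr => key Finset.univ z hzr fun j hj => absurd (Finset.mem_univ j) hj

/-- density -/
private theorem bt_dense {m : ℕ} (β0 : Fin m → ℝ) (ρ : ℝ) (h : (Fin m → ℂ) → ℂ)
    (hc : ∀ α, ‖α - io β0‖ < ρ → DifferentiableAt ℂ h α)
    (hne : ¬ ∀ α, ‖α - io β0‖ < ρ → h α = 0) (β1 : Fin m → ℝ) (h1 : ‖β1 - β0‖ < ρ) (δ : ℝ)
    (hδ : 0 < δ) : ∃ β : Fin m → ℝ, ‖β - β1‖ < δ ∧ ‖β - β0‖ < ρ ∧ h (io β) ≠ 0 := by
  by_contra hcon
  push Not at hcon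
  exact hne (bt_global h β0 ρ hc β1 h1 δ hδ hcon)

private theorem bt_open {m : ℕ} (β0 : Fin m → ℝ) (ρ : ℝ) (h : (Fin m → ℂ) → ℂ)
    (hc : ∀ α, ‖α - io β0‖ < ρ → DifferentiableAt ℂ h α) :
    IsOpen {β : Fin m → ℝ | ‖β - β0‖ < ρ ∧ h (io β) ≠ 0} := by
  have hio : Continuous (io : (Fin m → ℝ) → Fin m → ℂ) := by
    unfold io
    fun_prop
  rw [isOpen_iff_mem_nhds]
  rintro β ⟨h1, h2⟩
  have h3 : ContinuousAt (fun β : Fin m → ℝ => h (io β)) β := by
    refine ContinuousAt.comp (f := io) (g := h) ?_ hio.continuousAt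
    refine (hc _ ?_).continuousAt
    rw [io_norm]
    exact h1
  have h4 : ∀ᶠ b in 𝓝 β, h (io b) ≠ 0 := h3.eventually_ne h2
  have h5 : ∀ᶠ b in 𝓝 β, ‖b - β0‖ < ρ := by
    have : Continuous fun b : Fin m → ℝ => ‖b - β0‖ := by fun_prop
    exact this.continuousAt.eventually_lt continuousAt_const h1
  filter_upwards [h4, h5] with b hb1 hb2 using ⟨hb2, hb1⟩

theorem baireE (k : Subfield ℂ) (hk : (k : Set ℂ).Countable) {m : ℕ} (β0 : Fin m → ℝ) (r : ℝ)
    (hr : 0 < r) {J : Type} [Countable J] (c : J → (Fin m → ℂ) → ℂ)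
    (hc : ∀ i, ContDiffOn ℂ 1 (c i) (Metric.ball (fun j => Complex.I * (β0 j : ℂ)) r))
    (hne : ∀ i, ¬ ∀ α ∈ Metric.ball (fun j => Complex.I * (β0 j : ℂ)) r, c i α = 0) :
    ∃ β : Fin m → ℝ,
      (fun j => Complex.I * (β j : ℂ)) ∈ Metric.ball (fun j => Complex.I * (β0 j : ℂ)) r ∧
      AlgebraicIndependent k (fun j => Complex.I * (β j : ℂ)) ∧
      ∀ i, c i (fun j => Complex.I * (β j : ℂ)) ≠ 0 := by
  have hcp : Countable (MvPolynomial (Fin m) k) := by
    have h1 : Cardinal.mk k ≤ Cardinal.aleph0 := Cardinal.mk_le_aleph0_iff.2 hk.to_subtype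
    refine Cardinal.mk_le_aleph0_iff.1 ((MvPolynomial.cardinalMk_le_max).trans ?_)
    exact max_le (max_le h1 (Cardinal.mk_le_aleph0_iff.2 inferInstance)) le_rfl
  let J' := J ⊕ {f : MvPolynomial (Fin m) k // f ≠ 0}
  let c' : J' → (Fin m → ℂ) → ℂ := Sum.elim c fun f α => aeval α f.1
  have hc' : ∀ i α, ‖α - io β0‖ < r → DifferentiableAt ℂ (c' i) α := by
    rintro (i | f) α hα
    · have hα' : α ∈ Metric.ball (fun j => Complex.I * (β0 j : ℂ)) r := by
        rw [Metric.mem_ball, dist_eq_norm]
        exact hα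
      exact ((hc i).differentiableOn one_ne_zero).differentiableAt
        (Metric.isOpen_ball.mem_nhds hα')
    · exact (AnalyticAt.aeval_mvPolynomial (fun j => by
        exact (ContinuousLinearMap.proj (R := ℂ) (φ := fun _ : Fin m => ℂ) j).analyticAt α)
          f.1).differentiableAt
  have hne' : ∀ i, ¬ ∀ α, ‖α - io β0‖ < r → c' i α = 0 := by
    rintro (i | ⟨f, hf⟩)
    · intro hev
      refine hne i fun α hα => hev α ?_
      rw [Metric.mem_ball, dist_eq_norm] at hα
      exact hα
    · intro hev
      apply hf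
      have hinj : Function.Injective (MvPolynomial.map (σ := Fin m) (algebraMap k ℂ)) :=
        MvPolynomial.map_injective _ (algebraMap k ℂ).injective
      apply hinj
      rw [map_zero]
      refine MvPolynomial.funext_set (fun j => Metric.ball (io β0 j) r) (fun j => ?_) fun x hx => ?_
      · exact infinite_of_mem_nhds (io β0 j) (Metric.ball_mem_nhds _ hr)
      · rw [map_zero, eval_map, ← aeval_def]
        refine hev x ?_
        rw [← dist_eq_norm]
        exact (dist_pi_lt_iff hr).2 fun j => hx j (Set.mem_univ j)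
  have hD := dense_iInter_of_isOpen (f := fun i : J' =>
      {β : Fin m → ℝ | ‖β - β0‖ < r ∧ c' i (io β) ≠ 0} ∪ {β | r < ‖β - β0‖})
    (fun i => (bt_open β0 r (c' i) (hc' i)).union (isOpen_lt continuous_const (by fun_prop)))
    (fun i => by
      rw [Metric.dense_iff]
      intro βs ε hε
      rcases lt_or_ge r ‖βs - β0‖ with h | h
      · exact ⟨βs, Metric.mem_ball_self hε, Or.inr h⟩
      · -- a point nearer to `β0`
        set t : ℝ := min (1 / 2) (ε / (4 * r)) with ht
        have ht0 : 0 < t := lt_min (by norm_num) (by positivity)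
        have ht1 : t ≤ 1 / 2 := min_le_left _ _
        have ht2 : t * r ≤ ε / 4 := by
          have : t ≤ ε / (4 * r) := min_le_right _ _
          calc t * r ≤ ε / (4 * r) * r := mul_le_mul_of_nonneg_right this hr.le
            _ = ε / 4 := by
              field_simp
        have e1 : (βs + t • (β0 - βs)) - β0 = (1 - t) • (βs - β0) := by
          rw [sub_smul, one_smul, smul_sub, smul_sub]
          abel
        have e2 : (βs + t • (β0 - βs)) - βs = t • (β0 - βs) := by abel
        have h1 : ‖(βs + t • (β0 - βs)) - β0‖ < r := by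
          rw [e1, norm_smul, Real.norm_of_nonneg (by linarith)]
          nlinarith [norm_nonneg (βs - β0)]
        have h2 : ‖(βs + t • (β0 - βs)) - βs‖ ≤ ε / 4 := by
          rw [e2, norm_smul, Real.norm_of_nonneg ht0.le, norm_sub_rev]
          exact (mul_le_mul_of_nonneg_left h ht0.le).trans ht2
        obtain ⟨β, hβ1, hβ2, hβ3⟩ := bt_dense β0 r (c' i) (hc' i) (hne' i) _ h1 (ε / 4)
          (by positivity)
        refine ⟨β, ?_, Or.inl ⟨hβ2, hβ3⟩⟩
        rw [Metric.mem_ball, dist_eq_norm]
        have e3 : β - βs = (β - (βs + t • (β0 - βs))) + ((βs + t • (β0 - βs)) - βs) := by abel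
        rw [e3]
        refine (norm_add_le _ _).trans_lt ?_
        linarith)
  obtain ⟨β, hβ1, hβ2⟩ := hD.exists_mem_open (Metric.isOpen_ball (x := β0) (ε := r))
    ⟨β0, Metric.mem_ball_self hr⟩
  rw [Metric.mem_ball, dist_eq_norm] at hβ2
  have hall : ∀ i, c' i (io β) ≠ 0 := fun i => by
    rcases Set.mem_iInter.1 hβ1 i with h | h
    · exact h.2
    · exact absurd h (not_lt.2 hβ2.le)
  refine ⟨β, ?_, ?_, fun i => hall (Sum.inl i)⟩
  · rw [Metric.mem_ball, dist_eq_norm]
    have := io_norm β β0
    unfold io at this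
    rw [this]
    exact hβ2
  · rw [algebraicIndependent_iff]
    intro f hf
    by_contra hf0
    exact hall (Sum.inr ⟨f, hf0⟩) hf

end Pool.Agent.EXT
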