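import Pool.Agent.EXW.ChartW

/-!
# EXT / ChartT: the branch with leading coefficient `0` over `T α`

PROOF.  Shear: `F1 = F(X 0 - X j0.succ, X')` (an automorphism; homogeneous components are sheared), `r1 = r0 + α j0`: `chartW` (EXW/ChartW) for `F1`, `r1`,
`ρ₀ = α j0 ≠ 0` (`hα`): `V1`; `V p = V1 p - p.1 j0`.
-/

set_option autoImplicit false

namespace Pool.Agent.EXT

open MvPolynomial Topology Filter

/-- the shear `X 0 ↦ X 0 + C c X j` -/
private noncomputable def sh (k : Subfield ℂ) {m : ℕ} (j0 : Fin m) (c : k) :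
    MvPolynomial (Fin (m + 1)) k →ₐ[k] MvPolynomial (Fin (m + 1)) k :=
  aeval (Fin.cons (X 0 + C c * X j0.succ) (fun j => X j.succ) :
    Fin (m + 1) → MvPolynomial (Fin (m + 1)) k)

private theorem sh_aeval (k : Subfield ℂ) {m : ℕ} (j0 : Fin m) (c : k) (r : ℂ) (α : Fin m → ℂ)
    (f : MvPolynomial (Fin (m + 1)) k) :
    aeval (Fin.cons r α : Fin (m + 1) → ℂ) (sh k j0 c f) =
      aeval (Fin.cons (r + (c : ℂ) * α j0) α : Fin (m + 1) → ℂ) f := by
  have h : (aeval (Fin.cons r α : Fin (m + 1) → ℂ)).comp (sh k j0 c) =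
      aeval (Fin.cons (r + (c : ℂ) * α j0) α : Fin (m + 1) → ℂ) := by
    apply MvPolynomial.algHom_ext
    intro i
    rw [AlgHom.comp_apply, sh, aeval_X, aeval_X]
    refine Fin.cases ?_ (fun j => ?_) i
    · simp only [Fin.cons_zero, map_add, map_mul, aeval_X, Fin.cons_succ]
      rw [← algebraMap_eq, AlgHom.commutes]
      rfl
    · simp only [Fin.cons_succ, aeval_X]
  exact DFunLike.congr_fun h f

private theorem sh_sh (k : Subfield ℂ) {m : ℕ} (j0 : Fin m) (c c' : k) (hc : c + c' = 0)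
    (f : MvPolynomial (Fin (m + 1)) k) : sh k j0 c (sh k j0 c' f) = f := by
  have h : (sh k j0 c).comp (sh k j0 c') = AlgHom.id k _ := by
    apply MvPolynomial.algHom_ext
    intro i
    rw [AlgHom.comp_apply, AlgHom.id_apply]
    have hj : ∀ j : Fin m, sh k j0 c (X j.succ) = X j.succ := by
      intro j
      rw [sh, aeval_X, Fin.cons_succ]
    refine Fin.cases ?_ (fun j => ?_) i
    · have h0 : sh k j0 c' (X 0) = X 0 + C c' * X j0.succ := by rw [sh, aeval_X, Fin.cons_zero]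
      have h1 : sh k j0 c (X 0) = X 0 + C c * X j0.succ := by rw [sh, aeval_X, Fin.cons_zero]
      have h2 : sh k j0 c (C c') = C c' := by
        rw [← algebraMap_eq, AlgHom.commutes]
      rw [h0, map_add, map_mul, h1, hj, h2]
      have h3 : (C c + C c' : MvPolynomial (Fin (m + 1)) k) = 0 := by
        rw [← C_add, hc, C_0]
      linear_combination (X j0.succ : MvPolynomial (Fin (m + 1)) k) * h3
    · have h4 : sh k j0 c' (X j.succ) = X j.succ := by rw [sh, aeval_X, Fin.cons_succ]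
      rw [h4, hj]
  exact DFunLike.congr_fun h f

private theorem sh_hom (k : Subfield ℂ) {m : ℕ} (j0 : Fin m) (c : k) {i : ℕ}
    {f : MvPolynomial (Fin (m + 1)) k} (hf : f.IsHomogeneous i) :
    (sh k j0 c f).IsHomogeneous i := by
  have h := hf.aeval (n := 1) (Fin.cons (X 0 + C c * X j0.succ) (fun j => X j.succ) :
    Fin (m + 1) → MvPolynomial (Fin (m + 1)) k) (by
      intro j
      refine Fin.cases ?_ (fun j => ?_) j
      · rw [Fin.cons_zero]
        refine (isHomogeneous_X k 0).add ?_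
        have h1 := (isHomogeneous_C (Fin (m + 1)) c).mul (isHomogeneous_X k j0.succ)
        rwa [zero_add] at h1
      · rw [Fin.cons_succ]
        exact isHomogeneous_X k j.succ)
  rwa [one_mul] at h

theorem chartT (k : Subfield ℂ) {m : ℕ} (α : Fin m → ℂ) (hα : AlgebraicIndependent k α)
    (F : MvPolynomial (Fin (m + 1)) k) (r0 : ℂ)
    (hF : ∀ f : MvPolynomial (Fin (m + 1)) k,
      aeval (Fin.cons r0 α : Fin (m + 1) → ℂ) f = 0 ↔ F ∣ f)
    (d : ℕ) (Fc : ℕ → MvPolynomial (Fin (m + 1)) k) (hFc : ∀ i, (Fc i).IsHomogeneous i)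
    (hFs : F = ∑ i ∈ Finset.range (d + 1), Fc i) (hFd : Fc d ≠ 0)
    (hroot : aeval (Fin.cons 0 α : Fin (m + 1) → ℂ) (Fc d) = 0) (j0 : Fin m) :
    ∃ (e : ℕ) (V : (Fin m → ℂ) × ℂ → ℂ), 1 ≤ e ∧ ContDiffAt ℂ 1 V (α, 0) ∧ V (α, 0) = 0 ∧
      ∀ᶠ p : (Fin m → ℂ) × ℂ in 𝓝 (α, 0), p.2 ≠ 0 →
        aeval (Fin.cons ((p.2⁻¹) ^ e * V p) (fun j => p.1 j * (p.2⁻¹) ^ e) :
          Fin (m + 1) → ℂ) F = 0 := by
  have hz : ((-1 : k) : ℂ) = -1 := by norm_num
  have ho : ((1 : k) : ℂ) = 1 := by norm_num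
  have hinv : ∀ f, sh k j0 (-1) (sh k j0 1 f) = f := sh_sh k j0 (-1) 1 (by ring)
  have hinv' : ∀ f, sh k j0 1 (sh k j0 (-1) f) = f := sh_sh k j0 1 (-1) (by ring)
  obtain ⟨e, V1, he, hV1, hV2, hV3⟩ := EXW.chartW k α hα (sh k j0 (-1) F) (r0 + α j0) (by
      intro f
      have h1 := sh_aeval k j0 1 r0 α f
      rw [ho, one_mul] at h1
      rw [← h1, hF]
      constructor
      · intro h2
        have h3 := map_dvd (sh k j0 (-1)) h2
        rwa [hinv] at h3
      · intro h2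
        have h3 := map_dvd (sh k j0 1) h2
        rwa [hinv'] at h3) d (fun i => sh k j0 (-1) (Fc i)) (fun i => sh_hom k j0 (-1) (hFc i)) (by
      rw [hFs, map_sum]) (by
      intro h0
      apply hFd
      have h1 : sh k j0 (-1) (Fc d) = 0 := h0
      rw [← hinv' (Fc d), h1, map_zero]) (α j0) (hα.ne_zero j0) (by
      change aeval (Fin.cons (α j0) α : Fin (m + 1) → ℂ) (sh k j0 (-1) (Fc d)) = 0
      rw [sh_aeval, hz]
      have h1 : α j0 + -1 * α j0 = 0 := by ring
      rw [h1]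
      exact hroot)
  refine ⟨e, fun p => V1 p - p.1 j0, he, ?_, ?_, ?_⟩
  · refine hV1.sub ?_
    have h1 : ContDiff ℂ 1 (fun p : (Fin m → ℂ) × ℂ => p.1 j0) :=
      (contDiff_apply ℂ ℂ j0).comp contDiff_fst
    exact h1.contDiffAt
  · change V1 (α, 0) - α j0 = 0
    rw [hV2, sub_self]
  · filter_upwards [hV3] with p hp hp2
    have h1 := hp hp2
    rw [sh_aeval, hz] at h1
    have h2 : (p.2⁻¹) ^ e * V1 p + -1 * (p.1 j0 * (p.2⁻¹) ^ e) =
        (p.2⁻¹) ^ e * (V1 p - p.1 j0) := by ring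
    rw [h2] at h1
    exact h1

end Pool.Agent.EXT
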