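import Pool.Agent.EXT.Defs
import Pool.Agent.EXG.SheetG
import Pool.Agent.EXG.Sheets
import Pool.Agent.EXG.PrimA

/-!
# EXT / SheetT: the sheet of `V` over the graph, with logarithms

PROOF.  `E = Fin m → ℂ`, `U = Om` (open, convex), `M x = pr.M` at `u = cons (exp (r x)) x` (coefficients `ContDiffAt ℂ 1`, monic, separable by `pr.sep`), `θ₀` = value of
`Q` at the base point (`pr.root`): `sheet_gen` gives `θ`. The point `q ↦ evm (B q) u (θ x) / Dl` is `Spec` (`pr.spec`), its coordinates `x_j`, `j ≥ 1`, are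
`x j` (`pr.Bx`), `y_0` is `exp (r x)` (`pr.Bz`), at `X` it is the base point (`pr.coord`). Its coordinate `x_0` is a continuous root of `F (·, x)` which is `r X` at
`X`: equal to `r x` on `Om` (`∂_0 F ≠ 0`: the set where they agree is open and closed in `Om`, connected). `y_j ≠ 0` (`pr.ne_zero`), `y_j (x) / y j` is continuous,
`1` at `X`, never on the circle `‖ζ - 1‖ = δ'` (`hPV`, `hP`), so `‖y_j (x) / y j - 1‖ < δ' ≤ 1 / 4` on `Om`: `Λ = log` of it, `‖Λ‖ ≤ 1`. (As `EXG.sheet_log`.)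
-/

set_option autoImplicit false

namespace Pool.Agent.EXT

open MvPolynomial Pool.Agent.EXL Pool.Agent.EXI Pool.Agent.EXG Topology Filter

private theorem aeval_F {k : Subfield ℂ} {m : ℕ} {a b x y : Fin (m + 1) → ℂ}
    (hxy : Spec k (Sum.elim a b) (Sum.elim x y)) (F : MvPolynomial (Fin (m + 1)) k)
    (h : aeval a F = 0) : aeval x F = 0 := by
  have h1 := hxy (rename Sum.inl F) (by
    rw [aeval_rename]
    exact h)
  rw [aeval_rename] at h1
  exact h1

private theorem hsfd {k : Subfield ℂ} {n : ℕ} (F : MvPolynomial (Fin n) k) (x : Fin n → ℂ) :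
    ∃ D : (Fin n → ℂ) →L[ℂ] ℂ, HasStrictFDerivAt (fun x : Fin n → ℂ => aeval x F) D x ∧
      ∀ v, D v = ∑ j, aeval x (pderiv j F) * v j := by
  classical
  induction F using MvPolynomial.induction_on with
  | C a =>
    refine ⟨0, ?_, fun v => ?_⟩
    · have h := hasStrictFDerivAt_const (𝕜 := ℂ) (algebraMap k ℂ a) x
      refine h.congr_of_eventuallyEq (Eventually.of_forall fun x => ?_)
      show algebraMap k ℂ a = aeval x (C a)
      rw [aeval_C]
    · simp [pderiv_C]
  | add p q hp hq =>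
    obtain ⟨D1, h1, h1'⟩ := hp
    obtain ⟨D2, h2, h2'⟩ := hq
    refine ⟨D1 + D2, ?_, fun v => ?_⟩
    · refine (h1.add h2).congr_of_eventuallyEq (Eventually.of_forall fun x => ?_)
      show aeval x p + aeval x q = aeval x (p + q)
      rw [map_add]
    · rw [ContinuousLinearMap.add_apply, h1', h2', ← Finset.sum_add_distrib]
      refine Finset.sum_congr rfl fun j _ => ?_
      rw [map_add, map_add, add_mul]
  | mul_X p i hp =>
    obtain ⟨D1, h1, h1'⟩ := hp
    have h2 : HasStrictFDerivAt (fun x : Fin n → ℂ => x i)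
        (ContinuousLinearMap.proj (R := ℂ) (φ := fun _ : Fin n => ℂ) i) x :=
      (ContinuousLinearMap.proj (R := ℂ) (φ := fun _ : Fin n => ℂ) i).hasStrictFDerivAt
    refine ⟨_, (h1.mul h2).congr_of_eventuallyEq (Eventually.of_forall fun x => ?_), fun v => ?_⟩
    · show aeval x p * x i = aeval x (p * X i)
      rw [map_mul, aeval_X]
    · have h3 : ∀ j, aeval x (pderiv j (p * X i)) * v j =
          (if j = i then aeval x p * v i else 0) + x i * (aeval x (pderiv j p) * v j) := by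
        intro j
        rw [Derivation.leibniz, smul_eq_mul, smul_eq_mul, map_add, map_mul, map_mul, aeval_X,
          pderiv_X]
        by_cases hj : j = i
        · subst hj
          simp
          ring
        · rw [Pi.single_eq_of_ne (Ne.symm hj), if_neg hj]
          simp
          ring
      simp only [h3, Finset.sum_add_distrib, Finset.sum_ite_eq', Finset.mem_univ, if_true,
        ← Finset.mul_sum]
      show aeval x p * v i + x i * D1 v = _
      rw [h1']

private theorem loc_uniq {k : Subfield ℂ} {m : ℕ} (F : MvPolynomial (Fin (m + 1)) k) (a0 : ℂ)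
    (x0 : Fin m → ℂ) (hne : aeval (Fin.cons a0 x0 : Fin (m + 1) → ℂ) (pderiv 0 F) ≠ 0) :
    ∀ᶠ p : ℂ × ℂ × (Fin m → ℂ) in 𝓝 (a0, a0, x0),
      aeval (Fin.cons p.1 p.2.2 : Fin (m + 1) → ℂ) F =
        aeval (Fin.cons p.2.1 p.2.2 : Fin (m + 1) → ℂ) F → p.1 = p.2.1 := by
  obtain ⟨D, hD, hDv⟩ := hsfd F (Fin.cons a0 x0 : Fin (m + 1) → ℂ)
  have h1 := hD.isLittleO
  have hc : Continuous fun p : ℂ × ℂ × (Fin m → ℂ) =>
      ((Fin.cons p.1 p.2.2 : Fin (m + 1) → ℂ), (Fin.cons p.2.1 p.2.2 : Fin (m + 1) → ℂ)) := by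
    refine Continuous.prodMk ?_ ?_
    · refine continuous_pi fun j => ?_
      refine Fin.cases ?_ (fun j => ?_) j
      · exact continuous_fst
      · exact (continuous_apply j).comp (continuous_snd.comp continuous_snd)
    · refine continuous_pi fun j => ?_
      refine Fin.cases ?_ (fun j => ?_) j
      · exact continuous_fst.comp continuous_snd
      · exact (continuous_apply j).comp (continuous_snd.comp continuous_snd)
  have h2 := h1.comp_tendsto (hc.tendsto (a0, a0, x0))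
  have hpos : 0 < ‖aeval (Fin.cons a0 x0 : Fin (m + 1) → ℂ) (pderiv 0 F)‖ / 2 := by
    have := norm_pos_iff.2 hne
    positivity
  filter_upwards [h2.def hpos] with p hp heq
  by_contra hne'
  have hsub : (Fin.cons p.1 p.2.2 : Fin (m + 1) → ℂ) - Fin.cons p.2.1 p.2.2 =
      Pi.single 0 (p.1 - p.2.1) := by
    funext j
    refine Fin.cases ?_ (fun j => ?_) j
    · simp
    · simp [Pi.single_eq_of_ne (Fin.succ_ne_zero j)]
  simp only [Function.comp] at hp
  rw [hsub, heq, sub_self, zero_sub, norm_neg, Pi.norm_single] at hp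
  have h3 : D (Pi.single 0 (p.1 - p.2.1)) =
      aeval (Fin.cons a0 x0 : Fin (m + 1) → ℂ) (pderiv 0 F) * (p.1 - p.2.1) := by
    rw [hDv, Finset.sum_eq_single (0 : Fin (m + 1))]
    · simp
    · intro j _ hj
      simp [Pi.single_eq_of_ne hj]
    · intro h
      exact absurd (Finset.mem_univ _) h
  rw [h3, norm_mul] at hp
  have h4 : 0 < ‖p.1 - p.2.1‖ := norm_pos_iff.2 (sub_ne_zero.2 hne')
  nlinarith [mul_pos hpos h4]

/-- two continuous branches of simple roots which agree at a point -/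
private theorem branch_eq {k : Subfield ℂ} {m : ℕ} (F : MvPolynomial (Fin (m + 1)) k)
    {E : Type} [TopologicalSpace E] (Om : Set E) (hpre : IsPreconnected Om) (x0 r : E → ℂ)
    (y : E → Fin m → ℂ) (hx0 : ContinuousOn x0 Om) (hr : ContinuousOn r Om)
    (hy : ContinuousOn y Om)
    (hF1 : ∀ u ∈ Om, aeval (Fin.cons (x0 u) (y u) : Fin (m + 1) → ℂ) F = 0)
    (hF2 : ∀ u ∈ Om, aeval (Fin.cons (r u) (y u) : Fin (m + 1) → ℂ) F = 0)
    (hne : ∀ u ∈ Om, aeval (Fin.cons (r u) (y u) : Fin (m + 1) → ℂ) (pderiv 0 F) ≠ 0)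
    (u0 : E) (hu0 : u0 ∈ Om) (h0 : x0 u0 = r u0) : ∀ u ∈ Om, x0 u = r u := by
  have hloc : ∀ u ∈ Om, ∀ᶠ u' in 𝓝[Om] u, (x0 u' = r u' ↔ x0 u = r u) := by
    intro u hu
    by_cases h : x0 u = r u
    · have h1 : Tendsto (fun u' => (x0 u', r u', y u')) (𝓝[Om] u) (𝓝 (r u, r u, y u)) := by
        have h2 := ((hx0 u hu).prodMk ((hr u hu).prodMk (hy u hu)))
        have h3 : Tendsto (fun u' => (x0 u', r u', y u')) (𝓝[Om] u) (𝓝 (x0 u, r u, y u)) := h2
        rwa [h] at h3
      filter_upwards [h1.eventually (loc_uniq F (r u) (y u) (hne u hu)), self_mem_nhdsWithin]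
        with u' h4 hu'
      have h5 := h4 ((hF1 u' hu').trans (hF2 u' hu').symm)
      exact ⟨fun _ => h, fun _ => h5⟩
    · have h1 : Tendsto (fun u' => x0 u' - r u') (𝓝[Om] u) (𝓝 (x0 u - r u)) :=
        (hx0 u hu).sub (hr u hu)
      filter_upwards [h1.eventually_ne (sub_ne_zero.2 h)] with u' h2
      exact ⟨fun h3 => absurd (sub_eq_zero.2 h3) h2, fun h3 => absurd h3 h⟩
  intro u hu
  classical
  have hc : ContinuousOn (fun q => decide (x0 q = r q)) Om := by
    intro q hq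
    refine (tendsto_const_nhds (x := decide (x0 q = r q))).congr' ?_
    filter_upwards [hloc q hq] with q' hq'
    exact (decide_eq_decide.2 hq').symm
  have h1 := hpre.constant hc hu0 hu
  exact (decide_eq_decide.1 h1).1 h0


private theorem st_cd {k : Subfield ℂ} {σ : Type} [Fintype σ] {E : Type}
    [NormedAddCommGroup E] [NormedSpace ℂ E] (u : E → σ → ℂ) (x : E)
    (hu : ∀ q, ContDiffAt ℂ 1 (fun x => u x q) x) (p : MvPolynomial σ k) :
    ContDiffAt ℂ 1 (fun x => aeval (u x) p) x := by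
  induction p using MvPolynomial.induction_on with
  | C a =>
    simp only [algHom_C]
    exact contDiffAt_const
  | add p q hp hq =>
    simp only [map_add]
    exact hp.add hq
  | mul_X p i hp =>
    simp only [map_mul, aeval_X]
    exact hp.mul (hu i)

private theorem st_evm {k : Subfield ℂ} {σ : Type} (p : Polynomial (MvPolynomial σ k))
    (u : σ → ℂ) (θ : ℂ) :
    evm p u θ = ∑ n ∈ Finset.range (p.natDegree + 1), aeval u (p.coeff n) * θ ^ n := by
  unfold evm
  rw [Polynomial.eval_map, Polynomial.eval₂_eq_sum_range]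
  rfl

private theorem st_C {k : Subfield ℂ} {σ : Type} (c : MvPolynomial σ k) (u : σ → ℂ) (θ : ℂ) :
    evm (Polynomial.C c) u θ = aeval u c := by
  unfold evm
  rw [Polynomial.map_C, Polynomial.eval_C]
  rfl

private theorem st_disc {m : ℕ} (X : Fin m → ℂ) (R : ℝ) :
    IsOpen {x : Fin m → ℂ | ∀ j, ‖x j - X j‖ < R} ∧
      Convex ℝ {x : Fin m → ℂ | ∀ j, ‖x j - X j‖ < R} := by
  constructor
  · rw [Set.ofPred_forall]
    refine isOpen_iInter_of_finite fun j => ?_
    exact isOpen_lt (by fun_prop) continuous_const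
  · rw [Set.ofPred_forall]
    refine convex_iInter fun j => ?_
    have h1 : {x : Fin m → ℂ | ‖x j - X j‖ < R} =
        (LinearMap.proj j : (Fin m → ℂ) →ₗ[ℝ] ℂ) ⁻¹' Metric.ball (X j) R := by
      ext v
      simp [Metric.mem_ball, dist_eq_norm]
    rw [h1]
    exact (convex_ball (X j) R).linear_preimage _

theorem sheetT {k : Subfield ℂ} {m : ℕ} {a b : Fin (m + 1) → ℂ} (pr : Prim k a b 0)
    (F : MvPolynomial (Fin (m + 1)) k) (haF : aeval a F = 0)
    (X : Fin m → ℂ) (R δ' : ℝ) (hR : 0 < R) (hδ0 : 0 < δ') (hδ : δ' ≤ 1 / 4)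
    (r : (Fin m → ℂ) → ℂ)
    (hr1 : ∀ x : Fin m → ℂ, (∀ j, ‖x j - X j‖ ≤ R) → ContDiffAt ℂ 1 r x)
    (hr2 : ∀ x : Fin m → ℂ, (∀ j, ‖x j - X j‖ ≤ R) →
      aeval (Fin.cons (r x) x : Fin (m + 1) → ℂ) F = 0 ∧
      aeval (Fin.cons (r x) x : Fin (m + 1) → ℂ) (pderiv 0 F) ≠ 0)
    (hDl : ∀ x : Fin m → ℂ, (∀ j, ‖x j - X j‖ ≤ R) →
      aeval (cons (Complex.exp (r x)) x) pr.Dl ≠ 0)
    (P : Fin (m + 1) → MvPolynomial (Fin m ⊕ Fin 2) k)
    (hPV : ∀ j, j ≠ 0 → ∀ x y : Fin (m + 1) → ℂ, Spec k (Sum.elim a b) (Sum.elim x y) →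
      aeval (Sum.elim (fun l : Fin m => x l.succ) ![y 0, y j]) (P j) = 0)
    (y : Fin (m + 1) → ℂ) (hy : ∀ j, y j ≠ 0) (hy0 : y 0 = Complex.exp (r X))
    (hxy : Spec k (Sum.elim a b) (Sum.elim (Fin.cons (r X) X : Fin (m + 1) → ℂ) y))
    (hP : ∀ j, j ≠ 0 → ∀ (x : Fin m → ℂ) (ζ : ℂ), (∀ l, ‖x l - X l‖ ≤ R) → ‖ζ - 1‖ = δ' →
      aeval (Sum.elim x ![Complex.exp (r x), y j * ζ]) (P j) ≠ 0) :
    ∃ Λ : Fin m → (Fin m → ℂ) → ℂ,
      (∀ j, DifferentiableOn ℂ (Λ j) {x : Fin m → ℂ | ∀ j, ‖x j - X j‖ < R}) ∧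
      (∀ j, ∀ x : Fin m → ℂ, (∀ j, ‖x j - X j‖ < R) → ‖Λ j x‖ ≤ 1) ∧
      ∀ x : Fin m → ℂ, (∀ j, ‖x j - X j‖ < R) →
        Spec k (Sum.elim a b) (Sum.elim (Fin.cons (r x) x : Fin (m + 1) → ℂ)
          (Fin.cons (Complex.exp (r x)) (fun j => y j.succ * Complex.exp (Λ j x)) :
            Fin (m + 1) → ℂ)) := by
  classical
  obtain ⟨Om, hOm⟩ : ∃ Om : Set (Fin m → ℂ), Om = {x | ∀ j, ‖x j - X j‖ < R} := ⟨_, rfl⟩
  obtain ⟨hOo, hOc⟩ := st_disc X R
  rw [← hOm] at hOo hOc
  have hle : ∀ x ∈ Om, ∀ j, ‖x j - X j‖ ≤ R := fun x hx j => by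
    rw [hOm] at hx
    exact (hx j).le
  have hX : X ∈ Om := by
    rw [hOm]
    intro j
    show ‖X j - X j‖ < R
    rw [sub_self, norm_zero]
    exact hR
  obtain ⟨u, hud⟩ : ∃ u : (Fin m → ℂ) → Option (Fin m) → ℂ,
      u = fun x => cons (Complex.exp (r x)) x := ⟨_, rfl⟩
  have hun : ∀ x, u x none = Complex.exp (r x) := fun x => by rw [hud]; rfl
  have hus : ∀ x (j : Fin m), u x (some j) = x j := fun x j => by rw [hud]; rfl
  have hucd : ∀ x ∈ Om, ∀ q, ContDiffAt ℂ 1 (fun x => u x q) x := by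
    intro x hx q
    rcases q with _ | j
    · simp only [hun]
      exact (hr1 x (hle x hx)).cexp
    · simp only [hus]
      exact (contDiff_apply ℂ ℂ j).contDiffAt
  have hD : ∀ x ∈ Om, aeval (u x) pr.Dl ≠ 0 := by
    intro x hx
    rw [hud]
    exact hDl x (hle x hx)
  have hcoeff : ∀ (p : Polynomial (MvPolynomial (Option (Fin m)) k)) (n : ℕ) (x : Fin m → ℂ),
      (p.map (sp k (u x))).coeff n = aeval (u x) (p.coeff n) := by
    intro p n x
    rw [Polynomial.coeff_map]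
    rfl
  have hbs : bs 0 (Fin.cons (r X) X : Fin (m + 1) → ℂ) y = u X := by
    rw [hud]
    unfold bs
    rw [hy0]
    rfl
  obtain ⟨θ, hθd, hθ0, hθ⟩ := sheet_gen Om hOo hOc pr.M.natDegree
    (fun x => pr.M.map (sp k (u x))) 1 one_ne_zero (fun x hx =>
      ⟨pr.monic.map _, pr.monic.natDegree_map _, pr.sep (u x) (hD x hx)⟩) (fun n x hx => by
      simp only [hcoeff]
      exact st_cd u x (hucd x hx) _) X hX
    (aeval (Sum.elim (Fin.cons (r X) X : Fin (m + 1) → ℂ) y) pr.Q) (by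
      have h1 := pr.root _ _ hxy
      rw [hbs] at h1
      exact h1)
  have hev : ∀ x ∈ Om, evm pr.M (u x) (θ x) = 0 := fun x hx => hθ x hx
  obtain ⟨Y, hY⟩ : ∃ Y : (Fin m → ℂ) → Fin (m + 1) ⊕ Fin (m + 1) → ℂ,
      Y = fun x q => evm (pr.B q) (u x) (θ x) / aeval (u x) pr.Dl := ⟨_, rfl⟩
  have hYd : ∀ q, DifferentiableOn ℂ (fun x => Y x q) Om := by
    intro q x hx
    have h1 : ContDiffAt ℂ 1 (fun x => evm (pr.B q) (u x) (θ x)) x := by
      simp only [st_evm]
      exact ContDiffAt.sum fun n _ => (st_cd u x (hucd x hx) _).mul ((hθd x hx).pow n)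
    have h2 : ContDiffAt ℂ 1 (fun x => Y x q) x := by
      rw [hY]
      exact h1.div (st_cd u x (hucd x hx) _) (hD x hx)
    exact (h2.differentiableAt one_ne_zero).differentiableWithinAt
  have hY0 : Y X = Sum.elim (Fin.cons (r X) X : Fin (m + 1) → ℂ) y := by
    funext q
    rw [hY]
    simp only []
    have h1 := pr.coord _ _ hxy q
    rw [hbs] at h1
    rw [hθ0, ← h1, mul_div_cancel_left₀ _ (hD X hX)]
  have hYsp : ∀ x ∈ Om, Spec k (Sum.elim a b) (Y x) := by
    intro x hx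
    rw [hY]
    exact pr.spec (u x) (θ x) (hD x hx) (hev x hx)
  have hYne : ∀ x ∈ Om, ∀ j, Y x (Sum.inr j) ≠ 0 := by
    intro x hx j
    rw [hY]
    exact div_ne_zero (pr.ne_zero (u x) (θ x) (hD x hx) (hev x hx) j) (hD x hx)
  have hYi : ∀ x ∈ Om, Y x (Sum.inr 0) = Complex.exp (r x) := by
    intro x hx
    rw [hY]
    change evm (pr.B (Sum.inr 0)) (u x) (θ x) / aeval (u x) pr.Dl = Complex.exp (r x)
    rw [pr.Bz, st_C, map_mul, aeval_X, mul_div_cancel_left₀ _ (hD x hx), hun]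
  have hYs : ∀ x ∈ Om, ∀ j : Fin m, Y x (Sum.inl j.succ) = x j := by
    intro x hx j
    rw [hY]
    change evm (pr.B (Sum.inl j.succ)) (u x) (θ x) / aeval (u x) pr.Dl = x j
    rw [pr.Bx, st_C, map_mul, aeval_X, mul_div_cancel_left₀ _ (hD x hx), hus]
  have hYe0 : ∀ x ∈ Om, Y x =
      Sum.elim (Fin.cons (Y x (Sum.inl 0)) x : Fin (m + 1) → ℂ) (fun j => Y x (Sum.inr j)) := by
    intro x hx
    funext q
    rcases q with l | l
    · refine Fin.cases ?_ (fun j => ?_) l
      · rfl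
      · simp only [Sum.elim_inl, Fin.cons_succ]
        exact hYs x hx j
    · rfl
  -- the coordinate `x_0` is the branch `r`
  have hY0r : ∀ x ∈ Om, Y x (Sum.inl 0) = r x := by
    refine branch_eq F Om hOc.isPreconnected (fun x => Y x (Sum.inl 0)) r (fun x => x)
      (hYd _).continuousOn (fun x hx => (hr1 x (hle x hx)).continuousAt.continuousWithinAt)
      continuousOn_id (fun x hx => ?_) (fun x hx => (hr2 x (hle x hx)).1)
      (fun x hx => (hr2 x (hle x hx)).2) X hX ?_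
    · have h1 := hYsp x hx
      rw [hYe0 x hx] at h1
      exact aeval_F h1 F haF
    · show Y X (Sum.inl 0) = r X
      rw [hY0]
      rfl
  have hYe : ∀ x ∈ Om, Y x =
      Sum.elim (Fin.cons (r x) x : Fin (m + 1) → ℂ) (fun j => Y x (Sum.inr j)) := by
    intro x hx
    have h1 := hYe0 x hx
    rwa [hY0r x hx] at h1
  have hdist : ∀ j, j ≠ 0 → ∀ x ∈ Om, ‖Y x (Sum.inr j) / y j - 1‖ < δ' := by
    intro j hj x hx
    by_contra hcon
    push Not at hcon
    have hc : ContinuousOn (fun x => ‖Y x (Sum.inr j) / y j - 1‖) Om :=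
      (((hYd (Sum.inr j)).continuousOn.div_const _).sub continuousOn_const).norm
    have hb0 : ‖Y X (Sum.inr j) / y j - 1‖ < δ' := by
      rw [hY0]
      show ‖y j / y j - 1‖ < δ'
      rw [div_self (hy j), sub_self, norm_zero]
      exact hδ0
    obtain ⟨v, hv, hv2⟩ := hOc.isPreconnected.intermediate_value hX hx hc ⟨hb0.le, hcon⟩
    have hv2' : ‖Y v (Sum.inr j) / y j - 1‖ = δ' := hv2
    have h1 := hP j hj v (Y v (Sum.inr j) / y j) (hle v hv) hv2'
    have h2 := hYsp v hv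
    rw [hYe v hv] at h2
    have h3 := hPV j hj _ _ h2
    apply h1
    have h4 : (![Complex.exp (r v), y j * (Y v (Sum.inr j) / y j)] : Fin 2 → ℂ) =
        ![Y v (Sum.inr 0), Y v (Sum.inr j)] := by
      rw [hYi v hv, mul_div_cancel₀ _ (hy j)]
    rw [h4]
    simpa only [Fin.cons_succ] using h3
  have hq : ∀ j : Fin m, ∀ x ∈ Om, ‖Y x (Sum.inr j.succ) / y j.succ - 1‖ ≤ 1 / 4 :=
    fun j x hx => (hdist j.succ (Fin.succ_ne_zero j) x hx).le.trans hδ
  have hslit : ∀ j : Fin m, ∀ x ∈ Om, Y x (Sum.inr j.succ) / y j.succ ∈ Complex.slitPlane := by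
    intro j x hx
    have h1 := hq j x hx
    have h2 := Complex.mem_slitPlane_of_norm_lt_one (z := Y x (Sum.inr j.succ) / y j.succ - 1)
      (by linarith)
    rwa [add_sub_cancel] at h2
  have hexp : ∀ j : Fin m, ∀ x ∈ Om, y j.succ *
      Complex.exp (Complex.log (Y x (Sum.inr j.succ) / y j.succ)) = Y x (Sum.inr j.succ) := by
    intro j x hx
    rw [Complex.exp_log (Complex.slitPlane_ne_zero (hslit j x hx)), mul_div_cancel₀ _ (hy _)]
  refine ⟨fun j x => Complex.log (Y x (Sum.inr j.succ) / y j.succ), fun j => ?_,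
    fun j x hx => ?_, fun x hx => ?_⟩
  · rw [← hOm]
    have h1 : DifferentiableOn ℂ (fun x => Y x (Sum.inr j.succ) / y j.succ) Om := by
      simp only [div_eq_mul_inv]
      exact (hYd (Sum.inr j.succ)).mul_const _
    exact h1.clog (hslit j)
  · have hx' : x ∈ Om := by rw [hOm]; exact hx
    have h1 := hq j x hx'
    have h2 := Complex.norm_log_one_add_half_le_self
      (z := Y x (Sum.inr j.succ) / y j.succ - 1) (by linarith)
    rw [add_sub_cancel] at h2
    linarith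
  · have hx' : x ∈ Om := by rw [hOm]; exact hx
    have h1 := hYsp x hx'
    rw [hYe x hx'] at h1
    have h2 : (Fin.cons (Complex.exp (r x)) (fun j => y j.succ *
        Complex.exp (Complex.log (Y x (Sum.inr j.succ) / y j.succ))) : Fin (m + 1) → ℂ) =
        fun j => Y x (Sum.inr j) := by
      funext j
      refine Fin.cases ?_ (fun j => ?_) j
      · rw [Fin.cons_zero, hYi x hx']
      · rw [Fin.cons_succ, hexp j x hx']
    simp only [h2]
    exact h1

end Pool.Agent.EXT
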