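import Mathlib

/-!
# EXT / SolT: the fixed point

PROOF.  By the Cauchy estimate on complex lines `Λ j` is Lipschitz with constant `≤ 2 / (R / 2)` per direction on the polydisc of radius `ρ + 1 ≤ R / 64`
(Schwarz lemma on the line through two points, as `lip` in EXG/Sol), so `x ↦ (κ j + Λ j x)_j` maps the closed polydisc `‖x j - X j‖ ≤ ρ + 1` into itself and is a
contraction (sup norm): Banach.
-/

set_option autoImplicit false

namespace Pool.Agent.EXT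

open Topology Filter

private theorem solT_lip {m : ℕ} (X : Fin m → ℂ) (R ρ : ℝ) (hρ : 0 ≤ ρ)
    (hR0 : 64 * (ρ + 1) ≤ R) (Λ : (Fin m → ℂ) → ℂ)
    (hΛ : DifferentiableOn ℂ Λ {x : Fin m → ℂ | ∀ j, ‖x j - X j‖ < R})
    (hΛ1 : ∀ x : Fin m → ℂ, (∀ j, ‖x j - X j‖ < R) → ‖Λ x‖ ≤ 1)
    (x x' : Fin m → ℂ) (hx : ∀ i, ‖x i - X i‖ ≤ ρ + 1) (hx' : ∀ i, ‖x' i - X i‖ ≤ ρ + 1) :
    ‖Λ x - Λ x'‖ ≤ 4 / R * ‖x - x'‖ := by
  have hR : 0 < R := by linarith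
  rcases eq_or_ne x x' with h | h
  · subst h; simp
  have hδ : 0 < ‖x - x'‖ := norm_pos_iff.2 (sub_ne_zero.2 h)
  set δ : ℝ := ‖x - x'‖ with hδd
  have hδ2 : δ ≤ 2 * (ρ + 1) := by
    rw [hδd, pi_norm_le_iff_of_nonneg (by positivity)]
    intro i
    rw [Pi.sub_apply]
    calc ‖x i - x' i‖ = ‖(x i - X i) - (x' i - X i)‖ := by ring_nf
      _ ≤ ‖x i - X i‖ + ‖x' i - X i‖ := norm_sub_le _ _
      _ ≤ 2 * (ρ + 1) := by linarith [hx i, hx' i]
  set T : ℝ := 3 * R / 4 / δ with hT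
  have hT0 : 0 < T := by positivity
  have hT1 : 1 < T := by
    rw [hT, lt_div_iff₀ hδ]
    linarith
  set φ : ℂ → ℂ := fun t => Λ (x' + t • (x - x')) with hφ
  have hmem : ∀ t ∈ Metric.ball (0 : ℂ) T,
      x' + t • (x - x') ∈ {x : Fin m → ℂ | ∀ j, ‖x j - X j‖ < R} := by
    intro t ht
    rw [mem_ball_zero_iff] at ht
    intro j
    rw [Pi.add_apply, Pi.smul_apply, Pi.sub_apply, smul_eq_mul]
    have h1 : ‖x j - x' j‖ ≤ δ := norm_le_pi_norm (x - x') j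
    have h2 : ‖t‖ * δ < 3 * R / 4 := by
      rw [hT, lt_div_iff₀ hδ] at ht
      exact ht
    calc ‖x' j + t * (x j - x' j) - X j‖ = ‖(x' j - X j) + t * (x j - x' j)‖ := by ring_nf
      _ ≤ ‖x' j - X j‖ + ‖t * (x j - x' j)‖ := norm_add_le _ _
      _ = ‖x' j - X j‖ + ‖t‖ * ‖x j - x' j‖ := by rw [norm_mul]
      _ ≤ (ρ + 1) + ‖t‖ * δ := by
        have h3 := hx' j
        have h4 : ‖t‖ * ‖x j - x' j‖ ≤ ‖t‖ * δ := mul_le_mul_of_nonneg_left h1 (norm_nonneg _)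
        linarith
      _ < R := by linarith
  have hd : DifferentiableOn ℂ φ (Metric.ball 0 T) := by
    refine hΛ.comp ?_ hmem
    exact (Differentiable.const_add x' (differentiable_id.smul_const (x - x'))).differentiableOn
  have hmaps : Set.MapsTo φ (Metric.ball 0 T) (Metric.closedBall (φ 0) 3) := by
    intro t ht
    rw [Metric.mem_closedBall, dist_eq_norm]
    calc ‖φ t - φ 0‖ ≤ ‖φ t‖ + ‖φ 0‖ := norm_sub_le _ _
      _ ≤ 1 + 1 := add_le_add (hΛ1 _ (hmem t ht)) (hΛ1 _ (hmem 0 (Metric.mem_ball_self hT0)))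
      _ ≤ 3 := by norm_num
  have h1 : (1 : ℂ) ∈ Metric.ball (0 : ℂ) T := by
    rw [mem_ball_zero_iff, norm_one]; exact hT1
  have key := Complex.dist_le_div_mul_dist_of_mapsTo_ball hd hmaps h1
  have e1 : φ 1 = Λ x := by
    simp only [hφ, one_smul]
    congr 1
    abel
  have e0 : φ 0 = Λ x' := by simp only [hφ, zero_smul, add_zero]
  rw [e1, e0, dist_eq_norm, dist_eq_norm, sub_zero, norm_one, mul_one] at key
  refine key.trans (le_of_eq ?_)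
  rw [hT]
  field_simp

theorem solT {m : ℕ} (X : Fin m → ℂ) (R ρ : ℝ) (hρ : 0 ≤ ρ) (hR : 64 * (m + 1) * (ρ + 1) ≤ R)
    (Λ : Fin m → (Fin m → ℂ) → ℂ)
    (hΛ : ∀ j, DifferentiableOn ℂ (Λ j) {x : Fin m → ℂ | ∀ j, ‖x j - X j‖ < R})
    (hΛ1 : ∀ j, ∀ x : Fin m → ℂ, (∀ j, ‖x j - X j‖ < R) → ‖Λ j x‖ ≤ 1)
    (κ : Fin m → ℂ) (hκ : ∀ j, ‖κ j - X j‖ ≤ ρ) :
    ∃ x : Fin m → ℂ, (∀ j, ‖x j - X j‖ < R) ∧ ∀ j, x j = κ j + Λ j x := by
  have hm : (0 : ℝ) ≤ m := Nat.cast_nonneg m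
  have hρ1 : 0 < ρ + 1 := by linarith
  have hR1 : 64 * (ρ + 1) ≤ R := by nlinarith
  have hR0 : 0 < R := by linarith
  set f : (Fin m → ℂ) → (Fin m → ℂ) := fun x j => κ j + Λ j x with hf
  set s : Set (Fin m → ℂ) := Metric.closedBall X (ρ + 1) with hs
  have hmem : ∀ x ∈ s, ∀ j, ‖x j - X j‖ ≤ ρ + 1 := by
    intro x hx j
    rw [hs, Metric.mem_closedBall, dist_eq_norm] at hx
    exact (norm_le_pi_norm (x - X) j).trans hx
  have hlt : ∀ x ∈ s, ∀ j, ‖x j - X j‖ < R := fun x hx j => by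
    have := hmem x hx j
    linarith
  have hmaps : Set.MapsTo f s s := by
    intro x hx
    rw [hs, Metric.mem_closedBall, dist_eq_norm, pi_norm_le_iff_of_nonneg hρ1.le]
    intro j
    rw [Pi.sub_apply]
    calc ‖κ j + Λ j x - X j‖ = ‖(κ j - X j) + Λ j x‖ := by ring_nf
      _ ≤ ‖κ j - X j‖ + ‖Λ j x‖ := norm_add_le _ _
      _ ≤ ρ + 1 := add_le_add (hκ j) (hΛ1 j x (hlt x hx))
  have hcon : ContractingWith (1 / 2 : NNReal) (hmaps.restrict f s s) := by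
    refine ⟨by norm_num, LipschitzWith.of_dist_le_mul ?_⟩
    rintro ⟨x, hx⟩ ⟨x', hx'⟩
    change dist (f x) (f x') ≤ ((1 / 2 : NNReal) : ℝ) * dist x x'
    rw [dist_eq_norm, dist_eq_norm, pi_norm_le_iff_of_nonneg (by positivity)]
    intro j
    rw [Pi.sub_apply]
    change ‖(κ j + Λ j x) - (κ j + Λ j x')‖ ≤ _
    rw [add_sub_add_left_eq_sub]
    refine (solT_lip X R ρ hρ hR1 (Λ j) (hΛ j) (hΛ1 j) x x' (hmem x hx) (hmem x' hx')).trans ?_
    refine mul_le_mul_of_nonneg_right ?_ (norm_nonneg _)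
    rw [div_le_iff₀ hR0]
    push_cast
    linarith
  have hcomp : IsComplete s := Metric.isClosed_closedBall.isComplete
  obtain ⟨x, hxs, hx, -⟩ := hcon.exists_fixedPoint' hcomp hmaps
    (Metric.mem_closedBall_self hρ1.le) (edist_ne_top X (f X))
  exact ⟨x, hlt x hxs, fun j => (congrFun hx j).symm⟩

end Pool.Agent.EXT
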