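import Pool.Agent.EXT.SelT
import Pool.Agent.EXT.SheetT
import Pool.Agent.EXT.SolT
import Pool.Agent.EXW.DiscW
import Pool.Agent.EXG.NiceB2
import Pool.Agent.EXG.PrimA
import Pool.Agent.EXG.PrimB

/-!
# EXT / CoreG: assembly of the analytic part over the graph

PROOF.  As `EXR.coreR`, shorter. Ultrafilter `𝒰 ≤ atTop`; `x T = Fin.cons (r T (I T β)) (I T β)`; `P` from `exists_pair`; `sel_ptT`: `hind`, `b'`, `C`. `exists_prim`: `pr`;
`exists_norm` for `h`: `N'`; `exists_disc`: `N₀`. `GoodG` for `pr.Dl`, `N'`, `N₀` (renamed): not zero along the graph; so `∂_0 F ≠ 0` there. For a good `T`: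
`sheetT` with `X = I T β`, `R = √T`, `y = b' T`, `δ' ≤ 1 / 4`; `κ j` = logarithm of `b' T j.succ` with `‖κ j - I T β_j‖ ≤ |log ‖b' T j.succ‖| + π ≤ |C| log T + π =: ρ` (`exists_log` of CoreR);
`64 (m + 1) (ρ + 1) ≤ √T` (`ev_sqrt`); `solT`: `x`; then `exp (x j) = b' T j.succ * exp (Λ j x)`; solution `Fin.cons (r T x) x`; `h ≠ 0` by `N'`.
-/

set_option autoImplicit false

namespace Pool.Agent.EXT

open MvPolynomial Pool.Agent.EXL Pool.Agent.EXI Pool.Agent.EXG Pool.Agent.EXZ Topology Filter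

private theorem ind_scale {k : Subfield ℂ} {ι : Type} (y : ι → ℂ) (hy : AlgebraicIndependent k y)
    (t : k) (ht : t ≠ 0) : AlgebraicIndependent k (fun j => (t : ℂ) * y j) := by
  rw [algebraicIndependent_iff]
  intro f hf
  have h1 : aeval y (bind₁ (fun j => C t * X j) f) = 0 := by
    rw [aeval_bind₁]
    have h2 : (fun i => aeval y (C t * X i : MvPolynomial ι k)) = fun j => (t : ℂ) * y j := by
      funext j
      rw [map_mul, aeval_C, aeval_X]
      rfl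
    rw [h2]
    exact hf
  have h2 := algebraicIndependent_iff.1 hy _ h1
  have h3 : bind₁ (fun j => C t⁻¹ * X j) (bind₁ (fun j => C t * X j) f) = f := by
    rw [bind₁_bind₁]
    have h4 : (fun i => bind₁ (fun j => (C t⁻¹ * X j : MvPolynomial ι k)) (C t * X i)) =
        (X : ι → MvPolynomial ι k) := by
      funext j
      rw [map_mul, algHom_C, algebraMap_eq, bind₁_X_right, ← mul_assoc, ← C_mul,
        mul_inv_cancel₀ ht, C_1, one_mul]
    rw [h4]
    exact AlgHom.congr_fun bind₁_X_left f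
  rw [← h3, h2, map_zero]

private theorem ev_sqrt (A B D : ℝ) (hD : 0 < D) :
    ∀ᶠ T : ℕ in atTop, A * Real.log T + B ≤ D * √(T : ℝ) := by
  have h1 : (fun x : ℝ => A * Real.log x + B) =o[atTop] fun x : ℝ => x ^ (1 / 2 : ℝ) := by
    apply Asymptotics.IsLittleO.add
    · exact (isLittleO_log_rpow_atTop (by norm_num)).const_mul_left A
    · apply Asymptotics.isLittleO_const_left.2
      right
      exact tendsto_norm_atTop_atTop.comp (tendsto_rpow_atTop (by norm_num))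
  have h2 := (h1.comp_tendsto (tendsto_natCast_atTop_atTop (R := ℝ))).def hD
  filter_upwards [h2] with T hT
  simp only [Function.comp] at hT
  rw [Real.sqrt_eq_rpow]
  refine (le_abs_self _).trans (hT.trans ?_)
  rw [Real.norm_of_nonneg (Real.rpow_nonneg (Nat.cast_nonneg T) _)]

private theorem aeval_ren {k : Subfield ℂ} {m : ℕ} (x : Fin m → ℂ) (z : ℂ)
    (N : MvPolynomial (Option (Fin m)) k) :
    aeval (Sum.elim x fun _ : Unit => z)
      (rename (fun o : Option (Fin m) => o.elim (Sum.inr ()) Sum.inl) N) =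
      aeval (cons z x) N := by
  rw [aeval_rename]
  congr 2
  funext o
  cases o <;> rfl

private theorem ren_ne {k : Subfield ℂ} {m : ℕ} (N : MvPolynomial (Option (Fin m)) k)
    (hN : N ≠ 0) :
    rename (fun o : Option (Fin m) => o.elim (Sum.inr () : Fin m ⊕ Unit) Sum.inl) N ≠ 0 := by
  intro h
  apply hN
  refine rename_injective _ ?_ (h.trans (map_zero _).symm)
  intro o o' hoo
  cases o <;> cases o' <;> simp_all

/-- a logarithm close to a purely imaginary number -/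
private theorem exists_log (w : ℂ) (hw : w ≠ 0) (t : ℝ) :
    ∃ κ : ℂ, Complex.exp κ = w ∧ ‖κ - Complex.I * (t : ℂ)‖ ≤ |Real.log ‖w‖| + Real.pi := by
  obtain ⟨l, hl⟩ : ∃ l : ℤ, l = round ((t - Complex.arg w) / (2 * Real.pi)) := ⟨_, rfl⟩
  refine ⟨Complex.log w + (l : ℂ) * (2 * Real.pi * Complex.I), ?_, ?_⟩
  · rw [Complex.exp_add, Complex.exp_log hw, Complex.exp_int_mul_two_pi_mul_I, mul_one]
  · refine (Complex.norm_le_abs_re_add_abs_im _).trans ?_
    have hre : (Complex.log w + (l : ℂ) * (2 * Real.pi * Complex.I) - Complex.I * (t : ℂ)).re =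
        Real.log ‖w‖ := by
      simp [Complex.log_re]
    have him : (Complex.log w + (l : ℂ) * (2 * Real.pi * Complex.I) - Complex.I * (t : ℂ)).im =
        -(2 * Real.pi) * ((t - Complex.arg w) / (2 * Real.pi) - l) := by
      have hpi : Real.pi ≠ 0 := Real.pi_ne_zero
      simp [Complex.log_im]
      field_simp
      ring
    rw [hre, him, abs_mul, abs_neg, abs_of_pos Real.two_pi_pos, hl]
    have h1 := abs_sub_round ((t - Complex.arg w) / (2 * Real.pi))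
    have h2 := Real.pi_pos
    nlinarith

/-- a nonzero polynomial does not vanish along the graph -/
private theorem graph_ne {k : Subfield ℂ} {m : ℕ} {β : Fin m → ℝ} {r : ℕ → (Fin m → ℂ) → ℂ}
    (hg : GoodG k β r) (N : MvPolynomial (Option (Fin m)) k) (hN : N ≠ 0) :
    ∀ᶠ T : ℕ in atTop, ∀ x : Fin m → ℂ,
      (∀ j, ‖x j - Complex.I * (T : ℂ) * (β j : ℂ)‖ ≤ √(T : ℝ)) →
      aeval (cons (Complex.exp (r T x)) x) N ≠ 0 := by
  obtain ⟨ν, K, _, h2⟩ := hg _ (ren_ne N hN)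
  filter_upwards [h2 (1 / 2) (by norm_num)] with T hT x hx h0
  have h3 := hT x hx
  rw [aeval_ren, h0, mul_zero, zero_sub, norm_neg, norm_one] at h3
  norm_num at h3

theorem coreG (k : Subfield ℂ) {m : ℕ}
    (a b : Fin (m + 1) → ℂ) (hb : ∀ j, b j ≠ 0) (F : MvPolynomial (Fin (m + 1)) k) (hF0 : F ≠ 0)
    (hF : ∀ f : MvPolynomial (Fin (m + 1)) k, aeval a f = 0 ↔ F ∣ f)
    (ha : AlgebraicIndependent k (fun j : Fin m => a j.succ))
    (htd : td (k : Set ℂ) (Sum.elim a b) = m + 1)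
    (hfib : ∀ x : Fin (m + 1) → ℂ, AlgebraicIndependent k (fun j : Fin m => x j.succ) →
      aeval x F = 0 → ∃ Q : Ideal (MvPolynomial (Fin (m + 1)) ℂ), Q.IsPrime ∧
      (∀ j : Fin (m + 1), (X j : MvPolynomial (Fin (m + 1)) ℂ) ∉ Q) ∧
      Algebra.trdeg ℂ (MvPolynomial (Fin (m + 1)) ℂ ⧸ Q) = 1 ∧
      (∀ e : ℂ, (X 0 - C e : MvPolynomial (Fin (m + 1)) ℂ) ∉ Q) ∧
      ∀ w : Fin (m + 1) → ℂ, (∀ g ∈ Q, eval w g = 0) → Spec k (Sum.elim a b) (Sum.elim x w))
    (β : Fin m → ℝ) (hβ : AlgebraicIndependent k (fun j => Complex.I * (β j : ℂ)))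
    (r : ℕ → (Fin m → ℂ) → ℂ) (C0 : ℝ)
    (hr : ∀ᶠ T : ℕ in atTop, ∀ x : Fin m → ℂ,
      (∀ j, ‖x j - Complex.I * (T : ℂ) * (β j : ℂ)‖ ≤ √(T : ℝ)) →
      ContDiffAt ℂ 1 (r T) x ∧ ‖r T x‖ ≤ C0 ∧
      aeval (Fin.cons (r T x) x : Fin (m + 1) → ℂ) F = 0)
    (hg : GoodG k β r)
    (h : MvPolynomial (Fin (m + 1) ⊕ Fin (m + 1)) k) (hh : aeval (Sum.elim a b) h ≠ 0) :
    ∃ x : Fin (m + 1) → ℂ,
      Spec k (Sum.elim a b) (Sum.elim x fun j => Complex.exp (x j)) ∧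
      aeval (Sum.elim x fun j => Complex.exp (x j)) h ≠ 0 := by
  classical
  obtain ⟨𝒰, h𝒰⟩ : ∃ 𝒰 : Ultrafilter ℕ, (𝒰 : Filter ℕ) ≤ atTop :=
    ⟨Filter.hyperfilter ℕ, Nat.hyperfilter_le_atTop⟩
  obtain ⟨P, hP, hPV⟩ : ∃ P : Fin (m + 1) → Fin (m + 1) → MvPolynomial (Fin m ⊕ Fin 2) k,
      (∀ i j, i ≠ j → P i j ≠ 0) ∧ ∀ i j, i ≠ j → ∀ x y : Fin (m + 1) → ℂ,
        Spec k (Sum.elim a b) (Sum.elim x y) →
        aeval (Sum.elim (fun l : Fin m => x l.succ) ![y i, y j]) (P i j) = 0 := by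
    refine ⟨fun i j => if h : i ≠ j then (exists_pair k a b htd i j h).choose else 0,
      fun i j hij => ?_, fun i j hij => ?_⟩
    · simp only [dif_pos hij]
      exact (exists_pair k a b htd i j hij).choose_spec.1
    · simp only [dif_pos hij]
      exact (exists_pair k a b htd i j hij).choose_spec.2
  obtain ⟨x, hxdef⟩ : ∃ x : ℕ → Fin (m + 1) → ℂ, x = fun T =>
      Fin.cons (r T fun j => Complex.I * (T : ℂ) * (β j : ℂ))
        (fun j => Complex.I * (T : ℂ) * (β j : ℂ)) := ⟨_, rfl⟩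
  have hxs : ∀ (T : ℕ) (j : Fin m), x T j.succ = Complex.I * (T : ℂ) * (β j : ℂ) := by
    intro T j
    rw [hxdef]
    exact Fin.cons_succ _ _ _
  have hcen : ∀ (T : ℕ) (j : Fin m), ‖Complex.I * (T : ℂ) * (β j : ℂ) -
      Complex.I * (T : ℂ) * (β j : ℂ)‖ ≤ √(T : ℝ) := by
    intro T j
    rw [sub_self, norm_zero]
    exact Real.sqrt_nonneg _
  have hfibT : ∀ᶠ T : ℕ in (𝒰 : Filter ℕ), ∃ Q : Ideal (MvPolynomial (Fin (m + 1)) ℂ),
      Q.IsPrime ∧ (∀ j : Fin (m + 1), (X j : MvPolynomial (Fin (m + 1)) ℂ) ∉ Q) ∧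
      Algebra.trdeg ℂ (MvPolynomial (Fin (m + 1)) ℂ ⧸ Q) = 1 ∧
      (∀ e : ℂ, (X 0 - C e : MvPolynomial (Fin (m + 1)) ℂ) ∉ Q) ∧
      ∀ w : Fin (m + 1) → ℂ, (∀ g ∈ Q, eval w g = 0) →
        Spec k (Sum.elim a b) (Sum.elim (x T) w) := by
    filter_upwards [hr.filter_mono h𝒰, (eventually_ge_atTop 1).filter_mono h𝒰] with T hT hT1
    refine hfib (x T) ?_ ?_
    · have h1 := ind_scale _ hβ ((T : ℕ) : k) (by
        rw [Nat.cast_ne_zero]
        omega)
      have h2 : (fun j : Fin m => x T j.succ) =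
          fun j : Fin m => (((T : ℕ) : k) : ℂ) * (Complex.I * (β j : ℂ)) := by
        funext j
        rw [hxs T j]
        push_cast
        ring
      rw [h2]
      exact h1
    · rw [hxdef]
      exact (hT _ (hcen T)).2.2
  obtain ⟨hind, b', C, hb', hb0, hT, hN2⟩ := sel_ptT k a b hb htd P hP hPV β r hg C0 (by
      filter_upwards [hr] with T hT
      exact (hT _ (hcen T)).2.1) 𝒰 h𝒰 x (Eventually.of_forall fun T => hxs T) hfibT
  obtain ⟨pr⟩ := exists_prim k a b hb htd 0 hind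
  obtain ⟨N', hN0', hN'⟩ := exists_norm k a b htd 0 hind h hh
  obtain ⟨N₀, hN₀, hdisc⟩ := EXW.exists_disc k F hF0 a hF ha
  have hN₀' : (rename some N₀ : MvPolynomial (Option (Fin m)) k) ≠ 0 := by
    intro h
    exact hN₀ (rename_injective _ (Option.some_injective _) (h.trans (map_zero _).symm))
  obtain ⟨δ', hδ', hδ'1, hrcT⟩ := hN2 (1 / 4) (by norm_num)
  have hA1 := ev_sqrt (64 * (m + 1) * |C|) (64 * (m + 1) * (Real.pi + 1)) 1 one_pos
  have hlog : ∀ᶠ T : ℕ in atTop, 1 ≤ Real.log T :=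
    (Real.tendsto_log_atTop.comp tendsto_natCast_atTop_atTop).eventually_ge_atTop 1
  obtain ⟨T, ⟨⟨⟨hT1, hT9⟩, hT2⟩, ⟨hT3, hT4⟩⟩, ⟨hT5, ⟨hT6, ⟨hT7, hT8⟩⟩⟩⟩ :=
    ((((hr.filter_mono h𝒰).and ((graph_ne hg _ hN₀').filter_mono h𝒰)).and hT).and (((graph_ne hg pr.Dl pr.ne).filter_mono h𝒰).and
      ((graph_ne hg N' hN0').filter_mono h𝒰))).and
      (hrcT.and ((hA1.filter_mono h𝒰).and ((hlog.filter_mono h𝒰).and
        ((eventually_ge_atTop 1).filter_mono h𝒰)))) |>.exists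
  obtain ⟨hxy, hblog⟩ := hT2
  have hTpos : (0 : ℝ) < T := by exact_mod_cast hT8
  have hC0 := abs_nonneg C
  have hpi0 := Real.pi_pos
  have hm0 : (0 : ℝ) ≤ m := Nat.cast_nonneg m
  have haF : aeval a F = 0 := (hF F).2 dvd_rfl
  obtain ⟨Λ, hΛ, hΛ1, hsp⟩ := sheetT pr F haF (fun j => Complex.I * (T : ℂ) * (β j : ℂ))
    (√(T : ℝ)) δ' (Real.sqrt_pos.2 hTpos) hδ' hδ'1.le (r T) (fun x hx => (hT1 x hx).1)
    (fun x hx => ⟨(hT1 x hx).2.2, fun h0 => by
      have h1 := hdisc _ (hT1 x hx).2.2 h0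
      refine hT9 x hx ?_
      rw [aeval_rename]
      simp only [Fin.cons_succ] at h1
      exact h1⟩) (fun x hx => hT3 x hx) (P 0)
    (fun j hj => hPV 0 j (Ne.symm hj)) (b' T) (hb' T) (hb0 T) (by
      have h1 : x T = (Fin.cons (r T fun j => Complex.I * (T : ℂ) * (β j : ℂ))
        (fun j => Complex.I * (T : ℂ) * (β j : ℂ)) : Fin (m + 1) → ℂ) := by rw [hxdef]
      rw [← h1]
      exact hxy) (fun j hj x ζ hx hζ => hT5 j hj x ζ hx hζ)
  choose lg hlg1 hlg2 using fun j : Fin (m + 1) => exists_log (b' T j) (hb' T j)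
    ((T : ℝ) * (Fin.cons 0 β : Fin (m + 1) → ℝ) j)
  have hρ0 : 0 ≤ |C| * Real.log T + Real.pi := by
    have : 0 ≤ |C| * Real.log T := mul_nonneg hC0 (by linarith)
    linarith
  obtain ⟨z, hz, hze⟩ := solT (fun j => Complex.I * (T : ℂ) * (β j : ℂ)) (√(T : ℝ))
    (|C| * Real.log T + Real.pi) hρ0 (by nlinarith) Λ hΛ hΛ1 (fun j => lg j.succ) (by
      intro j
      have h1 := hlg2 j.succ
      have h2 := hblog j.succ
      have h3 : C * Real.log T ≤ |C| * Real.log T :=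
        mul_le_mul_of_nonneg_right (le_abs_self C) (by linarith)
      have h4 : Complex.I * (((T : ℝ) * (Fin.cons 0 β : Fin (m + 1) → ℝ) j.succ : ℝ) : ℂ) =
          Complex.I * (T : ℂ) * (β j : ℂ) := by
        rw [Fin.cons_succ]
        push_cast
        ring
      rw [h4] at h1
      show ‖lg j.succ - Complex.I * (T : ℂ) * (β j : ℂ)‖ ≤ _
      linarith)
  have hsol : (fun j => Complex.exp ((Fin.cons (r T z) z : Fin (m + 1) → ℂ) j)) =
      (Fin.cons (Complex.exp (r T z)) (fun j => b' T j.succ * Complex.exp (Λ j z)) :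
        Fin (m + 1) → ℂ) := by
    funext j
    rcases Fin.eq_zero_or_eq_succ j with rfl | ⟨l, rfl⟩
    · rw [Fin.cons_zero, Fin.cons_zero]
    · rw [Fin.cons_succ, Fin.cons_succ, hze l, Complex.exp_add, hlg1]
  refine ⟨Fin.cons (r T z) z, ?_, ?_⟩
  · rw [hsol]
    exact hsp z hz
  · rw [hsol]
    intro h0
    have h1 := hN' _ _ (hsp z hz) h0
    refine hT4 z (fun j => (hz j).le) ?_
    have h2 : bs 0 (Fin.cons (r T z) z : Fin (m + 1) → ℂ)
        (Fin.cons (Complex.exp (r T z)) (fun j => b' T j.succ * Complex.exp (Λ j z)) :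
        Fin (m + 1) → ℂ) = cons (Complex.exp (r T z)) z := by
      unfold bs
      congr 1
    rw [← h2]
    exact h1

end Pool.Agent.EXT
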