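import Pool.Agent.EXZ.Defs
import Pool.Agent.EXI.CDefs

/-!
# EXT / Defs (MP_a12702_lc, Theorem T: a simple integer linear factor of the leading form)

After `GL_n(ℤ)` the factor is `X 0`: `L = X 0 * R`, `X 0 ∤ R`; the order vector `v` has `v 0 ≠ 0`; `F ≠ c (X 0 - κ)`. The branch `x_0 = r T x'` of the
hypersurface over `x'` near `I T β` is bounded, `r T x' = V (x' / T, 1 / T)` with `V` analytic at `(I β, 0)`. `GoodG`: every nonzero polynomial
`N (X', Y)` over `k` is asymptotically constant and polynomially bounded from below along the graph `Y = exp (r T x')`, `‖x' - I T β‖ ≤ √T`.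
-/

set_option autoImplicit false

namespace Pool.Agent.EXT

open MvPolynomial Topology Filter

/-- goodness along the graph of `exp r` -/
def GoodG (k : Subfield ℂ) {m : ℕ} (β : Fin m → ℝ) (r : ℕ → (Fin m → ℂ) → ℂ) : Prop :=
  ∀ N : MvPolynomial (Fin m ⊕ Unit) k, N ≠ 0 → ∃ (ν : ℕ → ℂ) (K : ℝ),
    (∀ᶠ T : ℕ in atTop, ν T ≠ 0 ∧ ‖ν T‖ ≤ (T : ℝ) ^ K) ∧
    ∀ δ : ℝ, 0 < δ → ∀ᶠ T : ℕ in atTop, ∀ x : Fin m → ℂ,
      (∀ j, ‖x j - Complex.I * (T : ℂ) * (β j : ℂ)‖ ≤ √(T : ℝ)) →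
      ‖ν T * aeval (Sum.elim x fun _ => Complex.exp (r T x)) N - 1‖ ≤ δ

end Pool.Agent.EXT
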