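import Pool.Agent.EXT.AdT
import Pool.Agent.EXV.FinV
import Pool.Agent.EXR.LatR

/-!
# EXT / FinF: every factor of the leading form that moves under `v`

PROOF.  `mainJ` (integer linear factor `∑ a_j X_j` of `L`, `∑ a_j v_j ≠ 0`): `prim_row` and `change_vars` so that the factor is `X 0`; then `v 0 ≠ 0`. Isogeny and
shear as in EXV/FinV (`N = 1`): `d = (|v 0|, 1, .., 1)`, sign change of `x_0` if `v 0 < 0`, `v = e (1, v_1, .., v_m)`, shear: `v = e e_0`; `X 0` stays `X 0`
up to a constant. `mainI`. `mainF`: `L(x + v) ≠ L(x)` gives an irreducible factor `G` of `L` with `G(x + v) ≠ G(x)` (factorization of `L`); if `G` is not a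
multiple of an integer linear form: `EXV.mainV`; otherwise `mainJ`.
-/

set_option autoImplicit false

namespace Pool.Agent.EXT

open MvPolynomial Pool.Agent.EXV

/-- the linear substitution `x ↦ M x` -/
private noncomputable def sub {n : ℕ} (M : Matrix (Fin n) (Fin n) ℂ) :
    MvPolynomial (Fin n) ℂ →ₐ[ℂ] MvPolynomial (Fin n) ℂ :=
  aeval (fun i => ∑ j, M i j • (X j : MvPolynomial (Fin n) ℂ))

private theorem sub_X {n : ℕ} (M : Matrix (Fin n) (Fin n) ℂ) (i : Fin n) :
    sub M (X i) = ∑ j, M i j • (X j : MvPolynomial (Fin n) ℂ) := by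
  unfold sub
  rw [aeval_X]

private theorem sub_sub {n : ℕ} (A B : Matrix (Fin n) (Fin n) ℂ) (h : B * A = 1)
    (p : MvPolynomial (Fin n) ℂ) : sub A (sub B p) = p := by
  have h1 : (sub A).comp (sub B) = AlgHom.id ℂ _ := by
    refine MvPolynomial.algHom_ext fun i => ?_
    rw [AlgHom.comp_apply, sub_X, map_sum, AlgHom.id_apply]
    simp only [map_smul, sub_X, Finset.smul_sum, smul_smul]
    rw [Finset.sum_comm]
    simp only [← Finset.sum_smul]
    have h2 : ∀ l, (∑ j, B i j * A j l) = if i = l then 1 else 0 := by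
      intro l
      have h3 := congrFun (congrFun h i) l
      rw [Matrix.mul_apply, Matrix.one_apply] at h3
      exact h3
    simp only [h2]
    simp
  exact congrArg (fun f : MvPolynomial (Fin n) ℂ →ₐ[ℂ] MvPolynomial (Fin n) ℂ => f p) h1

private theorem sub_eval {n : ℕ} (M : Matrix (Fin n) (Fin n) ℂ) (p : MvPolynomial (Fin n) ℂ)
    (y : Fin n → ℂ) : eval y (sub M p) = eval (M.mulVec y) p := by
  have h : (eval y).comp (sub M).toRingHom = eval (M.mulVec y) := by
    refine MvPolynomial.ringHom_ext ?_ ?_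
    · intro r
      simp only [RingHom.comp_apply, AlgHom.toRingHom_eq_coe, RingHom.coe_coe, algHom_C, eval_C]
      rw [algebraMap_eq, eval_C]
    · intro i
      simp only [RingHom.comp_apply, AlgHom.toRingHom_eq_coe, RingHom.coe_coe, sub_X, eval_X,
        map_sum, smul_eval]
      rfl
  exact congrArg (fun f : MvPolynomial (Fin n) ℂ →+* ℂ => f p) h

private theorem sub_hom {n r : ℕ} (M : Matrix (Fin n) (Fin n) ℂ) {p : MvPolynomial (Fin n) ℂ}
    (hp : p.IsHomogeneous r) : (sub M p).IsHomogeneous r := by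
  have h := hp.aeval (fun i => ∑ j, M i j • (X j : MvPolynomial (Fin n) ℂ)) (n := 1)
    fun i => IsHomogeneous.sum _ _ _ fun j _ => by
      rw [smul_eq_C_mul]
      exact IsHomogeneous.C_mul (isHomogeneous_X _ _) _
  rwa [one_mul] at h

private theorem sub_deg {n : ℕ} (M : Matrix (Fin n) (Fin n) ℂ) (p : MvPolynomial (Fin n) ℂ) :
    (sub M p).totalDegree ≤ p.totalDegree := by
  conv_lhs => rw [← sum_homogeneousComponent p, map_sum]
  refine totalDegree_finsetSum_le fun i hi => ?_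
  refine (sub_hom M (homogeneousComponent_isHomogeneous i p)).totalDegree_le.trans ?_
  rw [Finset.mem_range] at hi
  omega

private theorem sub_comp {n : ℕ} (M : Matrix (Fin n) (Fin n) ℂ) (p : MvPolynomial (Fin n) ℂ)
    (d : ℕ) : sub M (homogeneousComponent d p) = homogeneousComponent d (sub M p) := by
  classical
  conv_rhs => rw [← sum_homogeneousComponent p, map_sum, map_sum]
  have h1 : ∀ i, homogeneousComponent d (sub M (homogeneousComponent i p))
      = if d = i then sub M (homogeneousComponent i p) else 0 := fun i =>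
    homogeneousComponent_of_mem (sub_hom M (homogeneousComponent_isHomogeneous i p))
  simp only [h1]
  rw [Finset.sum_ite_eq]
  split_ifs with h2
  · rfl
  · rw [Finset.mem_range, not_lt] at h2
    rw [homogeneousComponent_eq_zero _ _ (by omega), map_zero]

private theorem hcomp_ne {n : ℕ} (p : MvPolynomial (Fin n) ℂ) (hp : p ≠ 0) :
    homogeneousComponent p.totalDegree p ≠ 0 := by
  have hne : p.support.Nonempty := support_nonempty.2 hp
  obtain ⟨s, hs, hsd⟩ := Finset.exists_mem_eq_sup p.support hne (fun s => s.sum fun _ e => e)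
  intro h
  have h1 := congrArg (coeff s) h
  rw [coeff_homogeneousComponent, coeff_zero] at h1
  have h2 : s.degree = p.totalDegree := by
    rw [totalDegree, hsd]
    rfl
  rw [if_pos h2] at h1
  exact (mem_support_iff.1 hs) h1

private theorem dvd_sub {n : ℕ} (M M' : Matrix (Fin n) (Fin n) ℂ) (h : M * M' = 1)
    {F G : MvPolynomial (Fin n) ℂ} (hd : G ∣ homogeneousComponent F.totalDegree F) :
    sub M G ∣ homogeneousComponent (sub M F).totalDegree (sub M F) := by
  have hdeg : (sub M F).totalDegree = F.totalDegree := by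
    refine le_antisymm (sub_deg M F) ?_
    have := sub_deg M' (sub M F)
    rwa [sub_sub M' M h] at this
  rw [hdeg, ← sub_comp]
  exact map_dvd _ hd

/-- the integer matrix as a complex matrix -/
private def cz {n : ℕ} (B : Matrix (Fin n) (Fin n) ℤ) : Matrix (Fin n) (Fin n) ℂ :=
  fun i j => (B i j : ℂ)

private theorem cz_mul {n : ℕ} (A B : Matrix (Fin n) (Fin n) ℤ) (h : A * B = 1) :
    cz A * cz B = 1 := by
  funext i j
  have h1 := congrFun (congrFun h i) j
  rw [Matrix.mul_apply, Matrix.one_apply] at h1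
  rw [Matrix.mul_apply, Matrix.one_apply]
  have h2 := congrArg (fun z : ℤ => (z : ℂ)) h1
  push_cast at h2
  exact h2

private theorem sub_diag {n : ℕ} (d : Fin n → ℕ) (F : MvPolynomial (Fin n) ℂ) :
    aeval (fun j => C (d j : ℂ) * X j : Fin n → MvPolynomial (Fin n) ℂ) F =
      sub (Matrix.diagonal fun j => (d j : ℂ)) F := by
  unfold sub
  congr 2
  funext i
  rw [Finset.sum_eq_single i]
  · rw [Matrix.diagonal_apply_eq, smul_eq_C_mul]
  · intro j _ hj
    rw [Matrix.diagonal_apply_ne _ (Ne.symm hj), zero_smul]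
  · intro h
    exact absurd (Finset.mem_univ i) h

private theorem step {n : ℕ} (B B' : Matrix (Fin n) (Fin n) ℤ) (hBB' : B * B' = 1)
    {P : Ideal (MvPolynomial (Fin n ⊕ Fin n) ℂ)} {F : MvPolynomial (Fin n) ℂ}
    {w : Valuation (MvPolynomial (Fin n ⊕ Fin n) ℂ) (WithZero (Multiplicative ℤ))}
    {v : Fin n → ℤ} (hD : Dat P F w v) :
    ∃ (P' : Ideal (MvPolynomial (Fin n ⊕ Fin n) ℂ))
      (w' : Valuation (MvPolynomial (Fin n ⊕ Fin n) ℂ) (WithZero (Multiplicative ℤ))),
      Dat P' (sub (cz B') F) w' (fun i => ∑ j, B i j * v j) ∧ (Dense P' → Dense P) := by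
  have hB'B : B' * B = 1 := mul_eq_one_comm.mp hBB'
  obtain ⟨P', w', hP', hY', hdim', hF', hw', hwx', hwv', hback⟩ :=
    EXZ.change_vars B B' hBB' P hD.hP hD.hY hD.hdim F hD.hF w hD.hw hD.hwx v hD.hwv
  refine ⟨P', w', ⟨hP', hY', hdim', ?_, hF', hw', hwx', hwv'⟩, fun h => hback h⟩
  intro h0
  apply hD.hF0
  rw [← sub_sub (cz B) (cz B') (cz_mul _ _ hB'B) F, h0, map_zero]

/-- not a multiple of an affine form with integer coefficients -/
private def NL {n : ℕ} (F : MvPolynomial (Fin n) ℂ) : Prop := ∀ (c κ : ℂ) (a : Fin n → ℤ),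
  F ≠ C c * (∑ j, (a j : ℂ) • (X j : MvPolynomial (Fin n) ℂ) - C κ)

private theorem sub_C {n : ℕ} (M : Matrix (Fin n) (Fin n) ℂ) (c : ℂ) : sub M (C c) = C c := by
  rw [← algebraMap_eq, AlgHom.commutes]

private theorem sub_lin {n : ℕ} (M : Matrix (Fin n) (Fin n) ℂ) (a : Fin n → ℂ) :
    sub M (∑ j, a j • (X j : MvPolynomial (Fin n) ℂ)) =
      ∑ l, (∑ j, a j * M j l) • (X l : MvPolynomial (Fin n) ℂ) := by
  rw [map_sum]
  simp only [map_smul, sub_X, Finset.smul_sum, smul_smul]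
  rw [Finset.sum_comm]
  simp only [← Finset.sum_smul]

private theorem nl_sub {n : ℕ} (M M' : Matrix (Fin n) (Fin n) ℂ) (h : M * M' = 1)
    (hM : ∀ b : Fin n → ℤ, ∃ (c' : ℂ) (b' : Fin n → ℤ), c' ≠ 0 ∧
      ∀ l, ∑ j, (b j : ℂ) * M' j l = c' * (b' l : ℂ))
    {F : MvPolynomial (Fin n) ℂ} (hF : NL F) : NL (sub M F) := by
  intro c κ b hb
  obtain ⟨c', b', hc', hb'⟩ := hM b
  apply hF (c * c') (κ / c') b'
  have h1 : sub M' (sub M F) = F := sub_sub M' M h F
  rw [← h1, hb, map_mul, map_sub, sub_C, sub_C, sub_lin]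
  simp only [hb']
  have h2 : ∑ l, (c' * (b' l : ℂ)) • (X l : MvPolynomial (Fin n) ℂ) =
      C c' * ∑ l, (b' l : ℂ) • (X l : MvPolynomial (Fin n) ℂ) := by
    rw [Finset.mul_sum]
    refine Finset.sum_congr rfl fun l _ => ?_
    rw [smul_eq_C_mul, smul_eq_C_mul, C_mul, mul_assoc]
  have h3 : (C κ : MvPolynomial (Fin n) ℂ) = C c' * C (κ / c') := by
    rw [← C_mul, mul_div_cancel₀ _ hc']
  rw [h2, h3, C_mul]
  ring

private theorem nl_mat {n : ℕ} (B B' : Matrix (Fin n) (Fin n) ℤ) (h : B' * B = 1)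
    {F : MvPolynomial (Fin n) ℂ} (hF : NL F) : NL (sub (cz B') F) := by
  refine nl_sub (cz B') (cz B) (cz_mul _ _ h) (fun b => ⟨1, fun l => ∑ j, b j * B j l,
    one_ne_zero, fun l => ?_⟩) hF
  rw [one_mul]
  push_cast
  rfl

private theorem nl_diag {n : ℕ} (d : Fin n → ℕ) (hd : ∀ j, 1 ≤ d j)
    {F : MvPolynomial (Fin n) ℂ} (hF : NL F) :
    NL (sub (Matrix.diagonal fun j => (d j : ℂ)) F) := by
  have hd0 : ∀ j, (d j : ℂ) ≠ 0 := fun j => by
    have := hd j
    exact_mod_cast (show d j ≠ 0 by omega)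
  refine nl_sub _ (Matrix.diagonal fun j => (d j : ℂ)⁻¹) ?_ (fun b => ?_) hF
  · rw [Matrix.diagonal_mul_diagonal]
    simp only [mul_inv_cancel₀ (hd0 _)]
    exact Matrix.diagonal_one
  · have hD : ((∏ j, d j : ℕ) : ℂ) ≠ 0 := by
      push_cast
      exact Finset.prod_ne_zero_iff.mpr fun j _ => hd0 j
    refine ⟨((∏ j, d j : ℕ) : ℂ)⁻¹, fun l => b l * ((∏ j ∈ Finset.univ.erase l, d j : ℕ) : ℤ),
      inv_ne_zero hD, fun l => ?_⟩
    rw [Finset.sum_eq_single l]
    · rw [Matrix.diagonal_apply_eq]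
      have h1 : ((∏ j, d j : ℕ) : ℂ) = d l * ((∏ j ∈ Finset.univ.erase l, d j : ℕ) : ℂ) := by
        rw [← Finset.mul_prod_erase Finset.univ d (Finset.mem_univ l)]
        push_cast
        rfl
      have h2 : ((∏ j ∈ Finset.univ.erase l, d j : ℕ) : ℂ) ≠ 0 := by
        intro h0
        rw [h1, h0, mul_zero] at hD
        exact hD rfl
      rw [h1]
      have h3 := hd0 l
      push_cast at h2 ⊢
      field_simp
    · intro j _ hj
      rw [Matrix.diagonal_apply_ne _ hj, mul_zero]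
    · intro h0
      exact absurd (Finset.mem_univ l) h0

private theorem x0_sub {m : ℕ} (M M' : Matrix (Fin (m + 1)) (Fin (m + 1)) ℂ) (h : M * M' = 1)
    (c0 : ℂ) (hc0 : c0 ≠ 0) (hM : sub M (X 0) = C c0 * X 0) {F : MvPolynomial (Fin (m + 1)) ℂ}
    (hX : X 0 ∣ homogeneousComponent F.totalDegree F) :
    X 0 ∣ homogeneousComponent (sub M F).totalDegree (sub M F) := by
  have h1 := dvd_sub M M' h hX
  rw [hM] at h1
  exact (dvd_mul_left _ _).trans h1

private theorem mainP {m : ℕ} (P : Ideal (MvPolynomial (Fin (m + 1) ⊕ Fin (m + 1)) ℂ))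
    (F : MvPolynomial (Fin (m + 1)) ℂ)
    (w : Valuation (MvPolynomial (Fin (m + 1) ⊕ Fin (m + 1)) ℂ) (WithZero (Multiplicative ℤ)))
    (v : Fin (m + 1) → ℤ) (hD : Dat P F w v)
    (hX : X 0 ∣ homogeneousComponent F.totalDegree F) (hv : 0 < v 0) (hnl : NL F) :
    Dense P := by
  classical
  obtain ⟨d, hd⟩ : ∃ d : Fin (m + 1) → ℕ, ∀ j, d j = if j = 0 then (v 0).toNat else 1 :=
    ⟨fun j => if j = 0 then (v 0).toNat else 1, fun _ => rfl⟩
  have hd1 : ∀ j, 1 ≤ d j := by
    intro j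
    rw [hd]
    split_ifs
    · omega
    · exact le_rfl
  have hd0 : (d 0 : ℤ) = v 0 := by
    rw [hd, if_pos rfl]
    omega
  obtain ⟨P1, w1, v1, e, he, hdv, hD1, hb1⟩ := isog P F w v hD d hd1
  rw [sub_diag] at hD1
  have hdc : ∀ j, (d j : ℂ) ≠ 0 := fun j => by
    have := hd1 j
    exact_mod_cast (show d j ≠ 0 by omega)
  have hX1 := x0_sub (Matrix.diagonal fun j => (d j : ℂ))
    (Matrix.diagonal fun j => (d j : ℂ)⁻¹) (by
      rw [Matrix.diagonal_mul_diagonal]
      simp only [mul_inv_cancel₀ (hdc _)]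
      exact Matrix.diagonal_one) (d 0 : ℂ) (hdc 0) (by
      rw [sub_X, Finset.sum_eq_single 0]
      · rw [Matrix.diagonal_apply_eq, smul_eq_C_mul]
      · intro j _ hj
        rw [Matrix.diagonal_apply_ne _ (Ne.symm hj), zero_smul]
      · intro h
        exact absurd (Finset.mem_univ _) h) hX
  have hnl1 := nl_diag d hd1 hnl
  have hv10 : v1 0 = e := by
    have h1 := hdv 0
    rw [hd0] at h1
    have h2 : v 0 * v1 0 = v 0 * e := by rw [h1]; ring
    exact mul_left_cancel₀ hv.ne' h2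
  have hv1r : ∀ j : Fin (m + 1), j ≠ 0 → v1 j = e * v j := by
    intro j hj
    have h1 := hdv j
    rw [hd, if_neg hj] at h1
    push_cast at h1
    rw [one_mul] at h1
    exact h1
  -- shear
  obtain ⟨sh, hshd⟩ : ∃ sh : ℤ → Matrix (Fin (m + 1)) (Fin (m + 1)) ℤ, ∀ t i j,
      sh t i j = (if i = j then 1 else 0) + if i ≠ 0 ∧ j = 0 then t * v i else 0 :=
    ⟨fun t => Matrix.of fun i j =>
      (if i = j then 1 else 0) + if i ≠ 0 ∧ j = 0 then t * v i else 0, fun _ _ _ => rfl⟩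
  have hsh : ∀ t : ℤ, ∀ x : Fin (m + 1) → ℤ, ∀ i, ∑ j, sh t i j * x j =
      x i + if i ≠ 0 then t * v i * x 0 else 0 := by
    intro t x i
    simp only [hshd, add_mul, Finset.sum_add_distrib, ite_mul, zero_mul, one_mul]
    congr 1
    · rw [Finset.sum_ite_eq]
      simp
    · by_cases hi : i ≠ 0
      · simp [hi]
      · simp [hi]
  have hshm : ∀ t : ℤ, sh t * sh (-t) = 1 := by
    intro t
    apply Matrix.ext
    intro i j
    rw [Matrix.mul_apply, hsh t (fun l => sh (-t) l j) i, Matrix.one_apply]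
    show sh (-t) i j + (if i ≠ 0 then t * v i * sh (-t) 0 j else 0) = _
    rw [hshd, hshd]
    by_cases hi : i = 0
    · subst hi
      simp
    · by_cases hj : j = 0
      · subst hj
        simp only [ne_eq, hi, not_false_eq_true, true_and, if_true, not_true_eq_false,
          false_and, if_false]
        ring
      · have hj' : (0 : Fin (m + 1)) ≠ j := fun h => hj h.symm
        simp [hi, hj, hj']
  have hm1 : sh (-1) * sh 1 = 1 := by
    have := hshm (-1)
    rwa [neg_neg] at this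
  have hm2 : sh 1 * sh (-1) = 1 := hshm 1
  obtain ⟨P2, w2, hD2, hb2⟩ := step (sh (-1)) (sh 1) hm1 hD1
  have hX2 := x0_sub (cz (sh 1)) (cz (sh (-1))) (cz_mul _ _ hm2) 1 one_ne_zero (by
    rw [sub_X, C_1, one_mul, Finset.sum_eq_single 0]
    · show ((sh 1 0 0 : ℤ) : ℂ) • (X 0 : MvPolynomial (Fin (m + 1)) ℂ) = X 0
      rw [hshd]
      simp
    · intro j _ hj
      show ((sh 1 0 j : ℤ) : ℂ) • (X j : MvPolynomial (Fin (m + 1)) ℂ) = 0
      rw [hshd, if_neg (Ne.symm hj)]
      simp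
    · intro h
      exact absurd (Finset.mem_univ _) h) hX1
  have hnl2 := nl_mat (sh (-1)) (sh 1) hm2 hnl1
  refine hb1 (hb2 (mainI P2 _ w2 _ hD2 ?_ ?_ hX2 ?_))
  · have h1 : ∑ j, sh (-1) 0 j * v1 j = e := by
      rw [hsh, if_neg (by simp), add_zero, hv10]
    show 0 < ∑ j, sh (-1) 0 j * v1 j
    rw [h1]
    exact_mod_cast he
  · intro j
    show ∑ l, sh (-1) j.succ l * v1 l = 0
    rw [hsh, if_pos (Fin.succ_ne_zero j), hv1r _ (Fin.succ_ne_zero j), hv10]
    ring
  · intro c κ h0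
    apply hnl2 c κ (Pi.single 0 1)
    rw [h0]
    congr 2
    rw [Finset.sum_eq_single 0]
    · simp
    · intro j _ hj
      simp [Pi.single_eq_of_ne hj]
    · intro h
      exact absurd (Finset.mem_univ _) h

private theorem mainX {m : ℕ} (P : Ideal (MvPolynomial (Fin (m + 1) ⊕ Fin (m + 1)) ℂ))
    (F : MvPolynomial (Fin (m + 1)) ℂ)
    (w : Valuation (MvPolynomial (Fin (m + 1) ⊕ Fin (m + 1)) ℂ) (WithZero (Multiplicative ℤ)))
    (v : Fin (m + 1) → ℤ) (hD : Dat P F w v)
    (hX : X 0 ∣ homogeneousComponent F.totalDegree F) (hv : v 0 ≠ 0) (hnl : NL F) :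
    Dense P := by
  classical
  rcases lt_or_gt_of_ne hv with hv | hv
  · obtain ⟨S, hS⟩ : ∃ S : Matrix (Fin (m + 1)) (Fin (m + 1)) ℤ,
        S = Matrix.diagonal fun j => if j = 0 then -1 else 1 := ⟨_, rfl⟩
    have hSS : S * S = 1 := by
      rw [hS, Matrix.diagonal_mul_diagonal]
      have h1 : (fun i : Fin (m + 1) => (if i = 0 then (-1 : ℤ) else 1) *
          if i = 0 then -1 else 1) = fun _ => 1 := by
        funext i
        split_ifs <;> norm_num
      rw [h1]
      exact Matrix.diagonal_one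
    obtain ⟨P1, w1, hD1, hb1⟩ := step S S hSS hD
    have hX1 := x0_sub (cz S) (cz S) (cz_mul _ _ hSS) (-1) (by norm_num) (by
      rw [sub_X, Finset.sum_eq_single 0]
      · show ((S 0 0 : ℤ) : ℂ) • (X 0 : MvPolynomial (Fin (m + 1)) ℂ) = C (-1) * X 0
        rw [hS, Matrix.diagonal_apply_eq, if_pos rfl, smul_eq_C_mul]
        push_cast
        rfl
      · intro j _ hj
        show ((S 0 j : ℤ) : ℂ) • (X j : MvPolynomial (Fin (m + 1)) ℂ) = 0
        rw [hS, Matrix.diagonal_apply_ne _ (Ne.symm hj)]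
        simp
      · intro h
        exact absurd (Finset.mem_univ _) h) hX
    have hnl1 := nl_mat S S hSS hnl
    refine hb1 (mainP P1 _ w1 _ hD1 hX1 ?_ hnl1)
    show 0 < ∑ j, S 0 j * v j
    rw [Finset.sum_eq_single 0]
    · rw [hS, Matrix.diagonal_apply_eq, if_pos rfl]
      omega
    · intro j _ hj
      rw [hS, Matrix.diagonal_apply_ne _ (Ne.symm hj), zero_mul]
    · intro h
      exact absurd (Finset.mem_univ _) h
  · exact mainP P F w v hD hX hv hnl

theorem mainJ {n : ℕ} (P : Ideal (MvPolynomial (Fin n ⊕ Fin n) ℂ)) (F : MvPolynomial (Fin n) ℂ)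
    (w : Valuation (MvPolynomial (Fin n ⊕ Fin n) ℂ) (WithZero (Multiplicative ℤ)))
    (v : Fin n → ℤ) (hD : Dat P F w v) (a : Fin n → ℤ)
    (hL : (∑ j, (a j : ℂ) • (X j : MvPolynomial (Fin n) ℂ)) ∣ homogeneousComponent F.totalDegree F)
    (hv : ∑ j, a j * v j ≠ 0)
    (hnl : ∀ (c κ : ℂ) (a : Fin n → ℤ),
      F ≠ C c * (∑ j, (a j : ℂ) • (X j : MvPolynomial (Fin n) ℂ) - C κ)) :
    Dense P := by
  classical
  have ha : a ≠ 0 := by
    rintro rfl
    apply hv
    simp
  obtain ⟨m, rfl⟩ : ∃ m, n = m + 1 := by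
    rcases Nat.eq_zero_or_pos n with h0 | h0
    · subst h0
      exact absurd (Subsingleton.elim a 0) ha
    · exact ⟨n - 1, by omega⟩
  obtain ⟨g, B, B', hg, hBB', haB⟩ := EXR.prim_row a ha
  have hB'B : B' * B = 1 := mul_eq_one_comm.mp hBB'
  obtain ⟨P1, w1, hD1, hb1⟩ := step B B' hBB' hD
  have hgc : (g : ℂ) ≠ 0 := by exact_mod_cast hg
  have h1 := dvd_sub (cz B') (cz B) (cz_mul _ _ hB'B) hL
  rw [sub_lin] at h1
  have h2 : ∀ l, (∑ j, (a j : ℂ) * cz B' j l) = if 0 = l then (g : ℂ) else 0 := by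
    intro l
    have h3 := congrFun (congrFun hBB' 0) l
    rw [Matrix.mul_apply, Matrix.one_apply] at h3
    have h4 : (∑ j, a j * B' j l) = g * (if 0 = l then 1 else 0) := by
      rw [← h3, Finset.mul_sum]
      exact Finset.sum_congr rfl fun j _ => by rw [haB]; ring
    have h5 := congrArg (fun z : ℤ => (z : ℂ)) h4
    push_cast at h5
    show (∑ j, (a j : ℂ) * ((B' j l : ℤ) : ℂ)) = _
    rw [h5]
    split_ifs <;> simp
  have hX1 : X 0 ∣ homogeneousComponent (sub (cz B') F).totalDegree (sub (cz B') F) := by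
    have h3 : ∑ l, (∑ j, (a j : ℂ) * cz B' j l) • (X l : MvPolynomial (Fin (m + 1)) ℂ) =
        C (g : ℂ) * X 0 := by
      simp only [h2]
      simp [smul_eq_C_mul]
    rw [h3] at h1
    exact (dvd_mul_left _ _).trans h1
  refine hb1 (mainX P1 _ w1 _ hD1 hX1 ?_ (nl_mat B B' hB'B hnl))
  intro h0
  apply hv
  have h3 : ∑ j, a j * v j = g * ∑ j, B 0 j * v j := by
    rw [Finset.mul_sum]
    exact Finset.sum_congr rfl fun j _ => by rw [haB]; ring
  have h4 : ∑ j, B 0 j * v j = 0 := h0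
  rw [h3, h4, mul_zero]

private theorem exists_moved {n : ℕ} (v : Fin n → ℤ) (L : MvPolynomial (Fin n) ℂ) (hL : L ≠ 0)
    (hv : ∃ x : Fin n → ℂ, eval (fun j => x j + v j) L ≠ eval x L) :
    ∃ G : MvPolynomial (Fin n) ℂ, Irreducible G ∧ G ∣ L ∧
      ∃ x : Fin n → ℂ, eval (fun j => x j + v j) G ≠ eval x G := by
  by_contra hno
  push Not at hno
  obtain ⟨x, hx⟩ := hv
  apply hx
  obtain ⟨f, hf, u, hu⟩ := WfDvdMonoid.exists_factors L hL
  have hprod : ∀ s : Multiset (MvPolynomial (Fin n) ℂ), (∀ b ∈ s, b ∈ f) →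
      eval (fun j => x j + v j) s.prod = eval x s.prod := by
    intro s
    induction s using Multiset.induction_on with
    | empty => intro _; simp
    | cons b s ih =>
      intro h
      rw [Multiset.prod_cons, map_mul, map_mul,
        ih fun b' hb' => h b' (Multiset.mem_cons_of_mem hb')]
      have hb := h b (Multiset.mem_cons_self b s)
      rw [hno b (hf b hb) ((Multiset.dvd_prod hb).trans ⟨u, hu.symm⟩) x]
  have h1 := hprod f fun b hb => hb
  have h2 : ∃ c : ℂ, (u : MvPolynomial (Fin n) ℂ) = C c := by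
    obtain ⟨c, -, hc⟩ := MvPolynomial.isUnit_iff_eq_C_of_isReduced.1 u.isUnit
    exact ⟨c, hc⟩
  obtain ⟨c, hc⟩ := h2
  rw [← hu, map_mul, map_mul, h1, hc, eval_C, eval_C]

theorem mainF {n : ℕ} (P : Ideal (MvPolynomial (Fin n ⊕ Fin n) ℂ)) (F : MvPolynomial (Fin n) ℂ)
    (w : Valuation (MvPolynomial (Fin n ⊕ Fin n) ℂ) (WithZero (Multiplicative ℤ)))
    (v : Fin n → ℤ) (hD : Dat P F w v)
    (hv : ∃ x : Fin n → ℂ, eval (fun j => x j + v j) (homogeneousComponent F.totalDegree F) ≠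
      eval x (homogeneousComponent F.totalDegree F))
    (hnl : ∀ (c κ : ℂ) (a : Fin n → ℤ),
      F ≠ C c * (∑ j, (a j : ℂ) • (X j : MvPolynomial (Fin n) ℂ) - C κ)) :
    Dense P := by
  obtain ⟨G, hG, hGL, hGv⟩ := exists_moved v _ (hcomp_ne F hD.hF0) hv
  by_cases hlin : ∀ (e : ℂ) (a : Fin n → ℤ),
      G ≠ C e * ∑ j, (a j : ℂ) • (X j : MvPolynomial (Fin n) ℂ)
  · exact mainV P F w v hD G hG hGL hlin hGv
  · push Not at hlin
    obtain ⟨e, a, hGe⟩ := hlin
    have hdv : (∑ j, (a j : ℂ) • (X j : MvPolynomial (Fin n) ℂ)) ∣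
        homogeneousComponent F.totalDegree F := by
      refine dvd_trans ?_ hGL
      rw [hGe]
      exact dvd_mul_left _ _
    refine mainJ P F w v hD a hdv ?_ hnl
    intro h0
    obtain ⟨x, hx⟩ := hGv
    apply hx
    have h1 : (∑ j, (a j : ℂ) * (v j : ℂ)) = 0 := by exact_mod_cast h0
    rw [hGe]
    simp only [map_mul, eval_C, map_sum, smul_eval, eval_X, mul_add, Finset.sum_add_distrib, h1,
      add_zero]

end Pool.Agent.EXT
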