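import Pool.Agent.EXT.GoodT

/-!
# EXT / GoodE: goodness along the graph from the expansion (as GoodT, any `e`, `s = T^(-1/e)`)

PROOF.  For `‖x - I T β‖ ≤ √T` (all coordinates) the point `p = (x / T, T^(-1/e))` tends to `(I β, 0)` uniformly; `p.1 j * (p.2⁻¹)^e = x j`;
`N (x, exp (ρ p)) = p.2^K g p`, `ν T = p.2^(-K) / g (I β, 0)`, `ν T * N - 1 = g p / g (I β, 0) - 1 → 0` uniformly; `‖ν T‖ ≤ T^(|K| + 1)`.
-/

set_option autoImplicit false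

namespace Pool.Agent.EXT

open MvPolynomial Topology Filter

theorem goodE (k : Subfield ℂ) {m : ℕ} (β : Fin m → ℝ) (e : ℕ) (he : 1 ≤ e)
    (ρ : (Fin m → ℂ) × ℂ → ℂ)
    (hN : ∀ N : MvPolynomial (Fin m ⊕ Unit) k, N ≠ 0 → ∃ (K : ℤ) (g : (Fin m → ℂ) × ℂ → ℂ),
      ContinuousAt g (fun j => Complex.I * (β j : ℂ), 0) ∧
      g (fun j => Complex.I * (β j : ℂ), 0) ≠ 0 ∧
      ∀ᶠ p : (Fin m → ℂ) × ℂ in 𝓝 (fun j => Complex.I * (β j : ℂ), 0), p.2 ≠ 0 →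
        aeval (Sum.elim (fun j => p.1 j * (p.2⁻¹) ^ e) fun _ => Complex.exp (ρ p)) N =
          p.2 ^ K * g p) :
    GoodG k β fun (T : ℕ) x =>
      ρ (fun j => x j * (T : ℂ)⁻¹, (((T : ℝ) ^ (-(1 / (e : ℝ))) : ℝ) : ℂ)) :=
  goodT k β e he ρ hN

end Pool.Agent.EXT
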