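import Pool.Agent.EXT.Defs

/-!
# EXT / GoodT: goodness along the graph from the expansion

PROOF.  `s_T = T^(-1/e)` (real). For `‖x - I T β‖ ≤ √T` (all coordinates) the point `p = (x / T, s_T)` tends to `(I β, 0)` uniformly;
`p.1 j * (p.2⁻¹)^e = x j`; `N (x, exp (V p)) = s_T^K g p`, `ν T = s_T^(-K) / g (I β, 0)`, `ν T * N - 1 = g p / g (I β, 0) - 1 → 0` uniformly (`g` continuous at
`(I β, 0)`); `‖ν T‖ ≤ T^(|K| + 1)`.
-/

set_option autoImplicit false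

namespace Pool.Agent.EXT

open MvPolynomial Topology Filter

private theorem goodT_near {m : ℕ} (β : Fin m → ℝ) (e : ℕ) (he : 1 ≤ e) (r : ℝ) (hr : 0 < r) :
    ∀ᶠ T : ℕ in atTop, 1 ≤ T ∧ ∀ x : Fin m → ℂ,
      (∀ j, ‖x j - Complex.I * (T : ℂ) * (β j : ℂ)‖ ≤ √(T : ℝ)) →
      dist (((fun j => x j * (T : ℂ)⁻¹, (((T : ℝ) ^ (-(1 / (e : ℝ))) : ℝ) : ℂ))) :
        (Fin m → ℂ) × ℂ) (fun j => Complex.I * (β j : ℂ), 0) < r := by
  have h1 : ∀ᶠ T : ℕ in atTop, 1 / r < √(T : ℝ) :=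
    (Real.tendsto_sqrt_atTop.comp tendsto_natCast_atTop_atTop).eventually_gt_atTop (1 / r)
  have he0 : (0 : ℝ) < 1 / (e : ℝ) := by
    have : (0 : ℝ) < e := by exact_mod_cast he
    positivity
  have h2 : ∀ᶠ T : ℕ in atTop, (T : ℝ) ^ (-(1 / (e : ℝ))) < r :=
    ((tendsto_rpow_neg_atTop he0).comp tendsto_natCast_atTop_atTop).eventually
      (eventually_lt_nhds hr)
  filter_upwards [h1, h2, eventually_ge_atTop 1] with T hT1 hT3 hT2
  refine ⟨hT2, fun x hx => ?_⟩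
  have hT : (1 : ℝ) ≤ T := by exact_mod_cast hT2
  have hT0 : (0 : ℝ) < T := by linarith
  have hTc : (T : ℂ) ≠ 0 := by exact_mod_cast hT0.ne'
  have hs1 : 1 ≤ √(T : ℝ) := Real.one_le_sqrt.2 hT
  have hs2 : √(T : ℝ) * √(T : ℝ) = T := Real.mul_self_sqrt hT0.le
  have hsd : 1 / √(T : ℝ) < r := by
    rw [div_lt_iff₀ (by linarith)]
    rw [div_lt_iff₀ hr] at hT1
    linarith
  rw [Prod.dist_eq, max_lt_iff]
  constructor
  · rw [dist_pi_lt_iff hr]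
    intro j
    rw [dist_eq_norm]
    have h2 : x j * (T : ℂ)⁻¹ - Complex.I * (β j : ℂ) =
        (x j - Complex.I * (T : ℂ) * (β j : ℂ)) / (T : ℂ) := by
      field_simp
    rw [h2, norm_div, Complex.norm_natCast]
    refine lt_of_le_of_lt (div_le_div_of_nonneg_right (hx j) hT0.le) ?_
    refine lt_of_le_of_lt (le_of_eq ?_) hsd
    rw [div_eq_div_iff hT0.ne' (by linarith), one_mul]
    exact hs2
  · rw [dist_zero_right, Complex.norm_real, Real.norm_of_nonneg (Real.rpow_nonneg hT0.le _)]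
    exact hT3

theorem goodT (k : Subfield ℂ) {m : ℕ} (β : Fin m → ℝ) (e : ℕ) (he : 1 ≤ e)
    (V : (Fin m → ℂ) × ℂ → ℂ)
    (hN : ∀ N : MvPolynomial (Fin m ⊕ Unit) k, N ≠ 0 → ∃ (K : ℤ) (g : (Fin m → ℂ) × ℂ → ℂ),
      ContinuousAt g (fun j => Complex.I * (β j : ℂ), 0) ∧
      g (fun j => Complex.I * (β j : ℂ), 0) ≠ 0 ∧
      ∀ᶠ p : (Fin m → ℂ) × ℂ in 𝓝 (fun j => Complex.I * (β j : ℂ), 0), p.2 ≠ 0 →
        aeval (Sum.elim (fun j => p.1 j * (p.2⁻¹) ^ e) fun _ => Complex.exp (V p)) N =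
          p.2 ^ K * g p) :
    GoodG k β fun (T : ℕ) x =>
      V (fun j => x j * (T : ℂ)⁻¹, (((T : ℝ) ^ (-(1 / (e : ℝ))) : ℝ) : ℂ)) := by
  intro N hN0
  obtain ⟨K, g, hg, hg0, hev⟩ := hN N hN0
  set z₀ : (Fin m → ℂ) × ℂ := (fun j => Complex.I * (β j : ℂ), 0) with hz₀
  have he' : (e : ℝ) ≠ 0 := by
    have : e ≠ 0 := by omega
    exact_mod_cast this
  refine ⟨fun T => (((T : ℝ) ^ (-(1 / (e : ℝ))) : ℝ) : ℂ) ^ (-K) / g z₀,
    (-(1 / (e : ℝ))) * ((-K : ℤ) : ℝ) + 1, ?_, ?_⟩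
  · filter_upwards [eventually_ge_atTop 1,
      tendsto_natCast_atTop_atTop.eventually_ge_atTop (‖g z₀‖⁻¹)] with T hT1 hT2
    have hT : (1 : ℝ) ≤ T := by exact_mod_cast hT1
    have hT0 : (0 : ℝ) < T := by linarith
    have hs0 : 0 < (T : ℝ) ^ (-(1 / (e : ℝ))) := Real.rpow_pos_of_pos hT0 _
    have hsc : (((T : ℝ) ^ (-(1 / (e : ℝ))) : ℝ) : ℂ) ≠ 0 := by exact_mod_cast hs0.ne'
    refine ⟨div_ne_zero (zpow_ne_zero _ hsc) hg0, ?_⟩
    rw [norm_div, norm_zpow, Complex.norm_real, Real.norm_of_nonneg hs0.le, Real.rpow_add hT0,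
      Real.rpow_mul hT0.le, Real.rpow_intCast, Real.rpow_one, div_eq_mul_inv]
    exact mul_le_mul_of_nonneg_left hT2 (zpow_nonneg hs0.le _)
  · intro δ hδ
    have hc : ∀ᶠ p in 𝓝 z₀, ‖g p / g z₀ - 1‖ < δ := by
      have h1 : Tendsto (fun p => ‖g p / g z₀ - 1‖) (𝓝 z₀) (𝓝 ‖g z₀ / g z₀ - 1‖) :=
        ((hg.tendsto.div_const _).sub_const 1).norm
      rw [div_self hg0, sub_self, norm_zero] at h1
      exact h1.eventually (eventually_lt_nhds hδ)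
    obtain ⟨r, hr, hball⟩ := Metric.eventually_nhds_iff.1 (hev.and hc)
    filter_upwards [goodT_near β e he r hr] with T hT x hx
    obtain ⟨hT1, hT2⟩ := hT
    have hT0 : (0 : ℝ) < T := by exact_mod_cast hT1
    have hTc : (T : ℂ) ≠ 0 := by exact_mod_cast hT0.ne'
    have hs0 : 0 < (T : ℝ) ^ (-(1 / (e : ℝ))) := Real.rpow_pos_of_pos hT0 _
    have hsc : (((T : ℝ) ^ (-(1 / (e : ℝ))) : ℝ) : ℂ) ≠ 0 := by exact_mod_cast hs0.ne'
    have hse : ((((T : ℝ) ^ (-(1 / (e : ℝ))) : ℝ) : ℂ)⁻¹) ^ e = (T : ℂ) := by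
      have h1 : (((T : ℝ) ^ (-(1 / (e : ℝ))))⁻¹) ^ e = (T : ℝ) := by
        rw [← Real.rpow_neg hT0.le, neg_neg, ← Real.rpow_natCast, ← Real.rpow_mul hT0.le,
          one_div, inv_mul_cancel₀ he', Real.rpow_one]
      rw [← Complex.ofReal_inv, ← Complex.ofReal_pow, h1, Complex.ofReal_natCast]
    obtain ⟨h3, h4⟩ := hball (hT2 x hx)
    have h5 := h3 hsc
    simp only at h5
    rw [hse] at h5
    have h6 : (fun j => x j * (T : ℂ)⁻¹ * (T : ℂ)) = x := by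
      funext j
      rw [mul_assoc, inv_mul_cancel₀ hTc, mul_one]
    rw [h6] at h5
    rw [h5]
    generalize (((T : ℝ) ^ (-(1 / (e : ℝ))) : ℝ) : ℂ) = s at *
    have h7 : s ^ (-K) / g z₀ * (s ^ K * g (fun j => x j * (T : ℂ)⁻¹, s)) - 1 =
        g (fun j => x j * (T : ℂ)⁻¹, s) / g z₀ - 1 := by
      rw [zpow_neg]
      have h8 : s ^ K ≠ 0 := zpow_ne_zero _ hsc
      field_simp
    rw [h7]
    exact h4.le

end Pool.Agent.EXT
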