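import Pool.Agent.EXT.Defs

/-!
# EXT / PairT: pair relations along the graph (helper97)

PROOF.  `P j = ∑_l p_l (X', Z) Y^l`. For the finitely many `l` with `p_l ≠ 0`: `GoodG` gives `ν_l`, `ν_l(T) p_l (x, exp r) → 1` uniformly. Put
`c T = ((b T j)^l / ν_l(T))_l`; `u T = c T / ‖c T‖` converges along `𝒰` to `λ` of norm `1`
(compactness of the sphere). So `P j (x, exp r, b_j ζ) / ‖c T‖ → ∑ λ_l ζ^l =: P'(ζ) ≠ 0` uniformly for `‖ζ‖ ≤ 2`. Choose `δ' < δ`, `δ' < 1`, such that the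
finitely many roots of all `P'` are not on the circle `‖ζ - 1‖ = δ'` (compact: bounded below). (As `EXZ.pair_good`.)
-/

set_option autoImplicit false

namespace Pool.Agent.EXT

open MvPolynomial Topology Filter

private lemma pt_split {k : Subfield ℂ} {m : ℕ} (P : MvPolynomial (Fin m ⊕ Fin 2) k) :
    ∃ (L : ℕ) (p : ℕ → MvPolynomial (Fin m ⊕ Unit) k), ∀ (x : Fin m → ℂ) (s t : ℂ),
      aeval (Sum.elim x ![s, t]) P =
        ∑ l : Fin L, aeval (Sum.elim x fun _ => s) (p l) * t ^ (l : ℕ) := by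
  set φ : MvPolynomial (Fin m ⊕ Fin 2) k →ₐ[k] Polynomial (MvPolynomial (Fin m ⊕ Unit) k) :=
    aeval (Sum.elim (fun j => Polynomial.C (X (Sum.inl j)))
      ![Polynomial.C (X (Sum.inr ())), Polynomial.X]) with hφ
  refine ⟨(φ P).natDegree + 1, fun l => (φ P).coeff l, fun x s t => ?_⟩
  have h : Polynomial.eval₂ ((aeval (Sum.elim x fun _ => s) :
      MvPolynomial (Fin m ⊕ Unit) k →ₐ[k] ℂ) : MvPolynomial (Fin m ⊕ Unit) k →+* ℂ) t (φ P) =
      aeval (Sum.elim x ![s, t]) P := by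
    have h2 : (Polynomial.eval₂RingHom ((aeval (Sum.elim x fun _ => s) :
        MvPolynomial (Fin m ⊕ Unit) k →ₐ[k] ℂ) : MvPolynomial (Fin m ⊕ Unit) k →+* ℂ) t).comp
          (φ : MvPolynomial (Fin m ⊕ Fin 2) k →+* Polynomial (MvPolynomial (Fin m ⊕ Unit) k)) =
        ((aeval (Sum.elim x ![s, t]) : MvPolynomial (Fin m ⊕ Fin 2) k →ₐ[k] ℂ) :
          MvPolynomial (Fin m ⊕ Fin 2) k →+* ℂ) := by
      apply MvPolynomial.ringHom_ext
      · intro r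
        simp [hφ, Polynomial.algebraMap_eq, MvPolynomial.algebraMap_eq, IsScalarTower.algebraMap_apply k (MvPolynomial (Fin m ⊕ Unit) k) (Polynomial (MvPolynomial (Fin m ⊕ Unit) k))]
      · intro i
        rcases i with j | j
        · simp [hφ]
        · fin_cases j <;> simp [hφ]
    exact DFunLike.congr_fun h2 P
  rw [← h, Polynomial.eval₂_eq_sum_range, Finset.sum_range]
  rfl

private lemma pt_zero {k : Subfield ℂ} {m : ℕ} (P : MvPolynomial (Fin m ⊕ Fin 2) k)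
    (h : ∀ (x : Fin m → ℂ) (s t : ℂ), aeval (Sum.elim x ![s, t]) P = 0) : P = 0 := by
  have h1 : map (algebraMap k ℂ) P = 0 := by
    apply MvPolynomial.funext
    intro z
    rw [eval_map, map_zero, ← aeval_def]
    have h2 := h (fun j => z (Sum.inl j)) (z (Sum.inr 0)) (z (Sum.inr 1))
    have h3 : (Sum.elim (fun j => z (Sum.inl j)) ![z (Sum.inr 0), z (Sum.inr 1)]) = z := by
      funext i
      rcases i with j | j
      · rfl
      · fin_cases j <;> rfl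
    rwa [h3] at h2
  exact (map_eq_zero_iff _ (MvPolynomial.map_injective _ (algebraMap k ℂ).injective)).1 h1

private lemma pt_key {m : ℕ} (k : Subfield ℂ) (β : Fin m → ℝ) (r : ℕ → (Fin m → ℂ) → ℂ)
    (hg : GoodG k β r) (𝒰 : Ultrafilter ℕ) (h𝒰 : (𝒰 : Filter ℕ) ≤ atTop) (b : ℕ → ℂ)
    (hb : ∀ T, b T ≠ 0) (P : MvPolynomial (Fin m ⊕ Fin 2) k) (hP : P ≠ 0) :
    ∃ q : Polynomial ℂ, q ≠ 0 ∧ ∀ ε : ℝ, 0 < ε → ∀ᶠ T : ℕ in (𝒰 : Filter ℕ), ∃ s : ℂ,
      ∀ (x : Fin m → ℂ) (ζ : ℂ), (∀ l, ‖x l - Complex.I * (T : ℂ) * (β l : ℂ)‖ ≤ √(T : ℝ)) →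
        ‖ζ‖ ≤ 2 →
        ‖s * aeval (Sum.elim x ![Complex.exp (r T x), b T * ζ]) P - q.eval ζ‖ ≤ ε := by
  classical
  obtain ⟨L, p, hp⟩ := pt_split P
  obtain ⟨l0, hl0⟩ : ∃ l : Fin L, p l ≠ 0 := by
    by_contra hcon
    push Not at hcon
    exact hP (pt_zero P fun x s t => by
      rw [hp]
      exact Finset.sum_eq_zero fun l _ => by rw [hcon l, map_zero, zero_mul])
  have h1 : ∀ l : Fin L, ∃ (ν : ℕ → ℂ), p l ≠ 0 → ((∀ᶠ T : ℕ in (𝒰 : Filter ℕ), ν T ≠ 0) ∧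
      ∀ δ : ℝ, 0 < δ → ∀ᶠ T : ℕ in (𝒰 : Filter ℕ), ∀ x : Fin m → ℂ,
        (∀ j, ‖x j - Complex.I * (T : ℂ) * (β j : ℂ)‖ ≤ √(T : ℝ)) →
        ‖ν T * aeval (Sum.elim x fun _ => Complex.exp (r T x)) (p l) - 1‖ ≤ δ) := by
    intro l
    by_cases h0 : p l = 0
    · exact ⟨0, fun h => absurd h0 h⟩
    obtain ⟨ν, K, h2, h3⟩ := hg (p l) h0
    exact ⟨ν, fun _ => ⟨(h2.filter_mono h𝒰).mono fun T hT => hT.1,
      fun δ hδ => (h3 δ hδ).filter_mono h𝒰⟩⟩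
  choose ν hν using h1
  set c : ℕ → Fin L → ℂ := fun T l => if p l = 0 then 0 else b T ^ (l : ℕ) / ν l T with hc
  set u : ℕ → Fin L → ℂ := fun T => ((‖c T‖ : ℝ) : ℂ)⁻¹ • c T with hu
  have hc0 : ∀ᶠ T : ℕ in (𝒰 : Filter ℕ), ‖c T‖ ≠ 0 := by
    filter_upwards [(hν l0 hl0).1] with T hT
    rw [norm_ne_zero_iff]
    intro h0
    have h2 := congrFun h0 l0
    simp only [hc, if_neg hl0, Pi.zero_apply] at h2
    exact div_ne_zero (pow_ne_zero _ (hb T)) hT h2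
  have hu1 : ∀ᶠ T : ℕ in (𝒰 : Filter ℕ), ‖u T‖ = 1 := by
    filter_upwards [hc0] with T hT
    rw [hu]
    simp only
    rw [norm_smul, norm_inv, Complex.norm_real, norm_norm, inv_mul_cancel₀ hT]
  obtain ⟨lam, hlam, hlim⟩ := (isCompact_sphere (0 : Fin L → ℂ) 1).ultrafilter_le_nhds
    (𝒰.map u) (by
      rw [le_principal_iff]
      show ∀ᶠ T in (𝒰 : Filter ℕ), u T ∈ Metric.sphere 0 1
      filter_upwards [hu1] with T hT
      rw [mem_sphere_zero_iff_norm]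
      exact hT)
  have hlim' : Tendsto u (𝒰 : Filter ℕ) (𝓝 lam) := hlim
  have hlam1 : ‖lam‖ = 1 := by rwa [mem_sphere_zero_iff_norm] at hlam
  have hlam0 : ∀ l : Fin L, p l = 0 → lam l = 0 := by
    intro l h0
    have h2 := (tendsto_pi_nhds.1 hlim') l
    have h3 : (fun T => u T l) = fun _ => (0 : ℂ) := by
      funext T
      simp only [hu, hc, Pi.smul_apply, if_pos h0, smul_zero]
    rw [h3] at h2
    exact tendsto_nhds_unique h2 tendsto_const_nhds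
  refine ⟨∑ l : Fin L, Polynomial.monomial (l : ℕ) (lam l), ?_, ?_⟩
  · intro h0
    have h2 : lam = 0 := by
      funext l
      have h3 := congrArg (fun q => Polynomial.coeff q (l : ℕ)) h0
      simp only [Polynomial.finsetSum_coeff, Polynomial.coeff_monomial, Polynomial.coeff_zero]
        at h3
      rw [Finset.sum_eq_single l] at h3
      · simpa using h3
      · intro i _ hi
        rw [if_neg]
        intro h4
        exact hi (Fin.ext h4)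
      · intro h4
        exact absurd (Finset.mem_univ l) h4
    rw [h2, norm_zero] at hlam1
    exact zero_ne_one hlam1
  intro ε hε
  obtain ⟨S, hS⟩ : ∃ S : ℝ, S = ∑ l : Fin L, (2 : ℝ) ^ (l : ℕ) := ⟨_, rfl⟩
  have hS0 : 0 ≤ S := by rw [hS]; positivity
  obtain ⟨ε', hε'⟩ : ∃ ε' : ℝ, ε' = ε / (2 * (S + 1)) := ⟨_, rfl⟩
  have hε'0 : 0 < ε' := by rw [hε']; positivity
  have h5 : ∀ᶠ T : ℕ in (𝒰 : Filter ℕ), ∀ l : Fin L, p l ≠ 0 → ν l T ≠ 0 := by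
    rw [Filter.eventually_all]
    intro l
    by_cases h0 : p l = 0
    · exact Filter.Eventually.of_forall fun T h => absurd h0 h
    · exact (hν l h0).1.mono fun T hT _ => hT
  have h6 : ∀ᶠ T : ℕ in (𝒰 : Filter ℕ), ∀ l : Fin L, p l ≠ 0 → ∀ x : Fin m → ℂ,
        (∀ j, ‖x j - Complex.I * (T : ℂ) * (β j : ℂ)‖ ≤ √(T : ℝ)) →
        ‖ν l T * aeval (Sum.elim x fun _ => Complex.exp (r T x)) (p l) - 1‖ ≤ ε' := by
    rw [Filter.eventually_all]
    intro l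
    by_cases h0 : p l = 0
    · exact Filter.Eventually.of_forall fun T h => absurd h0 h
    · exact ((hν l h0).2 ε' hε'0).mono fun T hT _ => hT
  have h7 : ∀ᶠ T : ℕ in (𝒰 : Filter ℕ), dist (u T) lam < ε' :=
    (Metric.tendsto_nhds.1 hlim') ε' hε'0
  filter_upwards [h5, h6, h7, hu1] with T hT5 hT6 hT7 hT1
  refine ⟨((‖c T‖ : ℝ) : ℂ)⁻¹, fun x ζ hx hζ => ?_⟩
  rw [hp, Polynomial.eval_finsetSum, Finset.mul_sum, ← Finset.sum_sub_distrib]
  have hterm : ∀ l : Fin L, ‖((‖c T‖ : ℝ) : ℂ)⁻¹ *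
      (aeval (Sum.elim x fun _ => Complex.exp (r T x)) (p l) * (b T * ζ) ^ (l : ℕ)) -
      Polynomial.eval ζ (Polynomial.monomial (l : ℕ) (lam l))‖ ≤ 2 * ε' * 2 ^ (l : ℕ) := by
    intro l
    rw [Polynomial.eval_monomial]
    by_cases h0 : p l = 0
    · rw [h0, hlam0 l h0, map_zero, zero_mul, zero_mul, mul_zero, sub_zero, norm_zero]
      positivity
    · have e1 : ((‖c T‖ : ℝ) : ℂ)⁻¹ *
          (aeval (Sum.elim x fun _ => Complex.exp (r T x)) (p l) * (b T * ζ) ^ (l : ℕ)) -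
          lam l * ζ ^ (l : ℕ) =
          ((ν l T * aeval (Sum.elim x fun _ => Complex.exp (r T x)) (p l) - 1) * u T l +
            (u T l - lam l)) * ζ ^ (l : ℕ) := by
        have e2 : u T l = ((‖c T‖ : ℝ) : ℂ)⁻¹ * (b T ^ (l : ℕ) / ν l T) := by
          simp only [hu, Pi.smul_apply, smul_eq_mul]
          congr 1
          simp only [hc, if_neg h0]
        have e3 : ν l T * u T l = ((‖c T‖ : ℝ) : ℂ)⁻¹ * b T ^ (l : ℕ) := by
          rw [e2]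
          field_simp [hT5 l h0]
        rw [mul_pow]
        linear_combination (-(aeval (Sum.elim x fun _ => Complex.exp (r T x)) (p l)) *
          ζ ^ (l : ℕ)) * e3
      rw [e1, norm_mul, norm_pow]
      have h8 : ‖u T l‖ ≤ 1 := (norm_le_pi_norm (u T) l).trans hT1.le
      have h9 : ‖u T l - lam l‖ ≤ ε' := by
        have := norm_le_pi_norm (u T - lam) l
        rw [Pi.sub_apply] at this
        rw [dist_eq_norm] at hT7
        linarith
      have h10 := hT6 l h0 x hx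
      have h11 : ‖(ν l T * aeval (Sum.elim x fun _ => Complex.exp (r T x)) (p l) - 1) * u T l +
            (u T l - lam l)‖ ≤ 2 * ε' := by
        calc _ ≤ ‖(ν l T * aeval (Sum.elim x fun _ => Complex.exp (r T x)) (p l) - 1) * u T l‖ +
              ‖u T l - lam l‖ := norm_add_le _ _
          _ ≤ ε' * 1 + ε' := by
            rw [norm_mul]
            exact add_le_add (mul_le_mul h10 h8 (norm_nonneg _) hε'0.le) h9
          _ = 2 * ε' := by ring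
      exact mul_le_mul h11 (pow_le_pow_left₀ (norm_nonneg _) hζ _) (by positivity) (by positivity)
  calc _ ≤ ∑ l : Fin L, 2 * ε' * 2 ^ (l : ℕ) :=
        (norm_sum_le _ _).trans (Finset.sum_le_sum fun l _ => hterm l)
    _ = 2 * ε' * S := by rw [← Finset.mul_sum, hS]
    _ ≤ 2 * ε' * (S + 1) := by
        apply mul_le_mul_of_nonneg_left _ (by positivity)
        linarith
    _ = ε := by
        rw [hε']
        field_simp

theorem pairT {m n : ℕ} (k : Subfield ℂ) (β : Fin m → ℝ) (r : ℕ → (Fin m → ℂ) → ℂ)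
    (hg : GoodG k β r) (𝒰 : Ultrafilter ℕ) (h𝒰 : (𝒰 : Filter ℕ) ≤ atTop) (b : ℕ → Fin n → ℂ)
    (hb : ∀ T j, b T j ≠ 0) (J : Set (Fin n))
    (P : Fin n → MvPolynomial (Fin m ⊕ Fin 2) k) (hP : ∀ j ∈ J, P j ≠ 0)
    (δ : ℝ) (hδ : 0 < δ) :
    ∃ δ' : ℝ, 0 < δ' ∧ δ' < δ ∧
      ∀ᶠ T : ℕ in (𝒰 : Filter ℕ), ∀ j ∈ J, ∀ (x : Fin m → ℂ) (ζ : ℂ),
        (∀ l, ‖x l - Complex.I * (T : ℂ) * (β l : ℂ)‖ ≤ √(T : ℝ)) →
        ‖ζ - 1‖ = δ' →
        aeval (Sum.elim x ![Complex.exp (r T x), b T j * ζ]) (P j) ≠ 0 := by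
  classical
  have h1 : ∀ j : Fin n, ∃ q : Polynomial ℂ, j ∈ J → (q ≠ 0 ∧ ∀ ε : ℝ, 0 < ε →
      ∀ᶠ T : ℕ in (𝒰 : Filter ℕ), ∃ s : ℂ,
      ∀ (x : Fin m → ℂ) (ζ : ℂ), (∀ l, ‖x l - Complex.I * (T : ℂ) * (β l : ℂ)‖ ≤ √(T : ℝ)) →
        ‖ζ‖ ≤ 2 →
        ‖s * aeval (Sum.elim x ![Complex.exp (r T x), b T j * ζ]) (P j) - q.eval ζ‖ ≤ ε) := by
    intro j
    by_cases hj : j ∈ J
    · obtain ⟨q, h2, h3⟩ := pt_key k β r hg 𝒰 h𝒰 (fun T => b T j) (fun T => hb T j) (P j) (hP j hj)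
      exact ⟨q, fun _ => ⟨h2, h3⟩⟩
    · exact ⟨0, fun h => absurd h hj⟩
  choose q hq using h1
  have h5 : (⋃ j : {j : Fin n // j ∈ J},
      (fun ζ => ‖ζ - 1‖) '' {ζ : ℂ | (q j.1).IsRoot ζ}).Finite :=
    Set.finite_iUnion fun j => (Polynomial.finite_setOfPred_isRoot (hq j.1 j.2).1).image _
  obtain ⟨δ', hδ'1, hδ'2⟩ : ∃ δ' ∈ Set.Ioo 0 (min δ 1), δ' ∉ (⋃ j : {j : Fin n // j ∈ J},
      (fun ζ => ‖ζ - 1‖) '' {ζ : ℂ | (q j.1).IsRoot ζ}) :=
    (Set.Ioo_infinite (lt_min hδ one_pos)).exists_notMem_finite h5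
  have hδ0 : 0 < δ' := hδ'1.1
  have hδ1 : δ' < δ := hδ'1.2.trans_le (min_le_left _ _)
  have hδ2 : δ' < 1 := hδ'1.2.trans_le (min_le_right _ _)
  have h7 : ∀ j : Fin n, ∃ η : ℝ, 0 < η ∧ (j ∈ J → ∀ ζ ∈ Metric.sphere (1 : ℂ) δ',
      η ≤ ‖(q j).eval ζ‖) := by
    intro j
    by_cases hj : j ∈ J
    · have hK : IsCompact (Metric.sphere (1 : ℂ) δ') := isCompact_sphere _ _
      have hKn : (Metric.sphere (1 : ℂ) δ').Nonempty := NormedSpace.sphere_nonempty.2 hδ0.le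
      have hc : Continuous (fun ζ : ℂ => ‖(q j).eval ζ‖) := (q j).continuous.norm
      obtain ⟨ζ0, hζ0, hmin⟩ := hK.exists_isMinOn hKn hc.continuousOn
      refine ⟨‖(q j).eval ζ0‖, norm_pos_iff.2 fun h0 => hδ'2 ?_, fun _ ζ hζ => hmin hζ⟩
      refine Set.mem_iUnion.2 ⟨⟨j, hj⟩, ζ0, h0, ?_⟩
      rw [mem_sphere_iff_norm] at hζ0
      exact hζ0
    · exact ⟨1, one_pos, fun h => absurd h hj⟩
  choose η hη0 hη using h7
  refine ⟨δ', hδ0, hδ1, ?_⟩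
  have h8 : ∀ᶠ T : ℕ in (𝒰 : Filter ℕ), ∀ j : Fin n, j ∈ J → ∀ (x : Fin m → ℂ) (ζ : ℂ),
        (∀ l, ‖x l - Complex.I * (T : ℂ) * (β l : ℂ)‖ ≤ √(T : ℝ)) →
        ‖ζ - 1‖ = δ' →
        aeval (Sum.elim x ![Complex.exp (r T x), b T j * ζ]) (P j) ≠ 0 := by
    rw [Filter.eventually_all]
    intro j
    by_cases hj : j ∈ J
    · filter_upwards [(hq j hj).2 (η j / 2) (half_pos (hη0 j))] with T hT _ x ζ hx hζ h0
      obtain ⟨s, hs⟩ := hT
      have h9 : ‖ζ‖ ≤ 2 := by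
        calc ‖ζ‖ = ‖(ζ - 1) + 1‖ := by rw [sub_add_cancel]
          _ ≤ ‖ζ - 1‖ + ‖(1 : ℂ)‖ := norm_add_le _ _
          _ ≤ 2 := by rw [hζ, norm_one]; linarith
      have h10 := hs x ζ hx h9
      rw [h0, mul_zero, zero_sub, norm_neg] at h10
      have h11 := hη j hj ζ (by rw [mem_sphere_iff_norm]; exact hζ)
      have h12 := hη0 j
      linarith
    · exact Filter.Eventually.of_forall fun T h => absurd h hj
  exact h8

end Pool.Agent.EXT
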