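import Pool.Agent.EXT.PairT
import Pool.Agent.EXZ.BddO
import Pool.Agent.EXZ.Lift
import Pool.Agent.EXG.PrimA
import Pool.Agent.EXG.PrimB

/-!
# EXT / SelT: points of the fibres with `y_0 = exp (r T (I T β))`

PROOF.  As `EXR.sel_ptR` with `u T = exp (r T (I T β))` instead of `ζ`; `GoodG` instead of `good_ne` / `good_low` / `pair_good` (helper98).
-/

set_option autoImplicit false

namespace Pool.Agent.EXT

open MvPolynomial Pool.Agent.EXL Pool.Agent.EXI Pool.Agent.EXG Pool.Agent.EXZ Topology Filter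

private lemma sr_ns {n : ℕ} (Q : Ideal (MvPolynomial (Fin n) ℂ)) (hQ : Q.IsPrime)
    (G : MvPolynomial (Fin n) ℂ) (h : ∀ w : Fin n → ℂ, (∀ g ∈ Q, eval w g = 0) → eval w G = 0) :
    G ∈ Q := by
  have h1 := MvPolynomial.IsPrime.vanishingIdeal_zeroLocus (K := ℂ) Q
  rw [← h1, mem_vanishingIdeal_iff]
  intro w hw
  rw [mem_zeroLocus_iff] at hw
  have h2 := h w fun g hg => by
    have := hw g hg
    rwa [aeval_eq_eval] at this
  rwa [aeval_eq_eval]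

/-- `w` is a point of the projected fibre over `x` -/
private def Rp (k : Subfield ℂ) {m N : ℕ} (a b x : Fin (m + 1) → ℂ) (ι : Fin N → Fin (m + 1))
    (w : Fin N → ℂ) : Prop :=
  (∀ l, w l ≠ 0) ∧ ∃ Q : Ideal (MvPolynomial (Fin (m + 1)) ℂ), Q.IsPrime ∧
    (∀ w : Fin (m + 1) → ℂ, (∀ g ∈ Q, eval w g = 0) → Spec k (Sum.elim a b) (Sum.elim x w)) ∧
    ∀ f : MvPolynomial (Fin N) ℂ, rename ι f ∈ Q → eval w f = 0

private lemma rp_rel {k : Subfield ℂ} {m N : ℕ} {a b x : Fin (m + 1) → ℂ}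
    {ι : Fin N → Fin (m + 1)} {w : Fin N → ℂ} (hw : Rp k a b x ι w) {τ : Type}
    (s : τ → Fin N) (p : MvPolynomial (Fin m ⊕ τ) k)
    (hp : ∀ x y : Fin (m + 1) → ℂ, Spec k (Sum.elim a b) (Sum.elim x y) →
      aeval (Sum.elim (fun j : Fin m => x j.succ) fun o => y (ι (s o))) p = 0) :
    aeval (Sum.elim (fun j : Fin m => x j.succ) fun o => w (s o)) p = 0 := by
  obtain ⟨-, Q, hQ, hQs, hQw⟩ := hw
  have hev : ∀ {n : ℕ} (v : Fin n → ℂ) (r : τ → Fin n), eval v ((aeval (Sum.elim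
      (fun j : Fin m => C (x j.succ)) fun o => X (r o)) : MvPolynomial (Fin m ⊕ τ) k →ₐ[k]
        MvPolynomial (Fin n) ℂ) p) = aeval (Sum.elim (fun j : Fin m => x j.succ)
          fun o => v (r o)) p := by
    intro n v r
    have h1 : (eval v).comp (aeval (Sum.elim
        (fun j : Fin m => C (x j.succ)) fun o => X (r o)) : MvPolynomial (Fin m ⊕ τ) k →ₐ[k]
          MvPolynomial (Fin n) ℂ).toRingHom = (aeval (Sum.elim (fun j : Fin m => x j.succ)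
            fun o => v (r o)) : MvPolynomial (Fin m ⊕ τ) k →ₐ[k] ℂ).toRingHom := by
      apply MvPolynomial.ringHom_ext
      · intro c
        show (eval v) (aeval _ (C c)) = aeval _ (C c)
        rw [aeval_C, aeval_C]
        show eval v (C (c : ℂ)) = (c : ℂ)
        exact eval_C _
      · intro o
        show (eval v) (aeval _ (X o)) = aeval _ (X o)
        rw [aeval_X, aeval_X]
        rcases o with o | o
        · exact eval_C _
        · exact eval_X _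
    exact congrArg (fun g : MvPolynomial (Fin m ⊕ τ) k →+* ℂ => g p) h1
  set f : MvPolynomial (Fin N) ℂ := (aeval (Sum.elim
      (fun j : Fin m => C (x j.succ)) fun o => X (s o)) : MvPolynomial (Fin m ⊕ τ) k →ₐ[k]
        MvPolynomial (Fin N) ℂ) p with hf
  have h1 : eval w f = 0 := by
    refine hQw f (sr_ns Q hQ _ fun v hv => ?_)
    rw [eval_rename, hf, hev]
    exact hp x v (hQs v hv)
  rw [← hev w s]
  exact h1

private lemma sr_choice {α : Type} (P : ℕ → α → Prop) (Q : α → Prop) (d : α) (hd : Q d)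
    (hPQ : ∀ T w, P T w → Q w) : ∃ f : ℕ → α, ∀ T, Q (f T) ∧ ((∃ w, P T w) → P T (f T)) := by
  have h : ∀ T, ∃ v, Q v ∧ ((∃ w, P T w) → P T v) := by
    intro T
    by_cases h : ∃ w, P T w
    · obtain ⟨w, hw⟩ := h
      exact ⟨w, hPQ T w hw, fun _ => hw⟩
    · exact ⟨d, hd, fun h' => absurd h' h⟩
  choose f hf using h
  exact ⟨f, hf⟩

/-- a polynomial in `(x', z)` as a polynomial in the other index type -/
private noncomputable def conv (k : Subfield ℂ) {m : ℕ} (p : MvPolynomial (Option (Fin m)) k) :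
    MvPolynomial (Fin m ⊕ Unit) k :=
  rename (fun o : Option (Fin m) => o.elim (Sum.inr ()) Sum.inl) p

private lemma conv_ne (k : Subfield ℂ) {m : ℕ} (p : MvPolynomial (Option (Fin m)) k)
    (hp : p ≠ 0) : conv k p ≠ 0 := by
  intro h
  refine hp (rename_injective (fun o : Option (Fin m) => o.elim (Sum.inr ()) Sum.inl) ?_
    (h.trans (map_zero _).symm))
  intro o o' h
  cases o with
  | none =>
    cases o' with
    | none => rfl
    | some j => exact absurd h (by simp)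
  | some i =>
    cases o' with
    | none => exact absurd h (by simp)
    | some j =>
      have : i = j := by simpa using h
      rw [this]

private lemma conv_eval (k : Subfield ℂ) {m : ℕ} (p : MvPolynomial (Option (Fin m)) k)
    (x : Fin m → ℂ) (z : ℂ) :
    aeval (Sum.elim x fun _ => z) (conv k p) = aeval (cons z x : Option (Fin m) → ℂ) p := by
  unfold conv
  rw [aeval_rename]
  congr 1
  congr 1
  funext o
  cases o <;> rfl

/-- a polynomial in `Y_0` in a prime ideal without `Y_0 - e` is zero -/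
private lemma sr_zero {m : ℕ} (Q : Ideal (MvPolynomial (Fin (m + 1)) ℂ)) (hQ : Q.IsPrime)
    (h0 : ∀ e : ℂ, (X 0 - C e : MvPolynomial (Fin (m + 1)) ℂ) ∉ Q) :
    ∀ (d : ℕ) (p : Polynomial ℂ), p.natDegree = d →
      Polynomial.aeval (X 0 : MvPolynomial (Fin (m + 1)) ℂ) p ∈ Q → p = 0 := by
  intro d
  induction d with
  | zero =>
    intro p hd hp
    by_contra hp0
    rw [Polynomial.eq_C_of_natDegree_eq_zero hd] at hp hp0
    have hc : p.coeff 0 ≠ 0 := fun h => hp0 (by rw [h, Polynomial.C_0])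
    rw [Polynomial.aeval_C] at hp
    apply hQ.ne_top
    rw [Ideal.eq_top_iff_one]
    have h2 := Q.mul_mem_left (algebraMap ℂ (MvPolynomial (Fin (m + 1)) ℂ) (p.coeff 0)⁻¹) hp
    rwa [← map_mul, inv_mul_cancel₀ hc, map_one] at h2
  | succ d ih =>
    intro p hd hp
    by_contra hp0
    obtain ⟨e, he⟩ := IsAlgClosed.exists_root p (by
      intro h
      exact Nat.succ_ne_zero d (hd.symm.trans (Polynomial.natDegree_eq_of_degree_eq_some h)))
    obtain ⟨q, hq⟩ := Polynomial.dvd_iff_isRoot.2 he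
    have hq0 : q ≠ 0 := by
      rintro rfl
      exact hp0 (by rw [hq, mul_zero])
    have hdq : q.natDegree = d := by
      have h1 : p.natDegree = 1 + q.natDegree := by
        rw [hq, Polynomial.natDegree_mul (Polynomial.X_sub_C_ne_zero e) hq0,
          Polynomial.natDegree_X_sub_C]
      omega
    have h1 : Polynomial.aeval (X 0 : MvPolynomial (Fin (m + 1)) ℂ) p =
        (X 0 - C e) * Polynomial.aeval (X 0 : MvPolynomial (Fin (m + 1)) ℂ) q := by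
      rw [hq, map_mul, map_sub, Polynomial.aeval_X, Polynomial.aeval_C]
      rfl
    rw [h1] at hp
    rcases hQ.mem_or_mem hp with h2 | h2
    · exact h0 e h2
    · exact hq0 (ih q hdq h2)

private lemma sr_one {m : ℕ} (Q : Ideal (MvPolynomial (Fin (m + 1)) ℂ)) (hQ : Q.IsPrime)
    (h0 : ∀ e : ℂ, (X 0 - C e : MvPolynomial (Fin (m + 1)) ℂ) ∉ Q) (ζ : ℂ)
    (f : MvPolynomial (Fin 1) ℂ) (hf : rename (fun _ : Fin 1 => (0 : Fin (m + 1))) f ∈ Q) :
    eval (fun _ => ζ) f = 0 := by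
  have h1 : ∀ {A : Type} [CommRing A] [Algebra ℂ A] (u : A),
      Polynomial.aeval u ((aeval fun _ : Fin 1 => (Polynomial.X : Polynomial ℂ)) f) =
        aeval (fun _ : Fin 1 => u) f := by
    intro A _ _ u
    have h2 : (Polynomial.aeval u).comp (aeval fun _ : Fin 1 => (Polynomial.X : Polynomial ℂ)) =
        (aeval (fun _ : Fin 1 => u) : MvPolynomial (Fin 1) ℂ →ₐ[ℂ] A) := by
      apply MvPolynomial.algHom_ext
      intro i
      rw [AlgHom.comp_apply, aeval_X, aeval_X, Polynomial.aeval_X]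
    exact congrArg (fun g : MvPolynomial (Fin 1) ℂ →ₐ[ℂ] A => g f) h2
  have h3 : rename (fun _ : Fin 1 => (0 : Fin (m + 1))) f =
      Polynomial.aeval (X 0 : MvPolynomial (Fin (m + 1)) ℂ)
        ((aeval fun _ : Fin 1 => (Polynomial.X : Polynomial ℂ)) f) := by
    rw [h1]
    have h4 : (rename (fun _ : Fin 1 => (0 : Fin (m + 1))) :
        MvPolynomial (Fin 1) ℂ →ₐ[ℂ] MvPolynomial (Fin (m + 1)) ℂ) =
          aeval (fun _ : Fin 1 => (X 0 : MvPolynomial (Fin (m + 1)) ℂ)) := by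
      apply MvPolynomial.algHom_ext
      intro i
      rw [rename_X, aeval_X]
    exact congrArg (fun g : MvPolynomial (Fin 1) ℂ →ₐ[ℂ] MvPolynomial (Fin (m + 1)) ℂ => g f) h4
  rw [h3] at hf
  have h4 := sr_zero Q hQ h0 _ _ rfl hf
  have h5 := h1 ζ
  rw [h4, map_zero, aeval_eq_eval] at h5
  exact h5.symm

theorem sel_ptT (k : Subfield ℂ) {m : ℕ} (a b : Fin (m + 1) → ℂ)
    (hb : ∀ j, b j ≠ 0) (htd : td (k : Set ℂ) (Sum.elim a b) = m + 1)
    (P : Fin (m + 1) → Fin (m + 1) → MvPolynomial (Fin m ⊕ Fin 2) k)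
    (hP : ∀ i j, i ≠ j → P i j ≠ 0)
    (hPV : ∀ i j, i ≠ j → ∀ x y : Fin (m + 1) → ℂ, Spec k (Sum.elim a b) (Sum.elim x y) →
      aeval (Sum.elim (fun l : Fin m => x l.succ) ![y i, y j]) (P i j) = 0)
    (β : Fin m → ℝ) (r : ℕ → (Fin m → ℂ) → ℂ) (hg : GoodG k β r) (C0 : ℝ)
    (hr : ∀ᶠ T : ℕ in atTop, ‖r T fun j => Complex.I * (T : ℂ) * (β j : ℂ)‖ ≤ C0)
    (𝒰 : Ultrafilter ℕ) (h𝒰 : (𝒰 : Filter ℕ) ≤ atTop) (x : ℕ → Fin (m + 1) → ℂ)
    (hx : ∀ᶠ T : ℕ in (𝒰 : Filter ℕ), ∀ j : Fin m,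
      x T j.succ = Complex.I * (T : ℂ) * (β j : ℂ))
    (hfib : ∀ᶠ T : ℕ in (𝒰 : Filter ℕ), ∃ Q : Ideal (MvPolynomial (Fin (m + 1)) ℂ), Q.IsPrime ∧
      (∀ j : Fin (m + 1), (X j : MvPolynomial (Fin (m + 1)) ℂ) ∉ Q) ∧
      Algebra.trdeg ℂ (MvPolynomial (Fin (m + 1)) ℂ ⧸ Q) = 1 ∧
      (∀ e : ℂ, (X 0 - C e : MvPolynomial (Fin (m + 1)) ℂ) ∉ Q) ∧
      ∀ w : Fin (m + 1) → ℂ, (∀ g ∈ Q, eval w g = 0) →
        Spec k (Sum.elim a b) (Sum.elim (x T) w)) :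
    AlgebraicIndependent k (bs 0 a b) ∧ ∃ (b' : ℕ → Fin (m + 1) → ℂ) (C : ℝ),
      (∀ T j, b' T j ≠ 0) ∧
      (∀ T, b' T 0 = Complex.exp (r T fun j => Complex.I * (T : ℂ) * (β j : ℂ))) ∧
      (∀ᶠ T : ℕ in (𝒰 : Filter ℕ), Spec k (Sum.elim a b) (Sum.elim (x T) (b' T)) ∧
        ∀ j, |Real.log ‖b' T j‖| ≤ C * Real.log T) ∧
      (∀ δ : ℝ, 0 < δ → ∃ δ' : ℝ, 0 < δ' ∧ δ' < δ ∧
        ∀ᶠ T : ℕ in (𝒰 : Filter ℕ), ∀ j, j ≠ 0 → ∀ (x : Fin m → ℂ) (ζ : ℂ),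
          (∀ l, ‖x l - Complex.I * (T : ℂ) * (β l : ℂ)‖ ≤ √(T : ℝ)) → ‖ζ - 1‖ = δ' →
          aeval (Sum.elim x ![Complex.exp (r T x), b' T j * ζ]) (P 0 j) ≠ 0) := by
  classical
  obtain ⟨u, hu⟩ : ∃ u : ℕ → ℂ, u = fun T : ℕ => Complex.exp (r T fun j => Complex.I * (T : ℂ) * (β j : ℂ)) :=
    ⟨_, rfl⟩
  have huT : ∀ T : ℕ, u T = Complex.exp (r T fun j => Complex.I * (T : ℂ) * (β j : ℂ)) := fun T => by
    rw [hu]
  have hu0 : ∀ T, u T ≠ 0 := fun T => by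
    rw [huT]
    exact Complex.exp_ne_zero _
  have hub : ∀ᶠ T : ℕ in (𝒰 : Filter ℕ), |Real.log ‖u T‖| ≤ |C0| := by
    filter_upwards [h𝒰 hr] with T hT
    rw [huT, Complex.norm_exp, Real.log_exp]
    exact (Complex.abs_re_le_norm _).trans (hT.trans (le_abs_self _))
  have h1 : ∀ᶠ T : ℕ in (𝒰 : Filter ℕ), ∃ Q : Ideal (MvPolynomial (Fin (m + 1)) ℂ), Q.IsPrime ∧
      (∀ w : Fin (m + 1) → ℂ, (∀ g ∈ Q, eval w g = 0) →
        Spec k (Sum.elim a b) (Sum.elim (x T) w)) ∧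
      ∀ f : MvPolynomial (Fin 1) ℂ, rename (fun _ : Fin 1 => (0 : Fin (m + 1))) f ∈ Q →
        eval (fun _ : Fin 1 => u T) f = 0 := by
    filter_upwards [hfib] with T hT
    obtain ⟨Q, hQ, hY, hdim, hk0, hsp⟩ := hT
    exact ⟨Q, hQ, hsp, sr_one Q hQ hk0 (u T)⟩
  have hRp : ∀ᶠ T : ℕ in (𝒰 : Filter ℕ),
      Rp k a b (x T) (fun _ : Fin 1 => (0 : Fin (m + 1))) (fun _ : Fin 1 => u T) := by
    filter_upwards [h1] with T hT
    exact ⟨fun _ => hu0 T, hT⟩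
  have hxI : ∀ᶠ T : ℕ in (𝒰 : Filter ℕ), (fun l : Fin m => x T l.succ) =
      fun l => Complex.I * (T : ℂ) * (β l : ℂ) := hx.mono fun T hT => funext hT
  -- goodness at the centre
  have hgc : ∀ p : MvPolynomial (Fin m ⊕ Unit) k, p ≠ 0 → ∃ (ν : ℕ → ℂ) (K : ℝ),
      ∀ᶠ T : ℕ in atTop, ν T ≠ 0 ∧ ‖ν T‖ ≤ (T : ℝ) ^ K ∧
        ‖ν T * aeval (Sum.elim (fun l => Complex.I * (T : ℂ) * (β l : ℂ)) fun _ => u T) p - 1‖ ≤ 1 / 2 := by
    intro p hp
    obtain ⟨ν, K, h3, h4⟩ := hg p hp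
    refine ⟨ν, K, ?_⟩
    filter_upwards [h3, h4 (1 / 2) (by norm_num)] with T h5 h6
    refine ⟨h5.1, h5.2, ?_⟩
    rw [huT]
    exact h6 (fun l => Complex.I * (T : ℂ) * (β l : ℂ)) fun j => by
      rw [sub_self, norm_zero]
      positivity
  have hnz : ∀ z : ℂ, ‖z - 1‖ ≤ 1 / 2 → 1 / 2 ≤ ‖z‖ := by
    intro z hz
    have h3 : ‖(1 : ℂ)‖ ≤ ‖z‖ + ‖z - 1‖ := by
      calc ‖(1 : ℂ)‖ = ‖z - (z - 1)‖ := by rw [sub_sub_cancel]
        _ ≤ ‖z‖ + ‖z - 1‖ := norm_sub_le _ _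
    rw [norm_one] at h3
    linarith
  -- nonvanishing at the points
  have hnv : ∀ p : MvPolynomial (Option (Fin m)) k, p ≠ 0 → ∀ᶠ T : ℕ in (𝒰 : Filter ℕ),
      aeval (cons (u T) (fun j : Fin m => x T j.succ) : Option (Fin m) → ℂ) p ≠ 0 := by
    intro p hp
    obtain ⟨ν, K, h3⟩ := hgc (conv k p) (conv_ne k p hp)
    filter_upwards [h𝒰 h3, hxI] with T h4 h6 h7
    have h8 := hnz _ h4.2.2
    rw [← h6, conv_eval, h7, mul_zero, norm_zero] at h8
    norm_num at h8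
  have hind : AlgebraicIndependent k (bs 0 a b) := by
    by_contra hni
    obtain ⟨N0, hN0, hN1⟩ := exists_pair1 k a b 0 hni
    obtain ⟨T, h3, h4⟩ := ((hnv N0 hN0).and hRp).exists
    refine h3 ?_
    have h5 := rp_rel h4 (fun _ : Unit => (0 : Fin 1)) (conv k N0) (fun x y hxy => by
      rw [conv_eval]
      exact hN1 x y hxy)
    rw [conv_eval] at h5
    exact h5
  refine ⟨hind, ?_⟩
  obtain ⟨pr⟩ := exists_prim k a b hb htd 0 hind
  have hlift : ∀ᶠ T : ℕ in (𝒰 : Filter ℕ), ∃ w : Fin (m + 1) → ℂ,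
      w 0 = u T ∧ (∀ j, w j ≠ 0) ∧ Spec k (Sum.elim a b) (Sum.elim (x T) w) := by
    filter_upwards [hnv pr.Dl pr.ne, h1] with T h3 h4
    obtain ⟨Q, hQ, hQs, hQw⟩ := h4
    obtain ⟨w, hw1, hw2, hw3⟩ := lift_pt pr Q hQ (x T) hQs (fun _ : Fin 1 => (0 : Fin (m + 1))) 0
      rfl (fun _ => u T) hQw h3
    exact ⟨w, hw1 0, hw2, hw3⟩
  have hch : ∃ W : ℕ → Fin (m + 1) → ℂ, ∀ T, W T 0 = u T ∧ (∀ j, W T j ≠ 0) ∧
      ((∃ w : Fin (m + 1) → ℂ, w 0 = u T ∧ (∀ j, w j ≠ 0) ∧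
        Spec k (Sum.elim a b) (Sum.elim (x T) w)) →
        Spec k (Sum.elim a b) (Sum.elim (x T) (W T))) := by
    have h : ∀ T, ∃ v : Fin (m + 1) → ℂ, v 0 = u T ∧ (∀ j, v j ≠ 0) ∧
      ((∃ w : Fin (m + 1) → ℂ, w 0 = u T ∧ (∀ j, w j ≠ 0) ∧
        Spec k (Sum.elim a b) (Sum.elim (x T) w)) →
        Spec k (Sum.elim a b) (Sum.elim (x T) v)) := by
      intro T
      by_cases h : ∃ w : Fin (m + 1) → ℂ, w 0 = u T ∧ (∀ j, w j ≠ 0) ∧
        Spec k (Sum.elim a b) (Sum.elim (x T) w)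
      · obtain ⟨w, h5, h6, h7⟩ := h
        exact ⟨w, h5, h6, fun _ => h7⟩
      · exact ⟨fun _ => u T, rfl, fun _ => hu0 T, fun h' => absurd h' h⟩
    choose W hW using h
    exact ⟨W, hW⟩
  obtain ⟨W, hW⟩ := hch
  have hW0 : ∀ T, W T 0 = u T := fun T => (hW T).1
  have hWne : ∀ T j, W T j ≠ 0 := fun T => (hW T).2.1
  have hWev : ∀ᶠ T : ℕ in (𝒰 : Filter ℕ), Spec k (Sum.elim a b) (Sum.elim (x T) (W T)) :=
    hlift.mono fun T hT => (hW T).2.2 hT
  have h3T : ∀ᶠ T : ℕ in (𝒰 : Filter ℕ), 3 ≤ T := h𝒰 (eventually_ge_atTop 3)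
  have hlog : ∀ T : ℕ, 3 ≤ T → 1 ≤ Real.log T := by
    intro T hT
    rw [Real.le_log_iff_exp_le (by exact_mod_cast (show 0 < T by omega))]
    have h5 : (3 : ℝ) ≤ T := by exact_mod_cast hT
    have := Real.exp_one_lt_d9
    linarith
  have hC1 : ∀ᶠ T : ℕ in (𝒰 : Filter ℕ), |Real.log ‖u T‖| ≤ |C0| * Real.log T := by
    filter_upwards [h3T, hub] with T hT h5
    exact h5.trans (le_mul_of_one_le_right (abs_nonneg _) (hlog T hT))
  -- growth
  have hgrow : ∀ j, ∃ C : ℝ, ∀ᶠ T : ℕ in (𝒰 : Filter ℕ),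
      |Real.log ‖W T j‖| ≤ C * Real.log T := by
    intro j
    by_cases hj : j = 0
    · subst hj
      refine ⟨|C0|, hC1.mono fun T hT => ?_⟩
      rw [hW0]
      exact hT
    · have hlow : ∀ p : MvPolynomial (Fin m ⊕ Unit) k, p ≠ 0 → ∃ K : ℝ,
          ∀ᶠ T : ℕ in (𝒰 : Filter ℕ), (T : ℝ) ^ (-K) ≤
            ‖aeval (Sum.elim (fun l => Complex.I * (T : ℂ) * (β l : ℂ)) fun _ => u T) p‖ := by
        intro p hp
        obtain ⟨ν, K, h3⟩ := hgc p hp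
        refine ⟨K + 1, ?_⟩
        filter_upwards [h𝒰 h3, h3T] with T h4 h5
        have hT0 : (0 : ℝ) < T := by exact_mod_cast (show 0 < T by omega)
        have h6 := hnz _ h4.2.2
        rw [norm_mul] at h6
        set A := ‖aeval (Sum.elim (fun l => Complex.I * (T : ℂ) * (β l : ℂ)) fun _ => u T) p‖ with hA
        have hA0 : 0 ≤ A := norm_nonneg _
        have h7 : 1 / 2 ≤ (T : ℝ) ^ K * A := h6.trans (mul_le_mul_of_nonneg_right h4.2.1 hA0)
        have h8 : (T : ℝ) ^ (-(K + 1)) = ((T : ℝ) ^ K)⁻¹ * (T : ℝ)⁻¹ := by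
          rw [neg_add, Real.rpow_add hT0, Real.rpow_neg hT0.le, Real.rpow_neg hT0.le, Real.rpow_one]
        have h9 : 0 < (T : ℝ) ^ K := Real.rpow_pos_of_pos hT0 _
        have h10 : (T : ℝ)⁻¹ ≤ 1 / 2 := by
          rw [inv_le_comm₀ hT0 (by norm_num)]
          have h5' : (3 : ℝ) ≤ T := by exact_mod_cast h5
          linarith
        rw [h8]
        calc ((T : ℝ) ^ K)⁻¹ * (T : ℝ)⁻¹ ≤ ((T : ℝ) ^ K)⁻¹ * (1 / 2) :=
              mul_le_mul_of_nonneg_left h10 (inv_nonneg.2 h9.le)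
          _ ≤ ((T : ℝ) ^ K)⁻¹ * ((T : ℝ) ^ K * A) :=
              mul_le_mul_of_nonneg_left h7 (inv_nonneg.2 h9.le)
          _ = A := by rw [← mul_assoc, inv_mul_cancel₀ h9.ne', one_mul]
      have hy : ∀ᶠ T : ℕ in (𝒰 : Filter ℕ), ‖u T‖ ≤ (T : ℝ) ^ |C0| := by
        filter_upwards [hC1, h3T] with T h4 h6
        have hT0 : (0 : ℝ) < T := by exact_mod_cast (show 0 < T by omega)
        have h8 : Real.log ‖u T‖ ≤ |C0| * Real.log T := (le_abs_self _).trans h4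
        have h9 : 0 < ‖u T‖ := norm_pos_iff.2 (hu0 T)
        calc ‖u T‖ = Real.exp (Real.log ‖u T‖) := (Real.exp_log h9).symm
          _ ≤ Real.exp (|C0| * Real.log T) := Real.exp_le_exp.2 h8
          _ = (T : ℝ) ^ |C0| := by rw [Real.rpow_def_of_pos hT0, mul_comm]
      obtain ⟨C2, hC2⟩ := bdd_other k β 𝒰 h𝒰 u
        (fun T => W T j) (Eventually.of_forall fun T => hWne T j) hlow _ hy (P 0 j)
        (hP _ _ fun h => hj h.symm) (by
        filter_upwards [hWev, hxI] with T h3 h4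
        have h5 := hPV 0 j (fun h => hj h.symm) (x T) (W T) h3
        rw [h4, hW0] at h5
        exact h5)
      exact ⟨C2, hC2⟩
  choose Cj hCj using hgrow
  refine ⟨W, ∑ j, |Cj j|, hWne, fun T => (hW0 T).trans (huT T), ?_, ?_⟩
  · filter_upwards [hWev, eventually_all.2 hCj, h3T] with T g1 g5 g6
    refine ⟨g1, fun j => (g5 j).trans ?_⟩
    have h7 : 0 ≤ Real.log (T : ℝ) := zero_le_one.trans (hlog T g6)
    refine mul_le_mul_of_nonneg_right ?_ h7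
    exact (le_abs_self _).trans (Finset.single_le_sum (f := fun j => |Cj j|)
      (fun i _ => abs_nonneg _) (Finset.mem_univ j))
  · intro δ hδ
    exact pairT k β r hg 𝒰 h𝒰 W hWne {j | j ≠ 0} (fun j => P 0 j)
      (fun j hj => hP _ _ (Ne.symm hj)) δ hδ

end Pool.Agent.EXT
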