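import Pool.Agent.EXT.TrT

/-!
# EXT / TrE: `exp` of the branch is transcendental (as TrT, any `e`)

PROOF.  From `trT`: the product of the two balls is the ball of radius `r` around `(α0, 0)`.
-/

set_option autoImplicit false

namespace Pool.Agent.EXT

open MvPolynomial Topology Filter

theorem trE {m : ℕ} (F : MvPolynomial (Fin (m + 1)) ℂ) (hF : Irreducible F)
    (hnl : ∀ c κ : ℂ, F ≠ C c * (X 0 - C κ)) (e : ℕ) (α0 : Fin m → ℂ) (r : ℝ) (hr : 0 < r)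
    (ρ : (Fin m → ℂ) × ℂ → ℂ)
    (hρ : ContDiffOn ℂ 1 ρ (Metric.ball α0 r ×ˢ Metric.ball (0 : ℂ) r))
    (hρF : ∀ p ∈ Metric.ball α0 r ×ˢ Metric.ball (0 : ℂ) r, p.2 ≠ 0 →
      eval (Fin.cons (ρ p) (fun j => p.1 j * (p.2⁻¹) ^ e) : Fin (m + 1) → ℂ) F = 0)
    (N : MvPolynomial (Fin m ⊕ Unit) ℂ) (hN : N ≠ 0) :
    ¬ ∀ p ∈ Metric.ball α0 r ×ˢ Metric.ball (0 : ℂ) r, p.2 ≠ 0 →
      eval (Sum.elim (fun j => p.1 j * (p.2⁻¹) ^ e) fun _ => Complex.exp (ρ p)) N = 0 := by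
  intro h
  have hmem : ∀ p : (Fin m → ℂ) × ℂ, ‖p - (α0, 0)‖ < r →
      p ∈ Metric.ball α0 r ×ˢ Metric.ball (0 : ℂ) r := by
    intro p hp
    rw [Prod.norm_def, max_lt_iff] at hp
    exact ⟨mem_ball_iff_norm.2 hp.1, mem_ball_iff_norm.2 hp.2⟩
  have hopen : IsOpen (Metric.ball α0 r ×ˢ Metric.ball (0 : ℂ) r) :=
    Metric.isOpen_ball.prod Metric.isOpen_ball
  have hmem0 : (α0, (0 : ℂ)) ∈ Metric.ball α0 r ×ˢ Metric.ball (0 : ℂ) r :=
    ⟨Metric.mem_ball_self hr, Metric.mem_ball_self hr⟩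
  refine trT F hF hnl e α0 r hr ρ (fun p hp => ?_) (fun p hp hp2 => hρF p (hmem p hp) hp2) N hN ?_
  · exact (hρ.differentiableOn one_ne_zero).differentiableAt (hopen.mem_nhds (hmem p hp))
  · filter_upwards [hopen.mem_nhds hmem0] with p hp hp2
    exact h p hp hp2

end Pool.Agent.EXT
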